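import Pool.Agent.H82.Cyc.Ram

/-!
# Cycles given by lists
-/

set_option autoImplicit false

open SimpleGraph

namespace Pool.Agent.H82.Cyc

variable {V : Type*} {G : SimpleGraph V}

/-- a copy of `C_k` from a sequence -/
lemma copy_of_seq {k : ℕ} (hk : 3 ≤ k) (c : ℕ → V) (hadj : ∀ i, i < k → G.Adj (c i) (c (i + 1)))
    (hper : c k = c 0) (hinj : ∀ i j, i < k → j < k → c i = c j → i = j) : cycleGraph k ⊑ G := by
  refine ⟨⟨⟨fun i => c i, ?_⟩, ?_⟩⟩
  · intro i j hij
    rw [cycleGraph_adj'] at hij
    have haux : ∀ i j : Fin k, (i - j).val = 1 → G.Adj (c j) (c i) := by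
      intro i j h
      have hi := i.2
      have hj := j.2
      have h3 : (j.val + 1) % k = i.val := by
        have h4 : i = j + (i - j) := by
          have : NeZero k := ⟨by omega⟩
          abel
        have h5 := congrArg Fin.val h4
        rw [Fin.val_add, h] at h5
        exact h5.symm
      have h6 := hadj j.val hj
      have h7 : c (j.val + 1) = c i.val := by
        rcases Nat.lt_or_ge (j.val + 1) k with h8 | h8
        · rw [Nat.mod_eq_of_lt h8] at h3; rw [h3]
        · have h9 : j.val + 1 = k := by omega
          rw [h9, Nat.mod_self] at h3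
          rw [h9, ← h3, ← hper]
      rw [h7] at h6
      exact h6
    rcases hij with h | h
    · exact (haux i j h).symm
    · exact haux j i h
  · intro i j hij
    exact Fin.ext (hinj _ _ i.2 j.2 hij)

/-- `u :: L` is a closed walk whose vertices `L` are distinct -/
def CycL (G : SimpleGraph V) (u : V) (L : List V) : Prop :=
  List.IsChain G.Adj (u :: L) ∧ L.Nodup ∧ L.getLast? = some u

lemma CycL.copy {u : V} {L : List V} {k : ℕ} (h : CycL G u L) (hk : 3 ≤ k) (hL : L.length = k) :
    cycleGraph k ⊑ G := by
  obtain ⟨h1, h2, h3⟩ := h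
  have hL0 : L ≠ [] := by rintro rfl; simp at hL; omega
  have h4 : L[k - 1]'(by omega) = u := by
    rw [List.getLast?_eq_getElem?, List.getElem?_eq_some_iff] at h3
    obtain ⟨_, h3⟩ := h3
    subst hL
    exact h3
  rw [List.isChain_iff_getElem] at h1
  refine copy_of_seq hk (fun i => L[i % k]'(by rw [hL]; exact Nat.mod_lt _ (by omega))) ?_ ?_ ?_
  · intro i hi
    rcases Nat.lt_or_ge (i + 1) k with h5 | h5
    · have := h1 (i + 1) (by rw [List.length_cons]; omega)
      simp only [List.getElem_cons_succ] at this
      simp only [Nat.mod_eq_of_lt hi, Nat.mod_eq_of_lt h5]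
      exact this
    · have h6 : i + 1 = k := by omega
      have h7 : i = k - 1 := by omega
      have := h1 0 (by rw [List.length_cons]; omega)
      simp only [List.getElem_cons_zero, List.getElem_cons_succ, zero_add] at this
      simp only [h6, Nat.mod_self, Nat.mod_eq_of_lt hi]
      subst h7
      rw [h4]
      exact this
  · simp only [Nat.mod_self, Nat.zero_mod]
  · intro i j hi hj hij
    simp only [Nat.mod_eq_of_lt hi, Nat.mod_eq_of_lt hj] at hij
    exact (List.Nodup.getElem_inj_iff h2).1 hij

/-- inserting a vertex in a closed walk -/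
lemma CycL.insert {u : V} {L : List V} (h : CycL G u L) {M₁ M₂ : List V} {a b y : V}
    (hM : u :: L = M₁ ++ a :: b :: M₂) (hy : y ∉ L) (hay : G.Adj a y) (hyb : G.Adj y b) :
    ∃ L', CycL G u L' ∧ L'.length = L.length + 1 ∧ u :: L' = M₁ ++ a :: y :: b :: M₂ := by
  obtain ⟨h1, h2, h3⟩ := h
  rw [hM] at h1
  have hch : List.IsChain G.Adj (M₁ ++ a :: y :: b :: M₂) := by
    rw [List.isChain_append, List.isChain_cons_cons] at h1
    rw [List.isChain_append, List.isChain_cons_cons, List.isChain_cons_cons]
    exact ⟨h1.1, ⟨hay, hyb, h1.2.1.2⟩, by simpa using h1.2.2⟩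
  match M₁, hM, hch with
  | [], hM, hch =>
    simp only [List.nil_append, List.cons.injEq] at hM
    obtain ⟨rfl, rfl⟩ := hM
    refine ⟨y :: b :: M₂, ⟨hch, ?_, ?_⟩, by simp, rfl⟩
    · exact List.nodup_cons.2 ⟨hy, h2⟩
    · simpa using h3
  | c :: M, hM, hch =>
    simp only [List.cons_append, List.cons.injEq] at hM
    obtain ⟨rfl, rfl⟩ := hM
    refine ⟨M ++ a :: y :: b :: M₂, ⟨hch, ?_, ?_⟩, ?_, rfl⟩
    · have hp : (M ++ a :: y :: b :: M₂).Perm (y :: (M ++ a :: b :: M₂)) := by
        have e1 : M ++ a :: y :: b :: M₂ = (M ++ [a]) ++ y :: (b :: M₂) := by simp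
        have e2 : M ++ a :: b :: M₂ = (M ++ [a]) ++ (b :: M₂) := by simp
        rw [e1, e2]
        exact List.perm_middle
      rw [hp.nodup_iff]
      exact List.nodup_cons.2 ⟨hy, h2⟩
    · rw [← h3]
      simp [List.getLast?_append]
    · simp only [List.length_append, List.length_cons]
      omega

/-- a connected set without three independent vertices contains paths of all sizes -/
lemma exists_path (N : Finset V)
    (hα : ∀ a ∈ N, ∀ b ∈ N, ∀ c ∈ N, a ≠ b → a ≠ c → b ≠ c → G.Adj a b ∨ G.Adj a c ∨ G.Adj b c)
    (hconn : ∀ S ⊆ N, S.Nonempty → S ≠ N → ∃ x ∈ S, ∃ y ∈ N, y ∉ S ∧ G.Adj x y)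
    (m : ℕ) (hm : m + 1 ≤ N.card) :
    ∃ L : List V, L.Nodup ∧ L.length = m + 1 ∧ (∀ x ∈ L, x ∈ N) ∧ List.IsChain G.Adj L := by
  classical
  induction m with
  | zero =>
    obtain ⟨x, hx⟩ : N.Nonempty := Finset.card_pos.1 (by omega)
    exact ⟨[x], by simp, by simp, by simpa using hx, by simp⟩
  | succ m ih =>
    obtain ⟨L, hnd, hlen, hN, hch⟩ := ih (by omega)
    have hSsub : L.toFinset ⊆ N := by intro x hx; exact hN x (List.mem_toFinset.1 hx)
    have hScard : L.toFinset.card = m + 1 := by rw [List.toFinset_card_of_nodup hnd, hlen]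
    have hSne : L.toFinset ≠ N := by intro h; rw [h] at hScard; omega
    obtain ⟨p, L₁, rfl⟩ : ∃ p L₁, L = p :: L₁ := by
      match L, hlen with
      | p :: L₁, _ => exact ⟨p, L₁, rfl⟩
    obtain ⟨q, L₂, hq⟩ : ∃ q L₂, p :: L₁ = L₂ ++ [q] :=
      ⟨(p :: L₁).getLast (by simp), (p :: L₁).dropLast, (List.dropLast_append_getLast _).symm⟩
    -- can we extend at the ends?
    by_cases hp : ∃ x ∈ N, x ∉ (p :: L₁) ∧ G.Adj x p
    · obtain ⟨x, hx, hxL, hxp⟩ := hp
      exact ⟨x :: p :: L₁, List.nodup_cons.2 ⟨hxL, hnd⟩, by simp at hlen ⊢; omega,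
        by
          intro z hz
          rcases List.mem_cons.1 hz with rfl | hz
          · exact hx
          · exact hN z hz,
        List.isChain_cons_cons.2 ⟨hxp, hch⟩⟩
    by_cases hqx : ∃ x ∈ N, x ∉ (p :: L₁) ∧ G.Adj q x
    · obtain ⟨x, hx, hxL, hxq⟩ := hqx
      refine ⟨(p :: L₁) ++ [x], ?_, by simp at hlen ⊢; omega, ?_, ?_⟩
      · rw [List.nodup_append]
        refine ⟨hnd, by simp, ?_⟩
        intro a ha b hb
        rw [List.mem_singleton] at hb
        subst hb
        rintro rfl
        exact hxL ha
      · intro z hz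
        rcases List.mem_append.1 hz with hz | hz
        · exact hN z hz
        · rw [List.mem_singleton] at hz; subst hz; exact hx
      · refine List.IsChain.append hch (by simp) ?_
        intro a ha b hb
        rw [hq, List.getLast?_append_cons, List.getLast?_singleton, Option.mem_some_iff] at ha
        rw [List.head?_cons, Option.mem_some_iff] at hb
        subst ha; subst hb
        exact hxq
    push Not at hp hqx
    -- close up
    obtain ⟨s, hs, y, hyN, hyL, hsy⟩ := hconn _ hSsub ⟨p, by simp⟩ hSne
    rw [List.mem_toFinset] at hs hyL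
    have hpN : p ∈ N := hN p (by simp)
    have hqN : q ∈ N := hN q (by rw [hq]; simp)
    have hpq : p ≠ q := by
      rintro rfl
      -- then the list is a singleton
      have hL1 : L₁ = [] := by
        by_contra hne
        have h1 : (p :: L₁).getLast? = some p := by rw [hq]; simp
        rw [List.getLast?_cons_of_ne_nil hne] at h1
        exact (List.nodup_cons.1 hnd).1 (List.mem_of_getLast? h1)
      subst hL1
      rw [List.mem_singleton] at hs
      subst hs
      exact hp y hyN hyL hsy.symm
    have hpq' : G.Adj q p := by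
      have hyp : y ≠ p := by rintro rfl; exact hyL (by simp)
      have hyq : y ≠ q := by rintro rfl; exact hyL (by rw [hq]; simp)
      rcases hα y hyN p hpN q hqN hyp hyq hpq with h | h | h
      · exact absurd h (hp y hyN hyL)
      · exact absurd h.symm (hqx y hyN hyL)
      · exact h.symm
    obtain ⟨A, B, hAB⟩ := List.append_of_mem hs
    -- new path `y :: s :: B ++ A`
    refine ⟨y :: (s :: B ++ A), ?_, ?_, ?_, ?_⟩
    · have hperm : (s :: B ++ A).Perm (p :: L₁) := by
        rw [hAB]; exact List.perm_append_comm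
      rw [List.nodup_cons, hperm.mem_iff, hperm.nodup_iff]
      exact ⟨hyL, hnd⟩
    · have : (s :: B ++ A).length = (p :: L₁).length := by
        rw [hAB]; simp only [List.length_append, List.length_cons]; omega
      rw [List.length_cons, this, hlen]
    · intro z hz
      rcases List.mem_cons.1 hz with rfl | hz
      · exact hyN
      · apply hN; rw [hAB]
        rcases List.mem_append.1 hz with h | h
        · exact List.mem_append.2 (Or.inr h)
        · exact List.mem_append.2 (Or.inl h)
    · rw [hAB, List.isChain_append] at hch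
      rw [List.cons_append, List.isChain_cons_cons]
      refine ⟨hsy.symm, ?_⟩
      rw [← List.cons_append]
      refine List.IsChain.append hch.2.1 hch.1 ?_
      intro a ha b hb
      have h1 : a = q := by
        have h2 : (A ++ s :: B).getLast? = some q := by rw [← hAB, hq]; simp
        rw [List.getLast?_append_cons] at h2
        rw [Option.mem_def] at ha
        rw [ha] at h2
        exact Option.some.inj h2
      have h3 : b = p := by
        match A, hb, hAB with
        | c :: A', hb, hAB =>
          rw [List.head?_cons, Option.mem_some_iff] at hb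
          rw [List.cons_append, List.cons.injEq] at hAB
          rw [← hb, ← hAB.1]
      rw [h1, h3]
      exact hpq'

end Pool.Agent.H82.Cyc
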