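import Mathlib

/-!
# The Ramsey numbers `r(C_k, K_n)`
-/

set_option autoImplicit false

open SimpleGraph

namespace Pool.Agent.H82.Cyc

/-- every red/blue colouring of the edges of `K_N` (red graph `G`, blue graph `Gᶜ`) has a red
`C_k` or a blue `K_n` -/
def Arrow (k n N : ℕ) : Prop :=
  ∀ G : SimpleGraph (Fin N), cycleGraph k ⊑ G ∨ (⊤ : SimpleGraph (Fin n)) ⊑ Gᶜ

/-- the Ramsey number `r(C_k, K_n)` -/
noncomputable def ramseyCK (k n : ℕ) : ℕ := sInf {N | Arrow k n N}

end Pool.Agent.H82.Cyc
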