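import Pool.Agent.H82.Cyc.Sub
import Pool.Agent.H82.Cyc.Defs

/-!
# Lower bounds for the Ramsey numbers `r(C_k, K_n)`
-/

set_option autoImplicit false

open SimpleGraph

namespace Pool.Agent.H82.Cyc

/-- there is a graph on at least `N` vertices without `C_k` and without `a + 1` independent
vertices -/
def Bad (k a N : ℕ) : Prop :=
  ∃ (V : Type) (_ : Fintype V) (G : SimpleGraph V), N ≤ Fintype.card V ∧
    ¬ (cycleGraph k ⊑ G) ∧ ¬ ((⊤ : SimpleGraph (Fin (a + 1))) ⊑ Gᶜ)

lemma comap_compl {V W : Type*} (G : SimpleGraph V) (f : W ↪ V) :
    (G.comap f)ᶜ = (Gᶜ).comap f := by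
  ext a b
  simp only [compl_adj, comap_adj]
  constructor
  · rintro ⟨h1, h2⟩; exact ⟨fun h => h1 (f.injective h), h2⟩
  · rintro ⟨h1, h2⟩; exact ⟨fun h => h1 (h ▸ rfl), h2⟩

lemma comap_contained {V W : Type*} (G : SimpleGraph V) (f : W ↪ V) : G.comap f ⊑ G :=
  ⟨(SimpleGraph.Embedding.comap f G).toCopy⟩

lemma Bad.not_arrow {k a N : ℕ} (h : Bad k a N) : ¬ Arrow k (a + 1) N := by
  classical
  obtain ⟨V, _, G, hN, h1, h2⟩ := h
  intro hA
  have hc : Fintype.card (Fin N) ≤ Fintype.card V := by rwa [Fintype.card_fin]
  obtain ⟨f⟩ := Function.Embedding.nonempty_of_card_le hc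
  rcases hA (G.comap f) with h | h
  · exact h1 (h.trans (comap_contained G f))
  · rw [comap_compl] at h
    exact h2 (h.trans (comap_contained Gᶜ f))

/-- adding a disjoint clique on `k - 1` vertices -/
lemma sum_bad {V : Type} {k a : ℕ} (hk : 3 ≤ k) (G : SimpleGraph V)
    (h1 : ¬ (cycleGraph k ⊑ G)) (h2 : ¬ ((⊤ : SimpleGraph (Fin (a + 1))) ⊑ Gᶜ)) :
    ¬ (cycleGraph k ⊑ (G ⊕g (⊤ : SimpleGraph (Fin (k - 1))))) ∧
    ¬ ((⊤ : SimpleGraph (Fin (a + 1 + 1))) ⊑ (G ⊕g (⊤ : SimpleGraph (Fin (k - 1))))ᶜ) := by
  classical
  refine ⟨?_, ?_⟩
  · intro hc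
    obtain ⟨c, hadj, hper, hinj⟩ := cyc_seq hk hc
    have hside : ∀ i, (c i).isLeft = (c 0).isLeft := by
      intro i
      induction i with
      | zero => rfl
      | succ i ih =>
        rw [← ih]
        have := hadj i
        match hci : c i, hcj : c (i + 1) with
        | Sum.inl a, Sum.inl b => rfl
        | Sum.inr a, Sum.inr b => rfl
        | Sum.inl a, Sum.inr b => rw [hci, hcj] at this; simp at this
        | Sum.inr a, Sum.inl b => rw [hci, hcj] at this; simp at this
    by_cases h0 : (c 0).isLeft
    · have hl : ∀ i, ∃ v, c i = Sum.inl v := fun i => Sum.isLeft_iff.1 ((hside i).trans h0)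
      choose d hd using hl
      apply h1
      rw [cycleGraph_isContained_iff (by omega)]
      -- build the copy by hand
      have hcopy : cycleGraph k ⊑ G := by
        refine ⟨⟨⟨fun i => d i, ?_⟩, ?_⟩⟩
        · intro i j hij
          rw [cycleGraph_adj'] at hij
          have haux : ∀ i j : Fin k, (i - j).val = 1 → G.Adj (d j) (d i) := by
            intro i j h
            have hi := i.2
            have hj := j.2
            have h3 : (j.val + 1) % k = i.val := by
              have h4 : i = j + (i - j) := by
                have : NeZero k := ⟨by omega⟩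
                abel
              have h5 := congrArg Fin.val h4
              rw [Fin.val_add, h] at h5
              exact h5.symm
            have h6 := hadj j.val
            rw [hd, hd] at h6
            have h7 : c (j.val + 1) = c i.val := by
              rcases Nat.lt_or_ge (j.val + 1) k with h8 | h8
              · rw [Nat.mod_eq_of_lt h8] at h3; rw [h3]
              · have h9 : j.val + 1 = k := by omega
                rw [h9, Nat.mod_self] at h3
                rw [h9, ← h3, ← hper 0, zero_add]
            rw [hd, hd] at h7
            rw [Sum.inl.inj h7] at h6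
            exact h6
          rcases hij with h | h
          · exact (haux i j h).symm
          · exact haux j i h
        · intro i j hij
          have h3 : c i = c j := by rw [hd, hd]; exact congrArg Sum.inl hij
          have h4 := hinj _ _ h3
          rw [Nat.mod_eq_of_lt i.2, Nat.mod_eq_of_lt j.2] at h4
          exact Fin.ext h4
      exact (cycleGraph_isContained_iff (by omega)).1 hcopy
    · have hr : ∀ i, ∃ v, c i = Sum.inr v := by
        intro i
        match hci : c i with
        | Sum.inr v => exact ⟨v, rfl⟩
        | Sum.inl v =>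
          have := hside i
          rw [hci] at this
          exact absurd this.symm (by simpa using h0)
      choose d hd using hr
      have hinj' : Function.Injective (fun i : Fin k => d i) := by
        intro i j hij
        have h3 : c i = c j := by rw [hd, hd]; exact congrArg Sum.inr hij
        have h4 := hinj _ _ h3
        rw [Nat.mod_eq_of_lt i.2, Nat.mod_eq_of_lt j.2] at h4
        exact Fin.ext h4
      have := Fintype.card_le_of_injective _ hinj'
      rw [Fintype.card_fin, Fintype.card_fin] at this
      omega
  · rintro ⟨f⟩
    have hf : ∀ i j, i ≠ j → f i ≠ f j ∧ ¬ (G ⊕g (⊤ : SimpleGraph (Fin (k - 1)))).Adj (f i) (f j) := by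
      intro i j hij
      have h1 : (G ⊕g (⊤ : SimpleGraph (Fin (k - 1))))ᶜ.Adj (f i) (f j) :=
        f.toHom.map_adj (by simpa using hij)
      rw [compl_adj] at h1
      exact h1
    have honce : ∀ i j, (f i).isRight → (f j).isRight → i = j := by
      intro i j hi hj
      by_contra hij
      obtain ⟨h3, h4⟩ := hf i j hij
      match hfi : f i, hfj : f j with
      | Sum.inl a, _ => rw [hfi] at hi; simp at hi
      | Sum.inr a, Sum.inl b => rw [hfj] at hj; simp at hj
      | Sum.inr a, Sum.inr b =>
        rw [hfi, hfj] at h3 h4
        exact h4 (by rw [sum_adj_inr, top_adj]; exact fun h => h3 (by rw [h]))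
    obtain ⟨i₀, hi₀⟩ : ∃ i₀, ∀ i, i ≠ i₀ → (f i).isLeft := by
      by_cases hex : ∃ i, (f i).isRight
      · obtain ⟨i₀, hi₀⟩ := hex
        refine ⟨i₀, fun i hi => ?_⟩
        by_contra hc
        exact hi (honce i i₀ (by simpa using hc) hi₀)
      · push Not at hex
        exact ⟨0, fun i _ => by simpa using hex i⟩
    have hl : ∀ j : Fin (a + 1), ∃ v, f (i₀.succAbove j) = Sum.inl v := fun j =>
      Sum.isLeft_iff.1 (hi₀ _ (Fin.succAbove_ne i₀ j))
    choose g hg using hl
    apply h2
    have hginj : Function.Injective g := by
      intro i j hij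
      have h3 : f (i₀.succAbove i) = f (i₀.succAbove j) := by rw [hg, hg, hij]
      exact Fin.succAbove_right_injective (f.injective h3)
    refine ⟨⟨⟨g, ?_⟩, hginj⟩⟩
    intro i j hij
    rw [top_adj] at hij
    rw [compl_adj]
    refine ⟨fun h => hij (hginj h), fun h => ?_⟩
    have h3 := (hf (i₀.succAbove i) (i₀.succAbove j)
      (fun h => hij (Fin.succAbove_right_injective h))).2
    rw [hg, hg, sum_adj_inl] at h3
    exact h3 h

lemma Bad.succ {k a N : ℕ} (hk : 3 ≤ k) (h : Bad k a N) : Bad k (a + 1) (N + (k - 1)) := by
  classical
  obtain ⟨V, hV, G, hN, h1, h2⟩ := h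
  obtain ⟨h3, h4⟩ := sum_bad hk G h1 h2
  exact ⟨V ⊕ Fin (k - 1), inferInstance, G ⊕g ⊤, by
    rw [Fintype.card_sum, Fintype.card_fin]; omega, h3, h4⟩

lemma Bad.add {k a N : ℕ} (hk : 3 ≤ k) (h : Bad k a N) (t : ℕ) :
    Bad k (a + t) (N + t * (k - 1)) := by
  induction t with
  | zero => simpa using h
  | succ t ih =>
    have := ih.succ hk
    rw [show a + (t + 1) = a + t + 1 by ring,
      show N + (t + 1) * (k - 1) = N + t * (k - 1) + (k - 1) by ring]
    exact this

/-- a finite form of Ramsey's theorem -/
lemma ramsey_fin (s t : ℕ) : ∃ N : ℕ, ∀ (V : Type) [Fintype V] (G : SimpleGraph V),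
    N ≤ Fintype.card V →
      (∃ S : Finset V, S.card = s ∧ G.IsClique S) ∨ (∃ S : Finset V, S.card = t ∧ Gᶜ.IsClique S) := by
  classical
  induction s generalizing t with
  | zero => exact ⟨0, fun V _ G _ => Or.inl ⟨∅, by simp, by simp⟩⟩
  | succ s ihs =>
    induction t with
    | zero => exact ⟨0, fun V _ G _ => Or.inr ⟨∅, by simp, by simp⟩⟩
    | succ t iht =>
      obtain ⟨N₁, h₁⟩ := ihs (t + 1)
      obtain ⟨N₂, h₂⟩ := iht
      refine ⟨N₁ + N₂ + 1, fun V _ G hV => ?_⟩
      obtain ⟨v⟩ : Nonempty V := Fintype.card_pos_iff.1 (by omega)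
      -- neighbours and non-neighbours of `v`
      have hcard : Fintype.card {w // G.Adj v w} + Fintype.card {w // ¬ G.Adj v w} =
          Fintype.card V := by
        rw [Fintype.card_subtype_compl]
        have := Fintype.card_subtype_le (fun w => G.Adj v w)
        omega
      rcases Nat.lt_or_ge (Fintype.card {w // G.Adj v w}) N₁ with hlt | hge
      · -- many non-neighbours
        have hcard2 : Fintype.card {w // ¬ G.Adj v w} = Fintype.card {w // Gᶜ.Adj v w} + 1 := by
          have h1 : Fintype.card {w // ¬ G.Adj v w} =
              Fintype.card (Option {w // Gᶜ.Adj v w}) := by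
            refine Fintype.card_congr ?_
            refine
              { toFun := fun w => if h : w.1 = v then none else some ⟨w.1, by
                  rw [compl_adj]; exact ⟨fun h' => h h'.symm, w.2⟩⟩
                invFun := fun z => match z with
                  | none => ⟨v, G.loopless.irrefl v⟩
                  | some w => ⟨w.1, ((compl_adj G v w.1).1 w.2).2⟩
                left_inv := ?_
                right_inv := ?_ }
            · rintro ⟨w, hw⟩
              by_cases h : w = v
              · subst h; simp
              · simp [h]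
            · rintro (_ | ⟨w, hw⟩)
              · simp
              · have : w ≠ v := fun h => ((compl_adj G v w).1 hw).1 h.symm
                simp [this]
          rw [h1, Fintype.card_option]
        rcases h₂ {w // Gᶜ.Adj v w} (G.comap Subtype.val) (by omega) with ⟨S, hS, hcl⟩ | ⟨S, hS, hcl⟩
        · left
          refine ⟨S.map (Function.Embedding.subtype _), by rw [Finset.card_map, hS], ?_⟩
          intro a ha b hb hab
          simp only [Finset.coe_map, Function.Embedding.subtype_apply, Set.mem_image,
            SetLike.mem_coe] at ha hb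
          obtain ⟨a', ha', rfl⟩ := ha
          obtain ⟨b', hb', rfl⟩ := hb
          exact hcl ha' hb' (fun h => hab (by rw [h]))
        · right
          refine ⟨insert v (S.map (Function.Embedding.subtype _)), ?_, ?_⟩
          · rw [Finset.card_insert_of_notMem, Finset.card_map, hS]
            intro hv
            simp only [Finset.mem_map, Function.Embedding.subtype_apply] at hv
            obtain ⟨a, _, ha⟩ := hv
            have := ((compl_adj G v a.1).1 a.2).1
            exact this ha.symm
          · rw [Finset.coe_insert, isClique_insert]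
            refine ⟨?_, ?_⟩
            · intro a ha b hb hab
              simp only [Finset.coe_map, Function.Embedding.subtype_apply, Set.mem_image,
                SetLike.mem_coe] at ha hb
              obtain ⟨a', ha', rfl⟩ := ha
              obtain ⟨b', hb', rfl⟩ := hb
              have := hcl ha' hb' (fun h => hab (by rw [h]))
              rw [compl_adj] at this ⊢
              exact ⟨hab, this.2⟩
            · intro b hb _
              simp only [Finset.coe_map, Function.Embedding.subtype_apply, Set.mem_image,
                SetLike.mem_coe] at hb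
              obtain ⟨b', hb', rfl⟩ := hb
              exact b'.2
      · rcases h₁ {w // G.Adj v w} (G.comap Subtype.val) hge with ⟨S, hS, hcl⟩ | ⟨S, hS, hcl⟩
        · left
          refine ⟨insert v (S.map (Function.Embedding.subtype _)), ?_, ?_⟩
          · rw [Finset.card_insert_of_notMem, Finset.card_map, hS]
            intro hv
            simp only [Finset.mem_map, Function.Embedding.subtype_apply] at hv
            obtain ⟨a, _, ha⟩ := hv
            exact a.2.ne ha.symm
          · rw [Finset.coe_insert, isClique_insert]
            refine ⟨?_, ?_⟩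
            · intro a ha b hb hab
              simp only [Finset.coe_map, Function.Embedding.subtype_apply, Set.mem_image,
                SetLike.mem_coe] at ha hb
              obtain ⟨a', ha', rfl⟩ := ha
              obtain ⟨b', hb', rfl⟩ := hb
              exact hcl ha' hb' (fun h => hab (by rw [h]))
            · intro b hb _
              simp only [Finset.coe_map, Function.Embedding.subtype_apply, Set.mem_image,
                SetLike.mem_coe] at hb
              obtain ⟨b', hb', rfl⟩ := hb
              exact b'.2
        · right
          refine ⟨S.map (Function.Embedding.subtype _), by rw [Finset.card_map, hS], ?_⟩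
          intro a ha b hb hab
          simp only [Finset.coe_map, Function.Embedding.subtype_apply, Set.mem_image,
            SetLike.mem_coe] at ha hb
          obtain ⟨a', ha', rfl⟩ := ha
          obtain ⟨b', hb', rfl⟩ := hb
          have := hcl ha' hb' (fun h => hab (by rw [h]))
          rw [compl_adj] at this ⊢
          exact ⟨hab, this.2⟩

lemma top_contained_of_clique {V : Type} {G : SimpleGraph V} {S : Finset V} {n : ℕ}
    (hS : S.card = n) (hcl : G.IsClique S) : (⊤ : SimpleGraph (Fin n)) ⊑ G := by
  classical
  subst hS
  let e := S.equivFin.symm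
  refine ⟨⟨⟨fun i => (e i).1, ?_⟩, ?_⟩⟩
  · intro i j hij
    rw [top_adj] at hij
    exact hcl (e i).2 (e j).2 (fun h => hij (e.injective (Subtype.ext h)))
  · intro i j hij
    exact e.injective (Subtype.ext hij)

lemma arrow_exists (k n : ℕ) : ∃ N, Arrow k n N := by
  obtain ⟨N, hN⟩ := ramsey_fin k n
  refine ⟨N, fun G => ?_⟩
  rcases hN (Fin N) G (by simp) with ⟨S, hS, hcl⟩ | ⟨S, hS, hcl⟩
  · left
    exact (IsContained.of_le le_top).trans (top_contained_of_clique hS hcl)
  · right
    exact top_contained_of_clique hS hcl

lemma Arrow.mono {k n N N' : ℕ} (h : Arrow k n N) (hN : N ≤ N') : Arrow k n N' := by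
  intro G
  let f : Fin N ↪ Fin N' := Fin.castLEEmb hN
  rcases h (G.comap f) with h | h
  · exact Or.inl (h.trans (comap_contained G f))
  · rw [comap_compl] at h
    exact Or.inr (h.trans (comap_contained Gᶜ f))

lemma lt_ramseyCK {k n N : ℕ} (h : ¬ Arrow k n N) : N < ramseyCK k n := by
  by_contra hlt
  push Not at hlt
  have : Arrow k n (ramseyCK k n) := Nat.sInf_mem (arrow_exists k n)
  exact h (this.mono hlt)

end Pool.Agent.H82.Cyc
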