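import Mathlib

/-!
# Words in a quaternion order over a function field

`K` is a field with an involution `σ`.  A pair `(α, β)` of polynomials over `K` stands for the
element `α + jβ` of the skew polynomial ring `K[j; σ]` with `j² = X`; the letters are `1 + jγ` with
`γ σ(γ) = -1`, of norm `1 + X`.
-/

set_option autoImplicit false

open Polynomial

namespace Pool.Agent.H82.Cyc

variable {K : Type*} [Field K] (σ : K →+* K)

/-- `(α, β) ↦ (α + jβ)(1 + jγ)` -/
noncomputable def stp (w : K[X] × K[X]) (γ : K) : K[X] × K[X] :=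
  (w.1 + X * (w.2.map σ) * C γ, w.2 + (w.1.map σ) * C γ)

/-- the product of the first `n` letters `1 + jδ₀, 1 + jδ₁, …` -/
noncomputable def word (δ : ℕ → K) : ℕ → K[X] × K[X]
  | 0 => (1, 0)
  | n + 1 => stp σ (word δ n) (δ n)

lemma word_zero (δ : ℕ → K) : word σ δ 0 = (1, 0) := rfl

lemma word_succ_fst (δ : ℕ → K) (n : ℕ) :
    (word σ δ (n + 1)).1 = (word σ δ n).1 + X * ((word σ δ n).2.map σ) * C (δ n) := rfl

lemma word_succ_snd (δ : ℕ → K) (n : ℕ) :
    (word σ δ (n + 1)).2 = (word σ δ n).2 + ((word σ δ n).1.map σ) * C (δ n) := rfl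

lemma word_coeff_zero (δ : ℕ → K) (n : ℕ) : (word σ δ n).1.coeff 0 = 1 := by
  induction n with
  | zero => simp [word_zero]
  | succ n ih => rw [word_succ_fst, mul_assoc, coeff_add, ih, coeff_X_mul_zero, add_zero]

lemma word_degree (δ : ℕ → K) (n : ℕ) :
    (word σ δ n).1.natDegree ≤ n / 2 ∧ (word σ δ n).2.natDegree ≤ (n - 1) / 2 := by
  induction n with
  | zero => simp [word_zero]
  | succ n ih =>
    obtain ⟨h1, h2⟩ := ih
    have hC : ∀ (p : K[X]) (c : K), (p * C c).natDegree ≤ p.natDegree := fun p c =>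
      (natDegree_mul_le).trans (by simp)
    have hm : ∀ p : K[X], (p.map σ).natDegree ≤ p.natDegree := fun p => natDegree_map_le
    constructor
    · rw [word_succ_fst]
      rcases Nat.eq_zero_or_pos n with rfl | hn
      · simp [word_zero]
      · refine (natDegree_add_le _ _).trans (max_le (h1.trans (by omega)) ?_)
        refine (hC _ _).trans ((natDegree_mul_le).trans ?_)
        rw [natDegree_X]
        have := hm (word σ δ n).2
        omega
    · rw [word_succ_snd]
      refine (natDegree_add_le _ _).trans (max_le (h2.trans (by omega)) ?_)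
      refine (hC _ _).trans ((hm _).trans (h1.trans (by omega)))

lemma word_norm (hσ : ∀ x, σ (σ x) = x) (δ : ℕ → K) (n : ℕ) (hδ : ∀ i < n, δ i * σ (δ i) = -1) :
    (word σ δ n).1 * (word σ δ n).1.map σ - X * (word σ δ n).2 * (word σ δ n).2.map σ =
      (1 + X) ^ n := by
  have hmm : ∀ p : K[X], (p.map σ).map σ = p := by
    intro p
    rw [Polynomial.map_map]
    have : σ.comp σ = RingHom.id K := by ext x; simp [hσ]
    rw [this, Polynomial.map_id]
  induction n with
  | zero => simp [word_zero]
  | succ n ih =>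
    have ih' := ih (fun i hi => hδ i (by omega))
    have hn := hδ n (by omega)
    rw [word_succ_fst, word_succ_snd]
    simp only [Polynomial.map_add, Polynomial.map_mul, Polynomial.map_X, Polynomial.map_C, hmm]
    set a := (word σ δ n).1
    set b := (word σ δ n).2
    set a' := a.map σ
    set b' := b.map σ
    have hc : C (δ n) * C (σ (δ n)) = (-1 : K[X]) := by
      rw [← C_mul, hn]; simp
    rw [pow_succ, ← ih']
    linear_combination (X * a * a' * (-1) + X ^ 2 * b * b') * hc

/-- at `X = -1` a reduced word is `κ (1 + jδ)` with `κ ≠ 0` and `δ` its last letter -/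
lemma word_eval (hσ : ∀ x, σ (σ x) = x) (δ : ℕ → K) (n : ℕ)
    (hδ : ∀ i < n + 1, δ i * σ (δ i) = -1) (hr : ∀ i < n, δ (i + 1) ≠ -δ i) :
    (word σ δ (n + 1)).1.eval (-1) ≠ 0 ∧
      (word σ δ (n + 1)).2.eval (-1) = σ ((word σ δ (n + 1)).1.eval (-1)) * δ n := by
  have hev : ∀ p : K[X], (p.map σ).eval (-1) = σ (p.eval (-1)) := by
    intro p
    have : (-1 : K) = σ (-1) := by simp
    conv_lhs => rw [this]
    rw [Polynomial.eval_map, Polynomial.eval₂_hom]
  induction n with
  | zero =>
    rw [word_succ_fst, word_succ_snd]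
    simp [word_zero]
  | succ n ih =>
    obtain ⟨h1, h2⟩ := ih (fun i hi => hδ i (by omega)) (fun i hi => hr i (by omega))
    have hn := hδ n (by omega)
    have hn1 := hδ (n + 1) (by omega)
    have hne := hr n (by omega)
    rw [word_succ_fst σ δ (n + 1), word_succ_snd σ δ (n + 1)]
    simp only [eval_add, eval_mul, eval_X, eval_C, hev]
    set a := (word σ δ (n + 1)).1.eval (-1)
    rw [h2]
    simp only [map_mul, map_add, hσ]
    have hδn : δ n ≠ 0 := by
      intro h0; rw [h0] at hn; simp at hn
    have hsn : σ (δ n) = -(δ n)⁻¹ := by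
      field_simp
      linear_combination hn
    constructor
    · rw [hsn]
      intro h0
      have : a * (δ n + δ (n + 1)) = 0 := by
        have : a + -1 * (a * -(δ n)⁻¹) * δ (n + 1) = a * (δ n + δ (n+1)) * (δ n)⁻¹ := by
          field_simp
        rw [this] at h0
        rcases mul_eq_zero.1 h0 with h | h
        · exact h
        · exact absurd (inv_eq_zero.1 h) hδn
      rcases mul_eq_zero.1 this with h | h
      · exact h1 h
      · exact hne (by linear_combination h)
    · simp only [map_neg, map_one]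
      linear_combination (σ a * δ n) * hn1

/-- **No short relations.**  A reduced word of even length `2r`, `1 ≤ r < 2m`, is not a scalar
modulo `X^m`. -/
theorem no_relation (hσ : ∀ x, σ (σ x) = x) (h2 : (2 : K) ≠ 0) (m r : ℕ) (hr0 : 1 ≤ r)
    (hrm : r < 2 * m) (δ : ℕ → K) (hδ : ∀ i < 2 * r, δ i * σ (δ i) = -1)
    (hred : ∀ i, i + 1 < 2 * r → δ (i + 1) ≠ -δ i)
    (hβ : X ^ m ∣ (word σ δ (2 * r)).2)
    (hα : X ^ m ∣ (word σ δ (2 * r)).1 - (word σ δ (2 * r)).1.map σ) : False := by
  have hmm : ∀ p : K[X], (p.map σ).map σ = p := by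
    intro p
    rw [Polynomial.map_map]
    have : σ.comp σ = RingHom.id K := by ext x; simp [hσ]
    rw [this, Polynomial.map_id]
  have hN := word_norm σ hσ δ (2 * r) hδ
  obtain ⟨hd1, hd2⟩ := word_degree σ δ (2 * r)
  have hc := word_coeff_zero σ δ (2 * r)
  have hev := word_eval σ hσ δ (2 * r - 1) (fun i hi => hδ i (by omega))
    (fun i hi => hred i (by omega))
  rw [show 2 * r - 1 + 1 = 2 * r by omega] at hev
  set α := (word σ δ (2 * r)).1 with hαdef
  set β := (word σ δ (2 * r)).2 with hβdef
  -- the scalar part and the trace zero part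
  have h2' : (C (2 : K)) = (2 : K[X]) := map_ofNat C 2
  set a : K[X] := C (2⁻¹) * (α + α.map σ) with ha
  set b : K[X] := C (2⁻¹) * (α - α.map σ) with hb
  have h22 : (C (2⁻¹ : K)) * 2 = (1 : K[X]) := by
    rw [← h2', ← C_mul, inv_mul_cancel₀ h2, C_1]
  have hab : α = a + b := by
    rw [ha, hb]
    linear_combination (-α) * h22
  have hab' : α.map σ = a - b := by
    rw [ha, hb]
    linear_combination (-α.map σ) * h22
  have hbm : X ^ m ∣ b := Dvd.dvd.mul_left hα _
  have hβσ : X ^ m ∣ β.map σ := by
    have := Polynomial.map_dvd σ hβ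
    rwa [Polynomial.map_pow, Polynomial.map_X] at this
  -- a² ≡ (1+X)^(2r) mod X^(2m)
  have key : (a - (1 + X) ^ r) * (a + (1 + X) ^ r) = b * b + X * (β * β.map σ) := by
    have : (1 + X : K[X]) ^ (2 * r) = (1 + X) ^ r * (1 + X) ^ r := by rw [two_mul, pow_add]
    rw [this, hab', hab] at hN
    linear_combination hN
  have hdiv : X ^ (2 * m) ∣ (a - (1 + X) ^ r) * (a + (1 + X) ^ r) := by
    rw [key, two_mul, pow_add]
    exact dvd_add (mul_dvd_mul hbm hbm) (Dvd.dvd.mul_left (mul_dvd_mul hβ hβσ) _)
  have ha0 : a.coeff 0 = 1 := by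
    rw [ha, coeff_C_mul, coeff_add, coeff_map, hc, map_one]
    rw [show (1 : K) + 1 = 2 by norm_num, inv_mul_cancel₀ h2]
  have hcop : IsCoprime (X ^ (2 * m) : K[X]) (a + (1 + X) ^ r) := by
    apply IsCoprime.pow_left
    rw [Polynomial.prime_X.coprime_iff_not_dvd, X_dvd_iff]
    rw [coeff_add, ha0]
    have : ((1 + X : K[X]) ^ r).coeff 0 = 1 := by
      rw [coeff_zero_eq_eval_zero]; simp
    rw [this, show (1 : K) + 1 = 2 by norm_num]
    exact h2
  have hdiv2 : X ^ (2 * m) ∣ a - (1 + X) ^ r := hcop.dvd_of_dvd_mul_right hdiv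
  have hdega : (a - (1 + X) ^ r).natDegree ≤ r := by
    refine (natDegree_sub_le _ _).trans (max_le ?_ ?_)
    · rw [ha]
      refine (natDegree_C_mul_le _ _).trans ((natDegree_add_le _ _).trans (max_le ?_ ?_))
      · omega
      · exact natDegree_map_le.trans (by omega)
    · refine (natDegree_pow_le).trans ?_
      have : (1 + X : K[X]).natDegree ≤ 1 := by
        refine (natDegree_add_le _ _).trans (by simp)
      calc r * (1 + X : K[X]).natDegree ≤ r * 1 := Nat.mul_le_mul_left _ this
        _ = r := mul_one r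
  have haeq : a = (1 + X) ^ r := by
    by_contra hne
    have hne' : a - (1 + X) ^ r ≠ 0 := sub_ne_zero.2 hne
    have := natDegree_le_of_dvd hdiv2 hne'
    rw [natDegree_X_pow] at this
    omega
  -- then b² = - X β σβ, hence b = 0 by parity of the degree
  have hbb : b * b = -(X * (β * β.map σ)) := by
    rw [haeq] at key
    linear_combination -key
  have hb0 : b = 0 := by
    by_contra hbne
    have hβne : β ≠ 0 := by
      rintro h0
      rw [h0] at hbb
      simp at hbb
      exact hbne hbb
    have hβσne : β.map σ ≠ 0 := (Polynomial.map_ne_zero_iff σ.injective).2 hβne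
    have h1 : (b * b).natDegree = 2 * b.natDegree := by
      rw [natDegree_mul hbne hbne]; ring
    have h3 : (-(X * (β * β.map σ))).natDegree = 1 + 2 * β.natDegree := by
      rw [natDegree_neg, natDegree_mul X_ne_zero (mul_ne_zero hβne hβσne), natDegree_X,
        natDegree_mul hβne hβσne, natDegree_map]
      ring
    rw [hbb, h3] at h1
    omega
  -- so α vanishes at -1
  apply hev.1
  rw [hab, haeq, hb0]
  simp
  omega

end Pool.Agent.H82.Cyc
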