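import Pool.Agent.H82.Cyc.Main

/-!
# The asymptotic form
-/

set_option autoImplicit false

open Filter Real

namespace Pool.Agent.H82.Cyc

theorem numeric_low (ε : ℝ) (hε : 0 < ε) : ∃ n₀ : ℕ, ∀ n : ℕ, n₀ ≤ n → ∀ k : ℕ, 3 ≤ k →
    (k : ℝ) ≤ (4 / 3 - ε) * Real.log n / Real.log (Real.log n) →
    (2 * k) ^ (3 * (k / 4 + 1)) < n := by
  -- `L = log n`, `ℓ = log L`
  have hL : Tendsto (fun n : ℕ => Real.log n) atTop atTop :=
    Real.tendsto_log_atTop.comp tendsto_natCast_atTop_atTop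
  have hl : Tendsto (fun n : ℕ => Real.log (Real.log n)) atTop atTop :=
    Real.tendsto_log_atTop.comp hL
  have hlittle : Tendsto (fun x : ℝ => Real.log x / x) atTop (nhds 0) := by
    have := Real.isLittleO_log_id_atTop.tendsto_div_nhds_zero
    simpa using this
  have hlL : Tendsto (fun n : ℕ => Real.log (Real.log n) / Real.log n) atTop (nhds 0) :=
    hlittle.comp hL
  set δ : ℝ := min (3 * ε / 8) (1 / 2) with hδ
  have hδ0 : 0 < δ := lt_min (by positivity) (by norm_num)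
  have hδ1 : δ ≤ 3 * ε / 8 := min_le_left _ _
  have hδ2 : δ ≤ 1 / 2 := min_le_right _ _
  have e1 : ∀ᶠ n : ℕ in atTop, Real.log (Real.log n) / Real.log n < δ / 3 :=
    hlL.eventually (gt_mem_nhds (by positivity))
  have e2 : ∀ᶠ n : ℕ in atTop, 8 / 3 ≤ Real.log (Real.log n) := hl.eventually_ge_atTop _
  have e3 : ∀ᶠ n : ℕ in atTop, max 1 (1 / δ) ≤ Real.log n := hL.eventually_ge_atTop _
  obtain ⟨n₀, hn₀⟩ := (e1.and (e2.and e3)).exists_forall_of_atTop
  refine ⟨n₀, fun n hn k hk hkn => ?_⟩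
  obtain ⟨h1, h2, h3⟩ := hn₀ n hn
  set L := Real.log n with hLdef
  set l := Real.log L with hldef
  have hL1 : 1 ≤ L := (le_max_left _ _).trans h3
  have hLδ : 1 / δ ≤ L := (le_max_right _ _).trans h3
  have hL0 : 0 < L := by linarith
  have hl0 : 0 < l := by linarith
  have hn0 : (0 : ℝ) < n := by
    rcases Nat.eq_zero_or_pos n with h | h
    · rw [h] at hLdef
      simp at hLdef
      linarith
    · exact_mod_cast h
  have hk0 : (3 : ℝ) ≤ k := by exact_mod_cast hk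
  -- compare logarithms
  have hlL' : 3 * l ≤ δ * L := by
    rw [div_lt_iff₀ hL0] at h1
    linarith
  have hkl : (k : ℝ) * l ≤ (4 / 3 - ε) * L := by
    rwa [le_div_iff₀ hl0] at hkn
  have hk2 : Real.log (2 * k) ≤ l := by
    have hkL : (k : ℝ) ≤ 4 / 3 * L / l := by
      rw [le_div_iff₀ hl0]
      nlinarith
    have h4 : 2 * (k : ℝ) ≤ L := by
      have : 4 / 3 * L / l ≤ L / 2 := by
        rw [div_le_iff₀ hl0]
        nlinarith
      linarith
    exact Real.log_le_log (by linarith) h4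
  have hk20 : 0 ≤ Real.log (2 * k) := Real.log_nonneg (by linarith)
  have hexp : ((3 * (k / 4 + 1) : ℕ) : ℝ) ≤ 3 / 4 * k + 3 := by
    have : ((k / 4 : ℕ) : ℝ) ≤ (k : ℝ) / 4 := by
      exact_mod_cast (Nat.cast_div_le (α := ℝ) (m := k) (n := 4))
    push_cast
    linarith
  have hlog : Real.log (((2 * k) ^ (3 * (k / 4 + 1)) : ℕ) : ℝ) ≤ (1 - δ) * L := by
    have h5 : Real.log (((2 * k) ^ (3 * (k / 4 + 1)) : ℕ) : ℝ) =
        ((3 * (k / 4 + 1) : ℕ) : ℝ) * Real.log (2 * k) := by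
      rw [Nat.cast_pow, Real.log_pow]
      push_cast
      ring
    rw [h5]
    calc ((3 * (k / 4 + 1) : ℕ) : ℝ) * Real.log (2 * k)
        ≤ (3 / 4 * k + 3) * Real.log (2 * k) := mul_le_mul_of_nonneg_right hexp hk20
      _ ≤ (3 / 4 * k + 3) * l := mul_le_mul_of_nonneg_left hk2 (by positivity)
      _ = 3 / 4 * (k * l) + 3 * l := by ring
      _ ≤ 3 / 4 * ((4 / 3 - ε) * L) + δ * L := by
          have := hkl
          nlinarith
      _ ≤ (1 - δ) * L := by nlinarith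
  have hpos : (0 : ℝ) < (((2 * k) ^ (3 * (k / 4 + 1)) : ℕ) : ℝ) := by
    have : 0 < (2 * k) ^ (3 * (k / 4 + 1)) := Nat.pow_pos (by omega)
    exact_mod_cast this
  have hlt : (((2 * k) ^ (3 * (k / 4 + 1)) : ℕ) : ℝ) < n := by
    rw [← Real.log_lt_log_iff hpos hn0]
    have : (1 - δ) * L < L := by nlinarith
    linarith
  exact_mod_cast hlt

theorem asym (ε : ℝ) (hε : 0 < ε) : ∃ n₀ : ℕ, ∀ n : ℕ, n₀ ≤ n → ∀ k : ℕ, 3 ≤ k →
    (k : ℝ) ≤ (4 / 3 - ε) * Real.log n / Real.log (Real.log n) →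
    (k - 1) * (n - 1) + 1 < ramseyCK k n := by
  obtain ⟨n₀, h⟩ := numeric_low ε hε
  exact ⟨n₀, fun n hn k hk hkn => explicit k n hk (h n hn k hk hkn)⟩

end Pool.Agent.H82.Cyc
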