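import Pool.Agent.H82.Cyc.Defs

/-!
# The Ramsey numbers of cycles versus cliques in the class of claw-free graphs
-/

set_option autoImplicit false

open SimpleGraph

namespace Pool.Agent.H82.Cyc

/-- no vertex has three pairwise non-adjacent neighbours -/
def ClawFree {V : Type*} (G : SimpleGraph V) : Prop :=
  ∀ v a b c, G.Adj v a → G.Adj v b → G.Adj v c → a ≠ b → a ≠ c → b ≠ c →
    G.Adj a b ∨ G.Adj a c ∨ G.Adj b c

/-- every claw-free graph on `N` vertices contains `C_k`, or its complement contains `K_n` -/
def ArrowCF (k n N : ℕ) : Prop :=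
  ∀ G : SimpleGraph (Fin N), ClawFree G → cycleGraph k ⊑ G ∨ (⊤ : SimpleGraph (Fin n)) ⊑ Gᶜ

/-- the claw-free Ramsey number: the least `N` such that every claw-free graph on `N` vertices
contains `C_k` or `n` independent vertices -/
noncomputable def ramseyCF (k n : ℕ) : ℕ := sInf {N | ArrowCF k n N}

open Classical in
/-- `H` has maximum degree at most `d`, more than `d · ⌊m/2⌋` edges (`m` its number of vertices,
which is odd), and all its cycles are longer than `k`; with `d = k - 1` -/
def Overfull (k M : ℕ) : Prop :=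
  ∃ H : SimpleGraph (Fin (2 * M + 1)), (∀ v, H.degree v ≤ k - 1) ∧
    (k - 1) * M + 1 ≤ H.edgeFinset.card ∧
    ∀ (v : Fin (2 * M + 1)) (w : H.Walk v v), w.IsCycle → k < w.length

end Pool.Agent.H82.Cyc
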