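import Pool.Agent.H82.Cyc.Red
import Pool.Agent.H82.Cyc.Asym

/-!
# The claw-free Ramsey numbers of cycles versus cliques
-/

set_option autoImplicit false
set_option linter.unusedSectionVars false

open SimpleGraph Finset Filter

namespace Pool.Agent.H82.Cyc

/-- overfull graphs from arbitrary vertex types -/
lemma overfull_of {W : Type} [Fintype W] (H : SimpleGraph W) {k M : ℕ} (hk : 3 ≤ k)
    (hW : Fintype.card W = 2 * M + 1)
    (hdeg : ∀ (v : W) (f : Fin k → W), Function.Injective f → ¬ ∀ i, H.Adj v (f i))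
    (hg : LargeGirth H k) (hE : (k - 1) * M + 1 ≤ Nat.card H.edgeSet) : Overfull k M := by
  classical
  let e : W ≃ Fin (2 * M + 1) := Fintype.equivFinOfCardEq hW
  let H' : SimpleGraph (Fin (2 * M + 1)) := H.comap e.symm
  let iso : H' ≃g H := Iso.comap e.symm H
  refine ⟨H', ?_, ?_, ?_⟩
  · intro v
    by_contra hlt
    push Not at hlt
    rw [← card_neighborFinset_eq_degree] at hlt
    have hlt' := Nat.succ_le_of_lt hlt
    rw [Nat.succ_eq_add_one, Nat.sub_add_cancel (by omega)] at hlt'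
    obtain ⟨T, hT, hTc⟩ := Finset.exists_subset_card_eq hlt'
    let g := (Finset.equivFinOfCardEq hTc).symm
    refine hdeg (e.symm v) (fun i => e.symm (g i).1) ?_ ?_
    · intro i j hij
      exact g.injective (Subtype.ext (e.symm.injective hij))
    · intro i
      have := hT (g i).2
      rw [mem_neighborFinset] at this
      exact this
  · have h2 : Nat.card H.edgeSet = Nat.card H'.edgeSet := (Nat.card_congr iso.mapEdgeSet).symm
    rw [h2, Nat.card_eq_fintype_card, ← edgeFinset_card] at hE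
    exact hE
  · intro v w hw
    have h1 : (w.map iso.toHom).IsCycle := hw.map iso.injective
    have h2 : ∀ (u : W) (c : H.Walk u u), c.IsCycle → k < c.length := by
      intro u c hc
      match c, hc with
      | Walk.nil, hc => exact absurd hc Walk.not_isCycle_nil
      | Walk.cons (v := x) hadj q, hc =>
        rw [Walk.cons_isCycle_iff] at hc
        have h3 : ∀ f ∈ q.edges, f ∉ ({s(u, x)} : Set (Sym2 W)) := by
          intro f hf hf'
          rw [Set.mem_singleton_iff] at hf'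
          rw [hf'] at hf
          exact hc.2 hf
        have h4 := hg _ _ hadj (q.toDeleteEdges _ h3)
        rw [Walk.length_cons]
        have h5 : (q.toDeleteEdges _ h3).length = q.length := by simp
        omega
    have := h2 _ _ h1
    rwa [Walk.length_map] at this

/-- overfull graphs of large girth exist -/
theorem overfull_exists (k : ℕ) (hk : 3 ≤ k) :
    ∃ M, M ≤ (2 * k) ^ (3 * (k / 4 + 1)) ∧ Overfull k M := by
  obtain ⟨p, hp, hkp, hp2⟩ := Nat.exists_prime_lt_and_le_two_mul k (by omega)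
  have : Fact p.Prime := ⟨hp⟩
  obtain ⟨M, hM, W, _, H, hW, hdeg, hg, hE⟩ :=
    graph_main p k (k / 4 + 1) (by omega) hk (by omega) (by omega) (by omega)
  exact ⟨M, hM.trans (Nat.pow_le_pow_left hp2 _), overfull_of H hk hW hdeg hg hE⟩

/-- from overfull graphs to claw-free graphs -/
lemma Overfull.badCF {k M : ℕ} (hk : 3 ≤ k) (h : Overfull k M) : BadCF k M ((k - 1) * M + 1) := by
  classical
  obtain ⟨H, h1, h2, h3⟩ := h
  refine ⟨H.edgeSet, inferInstance, H.lineGraph, ?_, lineGraph_clawFree H, ?_, ?_⟩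
  · rw [← edgeFinset_card]; exact h2
  · refine lineGraph_no_cycle _ k hk ?_ (largeGirth_of_cycles h3)
    intro v f hf hadj
    have h4 : (Finset.univ : Finset (Fin k)).card ≤ (H.neighborFinset v).card :=
      Finset.card_le_card_of_injOn f (fun i _ => by
        rw [Finset.mem_coe, mem_neighborFinset]; exact hadj i) hf.injOn
    rw [Finset.card_univ, Fintype.card_fin, card_neighborFinset_eq_degree] at h4
    have := h1 v
    omega
  · exact lineGraph_indep H M (by simp)

lemma BadCF.succ {k a N : ℕ} (hk : 3 ≤ k) (h : BadCF k a N) : BadCF k (a + 1) (N + (k - 1)) := by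
  classical
  obtain ⟨V, hV, G, hN, hcl, h1, h2⟩ := h
  obtain ⟨h3, h4⟩ := sum_bad (k := k) (a := a) hk G h1 h2
  exact ⟨V ⊕ Fin (k - 1), inferInstance, G ⊕g ⊤, by
    rw [Fintype.card_sum, Fintype.card_fin]; omega, sum_clawFree hcl top_clawFree, h3, h4⟩

lemma BadCF.add {k a N : ℕ} (hk : 3 ≤ k) (h : BadCF k a N) (t : ℕ) :
    BadCF k (a + t) (N + t * (k - 1)) := by
  induction t with
  | zero => simpa using h
  | succ t ih =>
    have := ih.succ hk
    rw [show a + (t + 1) = a + t + 1 by ring,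
      show N + (t + 1) * (k - 1) = N + t * (k - 1) + (k - 1) by ring]
    exact this

lemma BadCF.zero {k : ℕ} (hk : 3 ≤ k) : BadCF k 0 0 := by
  refine ⟨Fin 0, inferInstance, ⊥, by simp, fun v => v.elim0, ?_, ?_⟩
  · rintro ⟨f⟩
    exact (f ⟨0, by omega⟩).elim0
  · rintro ⟨f⟩
    exact (f ⟨0, by omega⟩).elim0

lemma BadCF.not_arrow {k a N : ℕ} (h : BadCF k a N) : ¬ ArrowCF k (a + 1) N := by
  classical
  obtain ⟨V, _, G, hN, hcl, h1, h2⟩ := h
  intro hA
  have hc : Fintype.card (Fin N) ≤ Fintype.card V := by rwa [Fintype.card_fin]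
  obtain ⟨f⟩ := Function.Embedding.nonempty_of_card_le hc
  rcases hA (G.comap f) (hcl.comap f) with h | h
  · exact h1 (h.trans (comap_contained G f))
  · rw [comap_compl] at h
    exact h2 (h.trans (comap_contained Gᶜ f))

lemma ArrowCF.mono {k n N N' : ℕ} (h : ArrowCF k n N) (hN : N ≤ N') : ArrowCF k n N' := by
  intro G hG
  let f : Fin N ↪ Fin N' := Fin.castLEEmb hN
  rcases h (G.comap f) (hG.comap f) with h | h
  · exact Or.inl (h.trans (comap_contained G f))
  · rw [comap_compl] at h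
    exact Or.inr (h.trans (comap_contained Gᶜ f))

lemma arrowCF_exists (k n : ℕ) : ∃ N, ArrowCF k n N := by
  obtain ⟨N, hN⟩ := arrow_exists k n
  exact ⟨N, fun G _ => hN G⟩

lemma lt_ramseyCF {k n N : ℕ} (h : ¬ ArrowCF k n N) : N < ramseyCF k n := by
  by_contra hlt
  push Not at hlt
  have : ArrowCF k n (ramseyCF k n) := Nat.sInf_mem (arrowCF_exists k n)
  exact h (this.mono hlt)

/-- the trivial lower bound -/
lemma le_ramseyCF (k n : ℕ) (hk : 3 ≤ k) (hn : 1 ≤ n) : (k - 1) * (n - 1) + 1 ≤ ramseyCF k n := by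
  have h := ((BadCF.zero hk).add hk (n - 1)).not_arrow
  rw [Nat.zero_add, Nat.zero_add, Nat.sub_add_cancel hn, mul_comm] at h
  exact lt_ramseyCF h

/-- an overfull graph gives a large claw-free Ramsey number -/
lemma Overfull.lt_ramseyCF {k M n : ℕ} (hk : 3 ≤ k) (h : Overfull k M) (hM : M < n) :
    (k - 1) * (n - 1) + 1 < ramseyCF k n := by
  obtain ⟨t, rfl⟩ : ∃ t, n = M + t + 1 := ⟨n - M - 1, by omega⟩
  have h2 := ((h.badCF hk).add hk t).not_arrow
  have h3 := Pool.Agent.H82.Cyc.lt_ramseyCF h2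
  rw [show (k - 1) * (M + t + 1 - 1) + 1 = (k - 1) * M + 1 + t * (k - 1) by
    rw [Nat.add_sub_cancel]; ring]
  exact h3

/-- without overfull graphs the claw-free Ramsey number has the trivial value -/
lemma arrowCF_of_no_overfull {k n : ℕ} (hk : 3 ≤ k) (h : ∀ M < n, ¬ Overfull k M) :
    ArrowCF k n ((k - 1) * (n - 1) + 1) := by
  classical
  intro G hG
  by_contra hno
  obtain ⟨h1, h2⟩ := not_or.1 hno
  obtain ⟨W, _, _, G', a, ha, hcrit⟩ := exists_crit hk hG h1 (ind_of_contained h2) (by simp)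
  exact h a ha hcrit.overfull

/-- **the exact criterion** -/
theorem cf_iff (k n : ℕ) (hk : 3 ≤ k) (hn : 1 ≤ n) :
    ramseyCF k n = (k - 1) * (n - 1) + 1 ↔ ∀ M < n, ¬ Overfull k M := by
  constructor
  · intro h M hM hO
    have := hO.lt_ramseyCF hk hM
    omega
  · intro h
    exact le_antisymm (Nat.sInf_le (arrowCF_of_no_overfull hk h)) (le_ramseyCF k n hk hn)

theorem cf_small (k n : ℕ) (hk : 3 ≤ k) (hn : 1 ≤ n) (h : 2 * (n - 1) < (k - 2) ^ (k / 2)) :
    ramseyCF k n = (k - 1) * (n - 1) + 1 := by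
  rw [cf_iff k n hk hn]
  intro M hM hO
  have := hO.moore hk
  omega

theorem cf_large (k n : ℕ) (hk : 3 ≤ k) (h : (2 * k) ^ (3 * (k / 4 + 1)) < n) :
    (k - 1) * (n - 1) + 1 < ramseyCF k n := by
  obtain ⟨M, hM, hO⟩ := overfull_exists k hk
  exact hO.lt_ramseyCF hk (by omega)

theorem numeric_high (ε : ℝ) (hε : 0 < ε) : ∃ n₀ : ℕ, ∀ n : ℕ, n₀ ≤ n → ∀ k : ℕ, 3 ≤ k →
    (2 + ε) * Real.log n / Real.log (Real.log n) ≤ k → 2 * (n - 1) < (k - 2) ^ (k / 2) := by
  have hL : Tendsto (fun n : ℕ => Real.log n) atTop atTop :=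
    Real.tendsto_log_atTop.comp tendsto_natCast_atTop_atTop
  have hl : Tendsto (fun n : ℕ => Real.log (Real.log n)) atTop atTop :=
    Real.tendsto_log_atTop.comp hL
  have hlittle : Tendsto (fun x : ℝ => Real.log x / x) atTop (nhds 0) := by
    have := Real.isLittleO_log_id_atTop.tendsto_div_nhds_zero
    simpa using this
  have hlL : Tendsto (fun n : ℕ => Real.log (Real.log n) / Real.log n) atTop (nhds 0) :=
    hlittle.comp hL
  have hll : Tendsto (fun n : ℕ => Real.log (Real.log (Real.log n)) / Real.log (Real.log n)) atTop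
      (nhds 0) := hlittle.comp hl
  set η : ℝ := ε / (4 + 2 * ε) with hη
  have hη0 : 0 < η := by positivity
  have hη1 : η < 1 / 2 := by rw [hη, div_lt_div_iff₀ (by positivity) (by norm_num)]; linarith
  have hηeq : (1 + ε / 2) * (1 - η) = 1 + ε / 4 := by rw [hη]; field_simp; ring
  have e1 : ∀ᶠ n : ℕ in atTop, Real.log (Real.log n) / Real.log n < min (ε / 8) (1 / 2) :=
    hlL.eventually (gt_mem_nhds (lt_min (by positivity) (by norm_num)))
  have e2 : ∀ᶠ n : ℕ in atTop, Real.log (Real.log (Real.log n)) / Real.log (Real.log n) < η :=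
    hll.eventually (gt_mem_nhds hη0)
  have e3 : ∀ᶠ n : ℕ in atTop, 1 ≤ Real.log (Real.log n) := hl.eventually_ge_atTop _
  have e4 : ∀ᶠ n : ℕ in atTop, max 1 (8 / ε) ≤ Real.log n := hL.eventually_ge_atTop _
  obtain ⟨n₀, hn₀⟩ := (e1.and (e2.and (e3.and e4))).exists_forall_of_atTop
  refine ⟨n₀, fun n hn k hk hkn => ?_⟩
  obtain ⟨h1, h2, h3, h4⟩ := hn₀ n hn
  set L := Real.log n with hLdef
  set l := Real.log L with hldef
  have hL1 : 1 ≤ L := (le_max_left _ _).trans h4
  have hL0 : 0 < L := by linarith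
  have hl0 : 0 < l := by linarith
  have hn0 : (0 : ℝ) < n := by
    rcases Nat.eq_zero_or_pos n with h | h
    · rw [h] at hLdef
      simp at hLdef
      linarith
    · exact_mod_cast h
  have hlL1 : l < ε / 8 * L := by
    have := h1.trans_le (min_le_left _ _)
    rwa [div_lt_iff₀ hL0] at this
  have hlL2 : l < 1 / 2 * L := by
    have := h1.trans_le (min_le_right _ _)
    rwa [div_lt_iff₀ hL0] at this
  have hll' : Real.log l < η * l := by rwa [div_lt_iff₀ hl0] at h2
  have hk3 : (3 : ℝ) ≤ k := by exact_mod_cast hk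
  have hkl : (2 + ε) * L ≤ k * l := by rwa [div_le_iff₀ hl0] at hkn
  -- `k - 2 ≥ L / l`
  have hk2 : L / l ≤ (k : ℝ) - 2 := by
    rw [div_le_iff₀ hl0]
    nlinarith
  have hLl : 0 < L / l := by positivity
  have hlog : (1 - η) * l ≤ Real.log ((k : ℝ) - 2) := by
    calc (1 - η) * l ≤ l - Real.log l := by linarith
      _ = Real.log (L / l) := by rw [Real.log_div hL0.ne' hl0.ne']
      _ ≤ _ := Real.log_le_log hLl hk2
  have hhalf : ((k : ℝ) - 1) / 2 ≤ ((k / 2 : ℕ) : ℝ) := by
    have h5 : k ≤ 2 * (k / 2) + 1 := by omega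
    have h6 : (k : ℝ) ≤ 2 * ((k / 2 : ℕ) : ℝ) + 1 := by exact_mod_cast h5
    linarith
  have hmain : L + Real.log 2 < Real.log (((k - 2) ^ (k / 2) : ℕ) : ℝ) := by
    have h5 : Real.log (((k - 2) ^ (k / 2) : ℕ) : ℝ) =
        ((k / 2 : ℕ) : ℝ) * Real.log ((k : ℝ) - 2) := by
      rw [Nat.cast_pow, Real.log_pow, Nat.cast_sub (by omega)]
      norm_num
    rw [h5]
    have h6 : 0 ≤ (1 - η) * l := by nlinarith
    have h7 : Real.log 2 < 1 := by
      have := Real.log_two_lt_d9
      linarith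
    have h8 : 8 / ε ≤ L := (le_max_right _ _).trans h4
    have h9 : 1 ≤ ε / 8 * L := by
      rw [div_le_iff₀ hε] at h8
      linarith
    calc L + Real.log 2 < L + 1 := by linarith
      _ ≤ (1 + ε / 4) * L - ε / 8 * L := by nlinarith
      _ ≤ (1 + ε / 4) * L - (1 - η) * l / 2 := by nlinarith
      _ = (1 - η) * ((2 + ε) * L - l) / 2 := by
          rw [← hηeq]; ring
      _ ≤ (1 - η) * (k * l - l) / 2 := by
          have : 0 < 1 - η := by linarith
          nlinarith
      _ = (((k : ℝ) - 1) / 2) * ((1 - η) * l) := by ring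
      _ ≤ ((k / 2 : ℕ) : ℝ) * ((1 - η) * l) := mul_le_mul_of_nonneg_right hhalf h6
      _ ≤ ((k / 2 : ℕ) : ℝ) * Real.log ((k : ℝ) - 2) :=
          mul_le_mul_of_nonneg_left hlog (Nat.cast_nonneg _)
  have hfin : ((2 * n : ℕ) : ℝ) < (((k - 2) ^ (k / 2) : ℕ) : ℝ) := by
    have hpos : (0 : ℝ) < (((k - 2) ^ (k / 2) : ℕ) : ℝ) := by
      have : 0 < (k - 2) ^ (k / 2) := Nat.pow_pos (by omega)
      exact_mod_cast this
    rw [← Real.log_lt_log_iff (by push_cast; positivity) hpos]
    push_cast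
    rw [Real.log_mul (by norm_num) hn0.ne']
    have := hmain
    push_cast at this
    linarith
  have h10 : 2 * n < (k - 2) ^ (k / 2) := by exact_mod_cast hfin
  omega

end Pool.Agent.H82.Cyc
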