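import Mathlib

/-!
# Bipartite Cayley graphs of large girth

`LargeGirth H L` : every walk joining the ends of an edge and avoiding this edge has length at
least `L`; so every cycle has length more than `L`.
-/

set_option autoImplicit false

namespace Pool.Agent.H82.Cyc

/-- every walk joining the ends of an edge `uv`, not using this edge, has length at least `L` -/
def LargeGirth {V : Type*} (H : SimpleGraph V) (L : ℕ) : Prop :=
  ∀ u v, H.Adj u v → ∀ p : (H.deleteEdges {s(u, v)}).Walk v u, L ≤ p.length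

variable {G N : Type*} [Group G] (neg : N → N) (gen : N → G)

/-- the product of the first `n` letters -/
def prodw (δ : ℕ → N) : ℕ → G
  | 0 => 1
  | n + 1 => prodw δ n * gen (δ n)

/-- adjacency of the bipartite Cayley graph -/
def cayAdj (Γ : Set N) (u v : G × Bool) : Prop :=
  (u.2 = false ∧ v.2 = true ∧ ∃ c ∈ Γ, v.1 = u.1 * gen c) ∨
    (v.2 = false ∧ u.2 = true ∧ ∃ c ∈ Γ, u.1 = v.1 * gen c)

lemma cayAdj_irrefl (Γ : Set N) (u : G × Bool) : ¬ cayAdj gen Γ u u := by
  rintro (⟨h1, h2, _⟩ | ⟨h1, h2, _⟩) <;> rw [h1] at h2 <;> exact absurd h2 (by decide)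

/-- the bipartite graph `(x, false) ~ (x · gen c, true)`, `c ∈ Γ` -/
def cay (Γ : Set N) : SimpleGraph (G × Bool) where
  Adj := cayAdj gen Γ
  symm := ⟨fun _ _ h => Or.symm h⟩
  loopless := ⟨cayAdj_irrefl gen Γ⟩

lemma cay_step (hneg : ∀ c, gen (neg c) = (gen c)⁻¹) (Γ : Set N) {u v : G × Bool}
    (h : (cay gen Γ).Adj u v) : ∃ d : N, v.1 = u.1 * gen d ∧ v.2 = !u.2 := by
  replace h : cayAdj gen Γ u v := h
  rcases h with ⟨h1, h2, c, _, h3⟩ | ⟨h1, h2, c, _, h3⟩
  · exact ⟨c, h3, by rw [h1, h2]; rfl⟩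
  · refine ⟨neg c, ?_, by rw [h1, h2]; rfl⟩
    rw [h3, hneg, mul_assoc, mul_inv_cancel, mul_one]

theorem cay_girth (hneg : ∀ c, gen (neg c) = (gen c)⁻¹) (Γ : Set N) (L : ℕ)
    (hrel : ∀ (δ : ℕ → N) (r : ℕ), 1 ≤ r → 2 * r ≤ L →
      (∀ i, i + 1 < 2 * r → δ (i + 1) ≠ neg (δ i)) → prodw gen δ (2 * r) ≠ 1) :
    LargeGirth (cay gen Γ) L := by
  classical
  intro u v huv p
  by_contra hlt
  push Not at hlt
  obtain ⟨q, hqp, hql⟩ : ∃ q : ((cay gen Γ).deleteEdges {s(u, v)}).Walk v u,
      q.IsPath ∧ q.length ≤ p.length := ⟨p.bypass, p.bypass_isPath, p.length_bypass_le_length⟩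
  set n := q.length + 1 with hn
  let x : ℕ → G × Bool := fun i => if i = 0 then u else q.getVert (i - 1)
  have hx0 : x 0 = u := rfl
  have hxs : ∀ i, x (i + 1) = q.getVert i := by intro i; simp [x]
  have hxn : x n = u := by rw [hn, hxs]; exact q.getVert_length
  have hadj : ∀ i < n, (cay gen Γ).Adj (x i) (x (i + 1)) := by
    intro i hi
    rcases Nat.eq_zero_or_pos i with rfl | h0
    · rw [hx0, hxs, q.getVert_zero]; exact huv
    · obtain ⟨j, rfl⟩ : ∃ j, i = j + 1 := ⟨i - 1, by omega⟩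
      rw [hxs, hxs]
      have := q.adj_getVert_succ (i := j) (by omega)
      rw [SimpleGraph.deleteEdges_adj] at this
      exact this.1
  have hstep : ∀ i, ∃ d : N, i < n → (x (i + 1)).1 = (x i).1 * gen d ∧ (x (i + 1)).2 = !(x i).2 := by
    intro i
    by_cases hi : i < n
    · obtain ⟨d, hd⟩ := cay_step neg gen hneg Γ (hadj i hi)
      exact ⟨d, fun _ => hd⟩
    · obtain ⟨d, -⟩ := cay_step neg gen hneg Γ huv
      exact ⟨d, fun h => absurd h hi⟩
  choose δ hδ using hstep
  have hprod : ∀ i, i ≤ n → (x i).1 = u.1 * prodw gen δ i := by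
    intro i
    induction i with
    | zero => intro _; simp [prodw, hx0]
    | succ i ih =>
      intro hi
      rw [(hδ i (by omega)).1, ih (by omega), prodw, mul_assoc]
  have hside : ∀ i, i ≤ n → ((x i).2 = u.2 ↔ Even i) := by
    intro i
    induction i with
    | zero => intro _; simp [hx0]
    | succ i ih =>
      intro hi
      rw [(hδ i (by omega)).2, Nat.even_add_one, ← ih (by omega)]
      cases (x i).2 <;> cases u.2 <;> simp
  have hneven : Even n := (hside n le_rfl).1 (by rw [hxn])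
  obtain ⟨r, hr⟩ := hneven
  have hr2 : n = 2 * r := by omega
  have hne2 : ∀ i, i + 1 < n → x (i + 2) ≠ x i := by
    intro i hi heq
    rcases Nat.eq_zero_or_pos i with rfl | h0
    · rw [show 0 + 2 = 1 + 1 from rfl, hxs, hx0] at heq
      have h1 : q.getVert 1 = q.getVert q.length := by rw [heq, q.getVert_length]
      have h2 : 1 = q.length :=
        hqp.getVert_injOn (by simp only [Set.mem_ofPred_eq]; omega) (by simp) h1
      have h3 := q.adj_getVert_succ (i := 0) (by omega)
      rw [q.getVert_zero, zero_add, heq, SimpleGraph.deleteEdges_adj] at h3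
      exact h3.2 (by rw [Sym2.eq_swap]; rfl)
    · obtain ⟨j, rfl⟩ : ∃ j, i = j + 1 := ⟨i - 1, by omega⟩
      rw [show j + 1 + 2 = (j + 2) + 1 from rfl, hxs, hxs] at heq
      have h2 := hqp.getVert_injOn (by simp only [Set.mem_ofPred_eq]; omega)
        (by simp only [Set.mem_ofPred_eq]; omega) heq
      omega
  have hone : prodw gen δ (2 * r) = 1 := by
    have := hprod n le_rfl
    rw [hxn, hr2] at this
    exact (mul_eq_left.1 this.symm)
  refine hrel δ r (by omega) (by omega) ?_ hone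
  intro i hi heq
  apply hne2 i (by omega)
  apply Prod.ext
  · rw [show i + 2 = (i + 1) + 1 from rfl, (hδ (i + 1) (by omega)).1, (hδ i (by omega)).1, heq, hneg,
      mul_assoc, mul_inv_cancel, mul_one]
  · rw [show i + 2 = (i + 1) + 1 from rfl, (hδ (i + 1) (by omega)).2, (hδ i (by omega)).2]
    simp

end Pool.Agent.H82.Cyc
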