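import Pool.Agent.H82.Cyc.Lists
import Pool.Agent.H82.Cyc.CDefs

/-!
# Critical claw-free graphs without `C_k` are line graphs
-/

set_option autoImplicit false

open SimpleGraph Finset

namespace Pool.Agent.H82.Cyc

set_option linter.unusedSectionVars false

variable {V : Type*} [Fintype V] [DecidableEq V]

/-- independent finite sets -/
def Ind {V : Type*} (G : SimpleGraph V) (I : Finset V) : Prop := ∀ x ∈ I, ∀ y ∈ I, ¬ G.Adj x y

lemma Ind.mono {V : Type*} {G : SimpleGraph V} {I J : Finset V} (h : Ind G I) (hJ : J ⊆ I) :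
    Ind G J := fun x hx y hy => h x (hJ hx) y (hJ hy)

lemma Ind.insert {V : Type*} [DecidableEq V] {G : SimpleGraph V} {I : Finset V} (h : Ind G I) {v : V}
    (hv : ∀ x ∈ I, ¬ G.Adj v x) : Ind G (insert v I) := by
  intro x hx y hy hxy
  rw [Finset.mem_insert] at hx hy
  rcases hx with rfl | hx <;> rcases hy with rfl | hy
  · exact G.loopless.irrefl _ hxy
  · exact hv y hy hxy
  · exact hv x hx hxy.symm
  · exact h x hx y hy hxy

/-- the data of a critical graph: `|V| = (k-1)a + 1`, all independent sets have at most `a`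
elements, and every proper subset `W` has an independent set of size at least `|W|/(k-1)` -/
structure Crit (G : SimpleGraph V) (k a : ℕ) : Prop where
  hk : 3 ≤ k
  claw : ClawFree G
  cyc : ¬ (cycleGraph k ⊑ G)
  card : Fintype.card V = (k - 1) * a + 1
  ind : ∀ I, Ind G I → I.card ≤ a
  prop : ∀ W : Finset V, W ≠ univ → ∃ I, I ⊆ W ∧ Ind G I ∧ W.card ≤ (k - 1) * I.card

variable {G : SimpleGraph V} {k a : ℕ}

namespace Crit

/-- every small nonempty set is missed by a maximum independent set -/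
lemma miss (h : Crit G k a) (S : Finset V) (hS : S.Nonempty) (hS2 : S.card ≤ k - 1) :
    ∃ I, Ind G I ∧ I.card = a ∧ Disjoint I S := by
  classical
  have hk := h.hk
  have hne : Sᶜ ≠ univ := by
    intro hc
    rw [Finset.compl_eq_univ_iff] at hc
    exact hS.ne_empty hc
  obtain ⟨I, hI, hInd, hc⟩ := h.prop Sᶜ hne
  refine ⟨I, hInd, le_antisymm (h.ind I hInd) ?_, ?_⟩
  · rw [Finset.card_compl, h.card] at hc
    by_contra hlt
    push Not at hlt
    have h1 : I.card + 1 ≤ a := hlt
    have h2 : (k - 1) * (I.card + 1) ≤ (k - 1) * a := Nat.mul_le_mul_left _ h1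
    rw [Nat.mul_add, Nat.mul_one] at h2
    omega
  · rw [Finset.disjoint_left]
    intro x hx hxS
    exact (Finset.mem_compl.1 (hI hx)) hxS

open Classical in
/-- the neighbourhood -/
noncomputable def nb (G : SimpleGraph V) (v : V) : Finset V := univ.filter (fun w => G.Adj v w)

lemma mem_nb {v w : V} : w ∈ nb G v ↔ G.Adj v w := by simp [nb]

/-- minimum degree at least `k - 1` -/
lemma degree (h : Crit G k a) (v : V) : k - 1 ≤ (nb G v).card := by
  classical
  have hk := h.hk
  set S := insert v (nb G v) with hS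
  have hvn : v ∉ nb G v := by rw [mem_nb]; exact G.loopless.irrefl v
  have hScard : S.card = (nb G v).card + 1 := Finset.card_insert_of_notMem hvn
  have hne : Sᶜ ≠ univ := by
    intro hc
    rw [Finset.compl_eq_univ_iff] at hc
    have : v ∈ S := Finset.mem_insert_self _ _
    rw [hc] at this
    simp at this
  obtain ⟨I, hI, hInd, hc⟩ := h.prop Sᶜ hne
  have hvI : v ∉ I := fun hv => (Finset.mem_compl.1 (hI hv)) (Finset.mem_insert_self _ _)
  have h1 : Ind G (insert v I) := hInd.insert (fun x hx hvx =>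
    (Finset.mem_compl.1 (hI hx)) (Finset.mem_insert_of_mem (mem_nb.2 hvx)))
  have h2 := h.ind _ h1
  rw [Finset.card_insert_of_notMem hvI] at h2
  rw [Finset.card_compl, h.card] at hc
  have h3 : (k - 1) * (I.card + 1) ≤ (k - 1) * a := Nat.mul_le_mul_left _ h2
  rw [Nat.mul_add, Nat.mul_one] at h3
  omega

/-- connectivity -/
lemma conn (h : Crit G k a) (W : Finset V) (hW : W.Nonempty) (hW2 : W ≠ univ) :
    ∃ x ∈ W, ∃ y, y ∉ W ∧ G.Adj x y := by
  classical
  have hk := h.hk
  by_contra hno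
  push Not at hno
  have hne : Wᶜ ≠ univ := by
    intro hc
    rw [Finset.compl_eq_univ_iff] at hc
    exact hW.ne_empty hc
  obtain ⟨I, hI, hInd, hc⟩ := h.prop W hW2
  obtain ⟨J, hJ, hJnd, hc'⟩ := h.prop Wᶜ hne
  have hdisj : Disjoint I J := by
    rw [Finset.disjoint_left]
    intro x hx hx'
    exact (Finset.mem_compl.1 (hJ hx')) (hI hx)
  have hU : Ind G (I ∪ J) := by
    intro x hx y hy hxy
    rw [Finset.mem_union] at hx hy
    rcases hx with hx | hx <;> rcases hy with hy | hy
    · exact hInd x hx y hy hxy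
    · exact hno x (hI hx) y (Finset.mem_compl.1 (hJ hy)) hxy
    · exact hno y (hI hy) x (Finset.mem_compl.1 (hJ hx)) hxy.symm
    · exact hJnd x hx y hy hxy
  have h1 := h.ind _ hU
  rw [Finset.card_union_of_disjoint hdisj] at h1
  rw [Finset.card_compl] at hc'
  have h2 := h.card
  have h3 : W.card ≤ Fintype.card V := Finset.card_le_univ W
  have h4 : (k - 1) * (I.card + J.card) ≤ (k - 1) * a := Nat.mul_le_mul_left _ h1
  rw [Nat.mul_add] at h4
  omega

/-- a path on `k - 1` vertices in a neighbourhood closes to a `C_k` -/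
lemma no_path (h : Crit G k a) (v : V) (L : List V) (hnd : L.Nodup) (hlen : L.length = k - 1)
    (hL : ∀ x ∈ L, G.Adj v x) (hch : List.IsChain G.Adj L) : False := by
  have hk := h.hk
  apply h.cyc
  have hL0 : L ≠ [] := by rintro rfl; simp at hlen; omega
  have hv : v ∉ L := fun hv => G.loopless.irrefl v (hL v hv)
  refine CycL.copy (u := v) (L := L ++ [v]) ⟨?_, ?_, by simp⟩ hk (by simp [hlen]; omega)
  · rw [← List.cons_append]
    refine List.IsChain.append ?_ (by simp) ?_
    · match L, hL0, hL, hch with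
      | p :: L₁, _, hL, hch =>
        exact List.isChain_cons_cons.2 ⟨hL p (by simp), hch⟩
    · intro x hx y hy
      rw [List.head?_cons, Option.mem_some_iff] at hy
      subst hy
      rw [List.getLast?_cons_of_ne_nil hL0] at hx
      exact (hL x (List.mem_of_getLast? hx)).symm
  · rw [List.nodup_append]
    refine ⟨hnd, by simp, ?_⟩
    intro a ha b hb
    rw [List.mem_singleton] at hb
    subst hb
    rintro rfl
    exact hv ha

/-- adjacency is transitive inside a neighbourhood -/
lemma trans (h : Crit G k a) {v x y z : V} (hx : G.Adj v x) (hy : G.Adj v y) (hz : G.Adj v z)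
    (hxy : G.Adj x y) (hyz : G.Adj y z) (hne : x ≠ z) : G.Adj x z := by
  classical
  have hk := h.hk
  by_contra hxz
  have hα : ∀ a ∈ nb G v, ∀ b ∈ nb G v, ∀ c ∈ nb G v, a ≠ b → a ≠ c → b ≠ c →
      G.Adj a b ∨ G.Adj a c ∨ G.Adj b c := by
    intro a ha b hb c hc
    exact h.claw v a b c (mem_nb.1 ha) (mem_nb.1 hb) (mem_nb.1 hc)
  have hconn : ∀ S ⊆ nb G v, S.Nonempty → S ≠ nb G v →
      ∃ p ∈ S, ∃ q ∈ nb G v, q ∉ S ∧ G.Adj p q := by
    intro S hS hSne hSne2
    by_contra hno
    push Not at hno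
    -- `x, y, z` lie on the same side
    have hsame : ∀ p ∈ nb G v, ∀ q ∈ nb G v, G.Adj p q → (p ∈ S ↔ q ∈ S) := by
      intro p hp q hq hpq
      constructor
      · intro hpS
        by_contra hqS
        exact hno p hpS q hq hqS hpq
      · intro hqS
        by_contra hpS
        exact hno q hqS p hp hpS hpq.symm
    have h1 := hsame x (mem_nb.2 hx) y (mem_nb.2 hy) hxy
    have h2 := hsame y (mem_nb.2 hy) z (mem_nb.2 hz) hyz
    have hall : ∀ p ∈ nb G v, (p ∈ S ↔ x ∈ S) := by
      intro p hp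
      by_cases hpx : p = x
      · rw [hpx]
      by_cases hpz : p = z
      · rw [hpz, ← h2, ← h1]
      rcases h.claw v p x z (mem_nb.1 hp) hx hz hpx hpz hne with h3 | h3 | h3
      · exact hsame p hp x (mem_nb.2 hx) h3
      · rw [hsame p hp z (mem_nb.2 hz) h3, ← h2, ← h1]
      · exact absurd h3 hxz
    obtain ⟨p, hp⟩ := hSne
    have hxS : x ∈ S := (hall p (hS hp)).1 hp
    exact hSne2 (Finset.Subset.antisymm hS (fun q hq => (hall q hq).2 hxS))
  have hdeg := h.degree v
  obtain ⟨L, hnd, hlen, hL, hch⟩ := exists_path (nb G v) hα hconn (k - 2) (by omega)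
  exact h.no_path v L hnd (by omega) (fun x hx => mem_nb.1 (hL x hx)) hch

/-- a clique has at most `k - 1` vertices -/
lemma clique_card (h : Crit G k a) (S : Finset V) (hS : ∀ x ∈ S, ∀ y ∈ S, x ≠ y → G.Adj x y) :
    S.card ≤ k - 1 := by
  classical
  have hk := h.hk
  by_contra hlt
  push Not at hlt
  obtain ⟨T, hTS, hT⟩ := Finset.exists_subset_card_eq (show k ≤ S.card by omega)
  apply h.cyc
  refine (IsContained.of_le le_top).trans ?_
  have e : Fin k ≃ T := (Finset.equivFinOfCardEq hT).symm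
  refine ⟨⟨⟨fun i => (e i).1, ?_⟩, ?_⟩⟩
  · intro i j hij
    rw [top_adj] at hij
    exact hS _ (hTS (e i).2) _ (hTS (e j).2) (fun hh => hij (e.injective (Subtype.ext hh)))
  · intro i j hij
    exact e.injective (Subtype.ext hij)

end Crit

open Classical in
/-- the line (maximal clique) through two adjacent vertices -/
noncomputable def ln (G : SimpleGraph V) (x y : V) : Finset V :=
  univ.filter (fun z => (z = x ∨ G.Adj x z) ∧ (z = y ∨ G.Adj y z))

lemma mem_ln {x y z : V} : z ∈ ln G x y ↔ (z = x ∨ G.Adj x z) ∧ (z = y ∨ G.Adj y z) := by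
  simp [ln]

lemma ln_comm (x y : V) : ln G x y = ln G y x := by
  ext z; rw [mem_ln, mem_ln, and_comm]

lemma left_mem_ln {x y : V} (hxy : G.Adj x y) : x ∈ ln G x y := mem_ln.2 ⟨Or.inl rfl, Or.inr hxy.symm⟩
lemma right_mem_ln {x y : V} (hxy : G.Adj x y) : y ∈ ln G x y := mem_ln.2 ⟨Or.inr hxy, Or.inl rfl⟩

namespace Crit

lemma ln_clique (h : Crit G k a) {x y : V} (hxy : G.Adj x y) {z w : V} (hz : z ∈ ln G x y)
    (hw : w ∈ ln G x y) (hne : z ≠ w) : G.Adj z w := by
  rw [mem_ln] at hz hw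
  obtain ⟨hz1, hz2⟩ := hz
  obtain ⟨hw1, hw2⟩ := hw
  rcases hz1 with rfl | hz1
  · rcases hw1 with rfl | hw1
    · exact absurd rfl hne
    · exact hw1
  · rcases hw1 with rfl | hw1
    · exact hz1.symm
    · rcases hz2 with rfl | hz2
      · rcases hw2 with rfl | hw2
        · exact absurd rfl hne
        · exact hw2
      · rcases hw2 with rfl | hw2
        · exact hz2.symm
        · exact h.trans hz1 hxy hw1 hz2.symm hw2 hne

lemma ln_eq_left (h : Crit G k a) {x y z : V} (hxy : G.Adj x y) (hz : z ∈ ln G x y) (hzx : z ≠ x) :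
    ln G x z = ln G x y := by
  have hxz : G.Adj x z := h.ln_clique hxy (left_mem_ln hxy) hz hzx.symm
  have hy : y ∈ ln G x z := by
    rw [mem_ln]
    refine ⟨Or.inr hxy, ?_⟩
    by_cases hyz : y = z
    · exact Or.inl hyz
    · exact Or.inr (h.ln_clique hxy hz (right_mem_ln hxy) (Ne.symm hyz))
  ext w
  constructor
  · intro hw
    rw [mem_ln]
    refine ⟨(mem_ln.1 hw).1, ?_⟩
    by_cases hwy : w = y
    · exact Or.inl hwy
    · exact Or.inr (h.ln_clique hxz hy hw (Ne.symm hwy))
  · intro hw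
    rw [mem_ln]
    refine ⟨(mem_ln.1 hw).1, ?_⟩
    by_cases hwz : w = z
    · exact Or.inl hwz
    · exact Or.inr (h.ln_clique hxy hz hw (Ne.symm hwz))

lemma ln_eq (h : Crit G k a) {x y z w : V} (hxy : G.Adj x y) (hz : z ∈ ln G x y)
    (hw : w ∈ ln G x y) (hne : z ≠ w) : ln G z w = ln G x y := by
  by_cases hzx : z = x
  · subst hzx
    exact h.ln_eq_left hxy hw (Ne.symm hne)
  · have h1 := h.ln_eq_left hxy hz hzx
    have hxz : G.Adj x z := h.ln_clique hxy (left_mem_ln hxy) hz (Ne.symm hzx)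
    rw [← h1, ln_comm] at hw
    have h2 := h.ln_eq_left hxz.symm hw (Ne.symm hne)
    rw [h2, ln_comm, h1]

end Crit

/-- the set of lines -/
def IsLine (G : SimpleGraph V) (S : Finset V) : Prop := ∃ x y, G.Adj x y ∧ S = ln G x y

/-- the type of lines -/
abbrev Ln (G : SimpleGraph V) : Type _ := {S : Finset V // IsLine G S}

namespace Crit

lemma line_clique (h : Crit G k a) (l : Ln G) {z w : V} (hz : z ∈ l.1) (hw : w ∈ l.1)
    (hne : z ≠ w) : G.Adj z w := by
  obtain ⟨S, x, y, hxy, rfl⟩ := l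
  exact h.ln_clique hxy hz hw hne

lemma line_card (h : Crit G k a) (l : Ln G) : l.1.card ≤ k - 1 :=
  h.clique_card l.1 (fun _ hx _ hy hne => h.line_clique l hx hy hne)

lemma line_nonempty (l : Ln G) : l.1.Nonempty := by
  obtain ⟨S, x, y, hxy, rfl⟩ := l
  exact ⟨x, left_mem_ln hxy⟩

/-- two lines sharing two points are equal -/
lemma line_eq (h : Crit G k a) {l m : Ln G} {z w : V} (hne : z ≠ w) (hz : z ∈ l.1) (hw : w ∈ l.1)
    (hz' : z ∈ m.1) (hw' : w ∈ m.1) : l = m := by
  obtain ⟨S, x, y, hxy, rfl⟩ := l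
  obtain ⟨S', x', y', hxy', rfl⟩ := m
  apply Subtype.ext
  have h1 := h.ln_eq hxy hz hw hne
  have h2 := h.ln_eq hxy' hz' hw' hne
  exact h1.symm.trans h2

/-- every vertex lies on exactly two lines -/
lemma two_lines (h : Crit G k a) (v : V) : ∃ l m : Ln G, l ≠ m ∧ v ∈ l.1 ∧ v ∈ m.1 ∧
    ∀ n : Ln G, v ∈ n.1 → n = l ∨ n = m := by
  classical
  have hk := h.hk
  have hdeg := h.degree v
  obtain ⟨p, hp⟩ : (nb G v).Nonempty := Finset.card_pos.1 (by omega)
  have hvp := mem_nb.1 hp
  -- some neighbour is not on the line through `v` and `p`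
  obtain ⟨q, hq, hqp⟩ : ∃ q ∈ nb G v, q ∉ ln G v p := by
    by_contra hno
    push Not at hno
    have hsub : insert v (nb G v) ⊆ ln G v p := by
      intro x hx
      rcases Finset.mem_insert.1 hx with rfl | hx
      · exact left_mem_ln hvp
      · exact hno x hx
    have h1 := Finset.card_le_card hsub
    have hvn : v ∉ nb G v := by rw [mem_nb]; exact G.loopless.irrefl v
    rw [Finset.card_insert_of_notMem hvn] at h1
    have h2 := h.line_card ⟨ln G v p, v, p, hvp, rfl⟩
    simp only at h2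
    omega
  have hvq := mem_nb.1 hq
  have hqp' : ¬ G.Adj q p ∧ q ≠ p := by
    constructor
    · intro hh
      exact hqp (mem_ln.2 ⟨Or.inr hvq, Or.inr hh.symm⟩)
    · rintro rfl
      exact hqp (right_mem_ln hvp)
  refine ⟨⟨ln G v p, v, p, hvp, rfl⟩, ⟨ln G v q, v, q, hvq, rfl⟩, ?_, left_mem_ln hvp,
    left_mem_ln hvq, ?_⟩
  · intro hh
    have h1 := congrArg Subtype.val hh
    simp only at h1
    exact hqp (h1 ▸ right_mem_ln hvq)
  · intro n hn
    -- another point of `n`
    obtain ⟨c, hc, hcv⟩ : ∃ c ∈ n.1, c ≠ v := by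
      obtain ⟨S, x, y, hxy, rfl⟩ := n
      by_cases hxv : x = v
      · exact ⟨y, right_mem_ln hxy, fun hh => hxy.ne (hxv.trans hh.symm)⟩
      · exact ⟨x, left_mem_ln hxy, hxv⟩
    have hvc := h.line_clique n hn hc (Ne.symm hcv)
    by_cases hcp : c = p
    · left
      refine h.line_eq hcv hc hn ?_ (left_mem_ln hvp)
      rw [hcp]; exact right_mem_ln hvp
    by_cases hcq : c = q
    · right
      refine h.line_eq hcv hc hn ?_ (left_mem_ln hvq)
      rw [hcq]; exact right_mem_ln hvq
    rcases h.claw v c p q hvc hvp hvq hcp hcq (Ne.symm hqp'.2) with h1 | h1 | h1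
    · left
      exact h.line_eq hcv hc hn (mem_ln.2 ⟨Or.inr hvc, Or.inr h1.symm⟩) (left_mem_ln hvp)
    · right
      exact h.line_eq hcv hc hn (mem_ln.2 ⟨Or.inr hvc, Or.inr h1.symm⟩) (left_mem_ln hvq)
    · exact absurd h1.symm hqp'.1

/-- adjacent vertices lie on a common line -/
lemma common_line {x y : V} (hxy : G.Adj x y) : ∃ l : Ln G, x ∈ l.1 ∧ y ∈ l.1 :=
  ⟨⟨ln G x y, x, y, hxy, rfl⟩, left_mem_ln hxy, right_mem_ln hxy⟩

end Crit

end Pool.Agent.H82.Cyc
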