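import Mathlib

/-!
# Elements of norm `-1` in `GF(p²)`
-/

set_option autoImplicit false

open Polynomial

namespace Pool.Agent.H82.Cyc

variable (p : ℕ) [Fact p.Prime]

/-- the field with `p²` elements -/
abbrev K2 (p : ℕ) [Fact p.Prime] : Type := GaloisField p 2

/-- the Frobenius involution of `GF(p²)` -/
noncomputable def fr : K2 p →+* K2 p := frobenius (K2 p) p

lemma fr_apply (x : K2 p) : fr p x = x ^ p := rfl

lemma fr_fr (x : K2 p) : fr p (fr p x) = x := by
  have : Fintype (K2 p) := Fintype.ofFinite _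
  rw [fr_apply, fr_apply, ← pow_mul, ← sq]
  have h : Fintype.card (K2 p) = p ^ 2 := by
    rw [← Nat.card_eq_fintype_card, GaloisField.card p 2 (by norm_num)]
  rw [← h]
  exact FiniteField.pow_card x

/-- at least `p + 1` elements have norm `-1` -/
lemma card_norm (hp : p ≠ 2) :
    p + 1 ≤ Nat.card {c : K2 p // c * fr p c = -1} := by
  classical
  have : Fintype (K2 p) := Fintype.ofFinite _
  have hK : Fintype.card (K2 p) = p ^ 2 := by
    rw [← Nat.card_eq_fintype_card, GaloisField.card p 2 (by norm_num)]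
  have hp2 : 2 ≤ p := (Fact.out : p.Prime).two_le
  -- roots of `X^(p-1) - 1`
  let Y : Finset (K2 p) := Finset.univ.filter (fun y => y ^ (p - 1) = 1)
  have hroots : ∀ (d : ℕ) (b : K2 p), 0 < d →
      (Finset.univ.filter (fun z : K2 p => z ^ d = b)).card ≤ d := by
    intro d b hd
    have h1 : (Finset.univ.filter (fun z : K2 p => z ^ d = b)) ⊆ (X ^ d - C b).roots.toFinset := by
      intro z hz
      rw [Finset.mem_filter] at hz
      rw [Multiset.mem_toFinset, mem_roots (X_pow_sub_C_ne_zero hd b), IsRoot.def]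
      simp [hz.2]
    calc _ ≤ (X ^ d - C b).roots.toFinset.card := Finset.card_le_card h1
      _ ≤ Multiset.card (X ^ d - C b).roots := Multiset.toFinset_card_le _
      _ ≤ (X ^ d - C b).natDegree := card_roots' _
      _ = d := natDegree_X_pow_sub_C
  have hY : Y.card ≤ p - 1 := hroots (p - 1) 1 (by omega)
  have hmaps : ∀ z ∈ (Finset.univ.filter (fun z : K2 p => z ≠ 0)), z ^ (p + 1) ∈ Y := by
    intro z hz
    rw [Finset.mem_filter] at hz
    rw [Finset.mem_filter]
    refine ⟨Finset.mem_univ _, ?_⟩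
    rw [← pow_mul]
    have h1 : (p + 1) * (p - 1) = p ^ 2 - 1 := by
      rw [sq, ← Nat.mul_self_sub_mul_self_eq, mul_one]
    rw [h1, ← hK]
    exact FiniteField.pow_card_sub_one_eq_one z hz.2
  have hcount := Finset.card_eq_sum_card_fiberwise hmaps
  have hne : (Finset.univ.filter (fun z : K2 p => z ≠ 0)).card = p ^ 2 - 1 := by
    rw [Finset.filter_ne', Finset.card_erase_of_mem (Finset.mem_univ _), Finset.card_univ, hK]
  rw [hne] at hcount
  have hfib : ∀ b : K2 p, ((Finset.univ.filter (fun z : K2 p => z ≠ 0)).filter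
      (fun z => z ^ (p + 1) = b)).card ≤ p + 1 := by
    intro b
    refine (Finset.card_le_card ?_).trans (hroots (p + 1) b (by omega))
    intro z hz
    rw [Finset.mem_filter] at hz ⊢
    exact ⟨Finset.mem_univ _, hz.2⟩
  have hm1 : (-1 : K2 p) ∈ Y := by
    rw [Finset.mem_filter]
    refine ⟨Finset.mem_univ _, ?_⟩
    have hodd : Odd p := (Fact.out : p.Prime).odd_of_ne_two hp
    obtain ⟨t, ht⟩ := hodd
    have : Even (p - 1) := ⟨t, by omega⟩
    exact this.neg_one_pow
  -- the fibre over `-1` is full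
  have hfull : p + 1 ≤ ((Finset.univ.filter (fun z : K2 p => z ≠ 0)).filter
      (fun z => z ^ (p + 1) = -1)).card := by
    by_contra hlt
    push Not at hlt
    have h1 : p ^ 2 - 1 < Y.card * (p + 1) := by
      rw [hcount, ← smul_eq_mul, ← Finset.sum_const]
      exact Finset.sum_lt_sum (fun b _ => hfib b) ⟨-1, hm1, hlt⟩
    have h2 : Y.card * (p + 1) ≤ (p - 1) * (p + 1) := Nat.mul_le_mul_right _ hY
    have h3 : (p - 1) * (p + 1) = p ^ 2 - 1 := by
      rw [mul_comm, sq, ← Nat.mul_self_sub_mul_self_eq, mul_one]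
    omega
  refine hfull.trans ?_
  rw [Nat.card_eq_fintype_card, Fintype.card_subtype]
  apply Finset.card_le_card
  intro z hz
  rw [Finset.mem_filter] at hz ⊢
  refine ⟨Finset.mem_univ _, ?_⟩
  rw [fr_apply, ← pow_succ']
  exact hz.2

/-- an anti-invariant unit -/
lemma exists_anti : ∃ i : K2 p, i ≠ 0 ∧ fr p i = -i := by
  classical
  have : Fintype (K2 p) := Fintype.ofFinite _
  have hK : Fintype.card (K2 p) = p ^ 2 := by
    rw [← Nat.card_eq_fintype_card, GaloisField.card p 2 (by norm_num)]
  have hp2 : 2 ≤ p := (Fact.out : p.Prime).two_le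
  obtain ⟨z, hz⟩ : ∃ z : K2 p, fr p z ≠ z := by
    by_contra hall
    push Not at hall
    have h1 : (Finset.univ : Finset (K2 p)) ⊆ (X ^ p - X : (K2 p)[X]).roots.toFinset := by
      intro z _
      rw [Multiset.mem_toFinset, mem_roots (FiniteField.X_pow_card_sub_X_ne_zero _ (by omega)),
        IsRoot.def]
      have := hall z
      rw [fr_apply] at this
      simp [this]
    have h2 : p ^ 2 ≤ p := by
      calc p ^ 2 = (Finset.univ : Finset (K2 p)).card := by rw [Finset.card_univ, hK]
        _ ≤ (X ^ p - X : (K2 p)[X]).roots.toFinset.card := Finset.card_le_card h1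
        _ ≤ Multiset.card (X ^ p - X : (K2 p)[X]).roots := Multiset.toFinset_card_le _
        _ ≤ (X ^ p - X : (K2 p)[X]).natDegree := card_roots' _
        _ = p := FiniteField.X_pow_card_sub_X_natDegree_eq _ (by omega)
    nlinarith
  refine ⟨z - fr p z, sub_ne_zero.2 (Ne.symm hz), ?_⟩
  rw [map_sub, fr_fr, neg_sub]

end Pool.Agent.H82.Cyc
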