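import Pool.Agent.H82.Cyc.Claw

/-!
# The lines of a critical claw-free graph: an odd number `2a + 1` (Gallai's lemma)
-/

set_option autoImplicit false
set_option linter.unusedSectionVars false

open SimpleGraph Finset

namespace Pool.Agent.H82.Cyc

variable {V : Type*} [Fintype V] [DecidableEq V] {G : SimpleGraph V} {k a : ℕ}

open Classical in
noncomputable instance : Fintype (Ln G) := Fintype.ofFinite _

namespace Crit

open Classical in
/-- the lines through a vertex -/
noncomputable def thr (G : SimpleGraph V) (v : V) : Finset (Ln G) := univ.filter (fun l => v ∈ l.1)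

lemma mem_thr {v : V} {l : Ln G} : l ∈ thr G v ↔ v ∈ l.1 := by simp [thr]

lemma thr_card (h : Crit G k a) (v : V) : (thr G v).card = 2 := by
  classical
  obtain ⟨l, m, hlm, hl, hm, hall⟩ := h.two_lines v
  have : thr G v = {l, m} := by
    ext n
    rw [mem_thr, Finset.mem_insert, Finset.mem_singleton]
    constructor
    · exact hall n
    · rintro (rfl | rfl)
      · exact hl
      · exact hm
  rw [this, Finset.card_pair hlm]

open Classical in
/-- the lines hit by a set -/
noncomputable def hit (G : SimpleGraph V) (I : Finset V) : Finset (Ln G) :=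
  univ.filter (fun l => ¬ Disjoint I l.1)

lemma mem_hit {I : Finset V} {l : Ln G} : l ∈ hit G I ↔ ∃ x ∈ I, x ∈ l.1 := by
  simp only [hit, Finset.mem_filter, Finset.mem_univ, true_and, Finset.not_disjoint_iff]

lemma hit_card (h : Crit G k a) {I : Finset V} (hI : Ind G I) : (hit G I).card = 2 * I.card := by
  classical
  have : hit G I = I.biUnion (fun v => thr G v) := by
    ext l
    rw [mem_hit, Finset.mem_biUnion]
    simp only [mem_thr]
  rw [this, Finset.card_biUnion, Finset.sum_congr rfl (fun v _ => h.thr_card v),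
    Finset.sum_const, smul_eq_mul, mul_comm]
  intro x hx y hy hxy
  rw [Function.onFun, Finset.disjoint_left]
  intro l hl hl'
  rw [mem_thr] at hl hl'
  exact hI x hx y hy (h.line_clique l hl hl' hxy)

/-- `l` and `m` are not both missed by a maximum independent set -/
def Rel (G : SimpleGraph V) (a : ℕ) (l m : Ln G) : Prop :=
  l = m ∨ ∀ I, Ind G I → I.card = a → ¬ (Disjoint I l.1 ∧ Disjoint I m.1)

lemma Rel.symm {l m : Ln G} (h : Rel G a l m) : Rel G a m l := by
  rcases h with rfl | h
  · exact Or.inl rfl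
  · exact Or.inr (fun I hI hc hd => h I hI hc ⟨hd.2, hd.1⟩)

/-- two lines through a vertex are related -/
lemma rel_of_mem (h : Crit G k a) {v : V} {l m : Ln G} (hl : v ∈ l.1) (hm : v ∈ m.1) :
    Rel G a l m := by
  classical
  by_cases hlm : l = m
  · exact Or.inl hlm
  right
  intro I hI hc ⟨hd1, hd2⟩
  obtain ⟨l', m', hlm', hl', hm', hall⟩ := h.two_lines v
  have hvI : v ∉ I := fun hv => (Finset.disjoint_left.1 hd1 hv) hl
  have hlines : ∀ n : Ln G, v ∈ n.1 → n = l ∨ n = m := by
    intro n hn
    rcases hall n hn with rfl | rfl <;> rcases hall l hl with h1 | h1 <;>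
      rcases hall m hm with h2 | h2
    · exact Or.inl h1.symm
    · exact Or.inl h1.symm
    · exact Or.inr h2.symm
    · exact absurd (h1.trans h2.symm) hlm
    · exact absurd (h1.trans h2.symm) hlm
    · exact Or.inr h2.symm
    · exact Or.inl h1.symm
    · exact Or.inl h1.symm
  have h1 : Ind G (insert v I) := hI.insert (fun x hx hvx => by
    obtain ⟨n, hn1, hn2⟩ := common_line hvx
    rcases hlines n hn1 with rfl | rfl
    · exact Finset.disjoint_left.1 hd1 hx hn2
    · exact Finset.disjoint_left.1 hd2 hx hn2)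
  have h2 := h.ind _ h1
  rw [Finset.card_insert_of_notMem hvI] at h2
  omega

/-- **Gallai's argument**: the relation is transitive -/
lemma Rel.trans (h : Crit G k a) {l m n : Ln G} (h1 : Rel G a l m) (h2 : Rel G a m n) :
    Rel G a l n := by
  classical
  rcases h1 with rfl | h1
  · exact h2
  rcases h2 with rfl | h2
  · exact Or.inr h1
  by_cases hln : l = n
  · exact Or.inl hln
  right
  rintro I hI hIc ⟨hIl, hIn⟩
  -- `J` misses `m`, with `|I ∩ J|` maximal
  let F : Finset (Finset V) := univ.filter (fun J => Ind G J ∧ J.card = a ∧ Disjoint J m.1)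
  have hF : F.Nonempty := by
    obtain ⟨J, hJ1, hJ2, hJ3⟩ := h.miss m.1 (line_nonempty m) (h.line_card m)
    exact ⟨J, Finset.mem_filter.2 ⟨Finset.mem_univ _, hJ1, hJ2, hJ3⟩⟩
  obtain ⟨J, hJF, hJmax⟩ := Finset.exists_max_image F (fun J => (I ∩ J).card) hF
  obtain ⟨-, hJ, hJc, hJm⟩ := Finset.mem_filter.1 hJF
  have hJl : l ∈ hit G J := by
    rw [mem_hit]
    by_contra hno
    push Not at hno
    exact h1 J hJ hJc ⟨Finset.disjoint_left.2 (fun x hx => hno x hx), hJm⟩
  have hJn : n ∈ hit G J := by
    rw [mem_hit]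
    by_contra hno
    push Not at hno
    exact h2 J hJ hJc ⟨hJm, Finset.disjoint_left.2 (fun x hx => hno x hx)⟩
  have hIl' : l ∉ hit G I := by
    rw [mem_hit]; rintro ⟨x, hx, hxl⟩; exact Finset.disjoint_left.1 hIl hx hxl
  have hIn' : n ∉ hit G I := by
    rw [mem_hit]; rintro ⟨x, hx, hxl⟩; exact Finset.disjoint_left.1 hIn hx hxl
  -- counting
  have hc1 := h.hit_card hI
  have hc2 := h.hit_card hJ
  have hsub : ({l, n} : Finset (Ln G)) ⊆ hit G J \ hit G I := by
    intro z hz
    rw [Finset.mem_insert, Finset.mem_singleton] at hz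
    rw [Finset.mem_sdiff]
    rcases hz with rfl | rfl
    · exact ⟨hJl, hIl'⟩
    · exact ⟨hJn, hIn'⟩
  have hc3 : 2 ≤ (hit G J \ hit G I).card := by
    rw [← Finset.card_pair hln]; exact Finset.card_le_card hsub
  have hc4 : (hit G I \ hit G J).card = (hit G J \ hit G I).card := by
    have e1 := Finset.card_sdiff_add_card_inter (hit G I) (hit G J)
    have e2 := Finset.card_sdiff_add_card_inter (hit G J) (hit G I)
    rw [Finset.inter_comm] at e2
    omega
  obtain ⟨p, hp, hpm⟩ : ∃ p ∈ hit G I \ hit G J, p ≠ m := by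
    by_contra hno
    push Not at hno
    have : hit G I \ hit G J ⊆ {m} := fun z hz => Finset.mem_singleton.2 (hno z hz)
    have := Finset.card_le_card this
    rw [Finset.card_singleton] at this
    omega
  rw [Finset.mem_sdiff] at hp
  obtain ⟨hpI, hpJ⟩ := hp
  rw [mem_hit] at hpI
  obtain ⟨x, hxI, hxp⟩ := hpI
  have hxJ : x ∉ J := fun hx => hpJ (mem_hit.2 ⟨x, hx, hxp⟩)
  -- the other line through `x`
  obtain ⟨q, hqp, hxq, hlines⟩ : ∃ q : Ln G, q ≠ p ∧ x ∈ q.1 ∧ ∀ r : Ln G, x ∈ r.1 → r = p ∨ r = q := by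
    obtain ⟨l', m', hlm', hl', hm', hall⟩ := h.two_lines x
    rcases hall p hxp with rfl | rfl
    · exact ⟨m', Ne.symm hlm', hm', hall⟩
    · exact ⟨l', hlm', hl', fun r hr => (hall r hr).symm⟩
  have hqJ : q ∈ hit G J := by
    by_contra hno
    have h3 : Ind G (insert x J) := hJ.insert (fun z hz hxz => by
      obtain ⟨r, hr1, hr2⟩ := common_line hxz
      rcases hlines r hr1 with rfl | rfl
      · exact hpJ (mem_hit.2 ⟨z, hz, hr2⟩)
      · exact hno (mem_hit.2 ⟨z, hz, hr2⟩))
    have h4 := h.ind _ h3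
    rw [Finset.card_insert_of_notMem hxJ] at h4
    omega
  rw [mem_hit] at hqJ
  obtain ⟨y, hyJ, hyq⟩ := hqJ
  have hxy : x ≠ y := fun hh => hxJ (hh ▸ hyJ)
  have hyI : y ∉ I := fun hy => hI x hxI y hy (h.line_clique q hxq hyq hxy)
  have hqm : q ≠ m := by
    rintro rfl
    exact Finset.disjoint_left.1 hJm hyJ hyq
  set J' := insert x (J.erase y) with hJ'
  have hxe : x ∉ J.erase y := fun hx => hxJ (Finset.mem_of_mem_erase hx)
  have hJ'1 : Ind G J' := (hJ.mono (Finset.erase_subset _ _)).insert (fun z hz hxz => by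
    rw [Finset.mem_erase] at hz
    obtain ⟨r, hr1, hr2⟩ := common_line hxz
    rcases hlines r hr1 with rfl | rfl
    · exact hpJ (mem_hit.2 ⟨z, hz.2, hr2⟩)
    · exact hJ z hz.2 y hyJ (h.line_clique r hr2 hyq hz.1))
  have hJ'2 : J'.card = a := by
    rw [Finset.card_insert_of_notMem hxe, Finset.card_erase_of_mem hyJ, hJc]
    have : 0 < J.card := Finset.card_pos.2 ⟨y, hyJ⟩
    omega
  have hJ'3 : Disjoint J' m.1 := by
    rw [Finset.disjoint_left]
    intro z hz hzm
    rcases Finset.mem_insert.1 hz with rfl | hz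
    · rcases hlines m hzm with h5 | h5
      · exact hpm h5.symm
      · exact hqm h5.symm
    · exact Finset.disjoint_left.1 hJm (Finset.mem_of_mem_erase hz) hzm
  have hJ'F : J' ∈ F := Finset.mem_filter.2 ⟨Finset.mem_univ _, hJ'1, hJ'2, hJ'3⟩
  have hmax := hJmax J' hJ'F
  have hsub2 : insert x (I ∩ J) ⊆ I ∩ J' := by
    intro z hz
    rw [Finset.mem_inter]
    rcases Finset.mem_insert.1 hz with rfl | hz
    · exact ⟨hxI, Finset.mem_insert_self _ _⟩
    · rw [Finset.mem_inter] at hz
      refine ⟨hz.1, Finset.mem_insert_of_mem (Finset.mem_erase.2 ⟨?_, hz.2⟩)⟩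
      rintro rfl
      exact hyI hz.1
  have hcard2 := Finset.card_le_card hsub2
  rw [Finset.card_insert_of_notMem (fun hx => hxJ (Finset.mem_inter.1 hx).2)] at hcard2
  omega

/-- any two lines are related -/
lemma rel_all (h : Crit G k a) (l m : Ln G) : Rel G a l m := by
  classical
  obtain ⟨v, hv⟩ := line_nonempty m
  -- the vertices all of whose lines are related to `l`
  let W : Finset V := univ.filter (fun v => ∀ n : Ln G, v ∈ n.1 → Rel G a l n)
  have hWne : W.Nonempty := by
    obtain ⟨x, hx⟩ := line_nonempty l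
    exact ⟨x, Finset.mem_filter.2 ⟨Finset.mem_univ _, fun n hn => h.rel_of_mem hx hn⟩⟩
  have hW : W = univ := by
    by_contra hne
    obtain ⟨x, hx, y, hy, hxy⟩ := h.conn W hWne hne
    apply hy
    refine Finset.mem_filter.2 ⟨Finset.mem_univ _, fun n hn => ?_⟩
    obtain ⟨r, hr1, hr2⟩ := common_line hxy
    exact Rel.trans h ((Finset.mem_filter.1 hx).2 r hr1) (h.rel_of_mem hr2 hn)
  have := Finset.mem_univ v
  rw [← hW, Finset.mem_filter] at this
  exact this.2 m hv

/-- there are exactly `2a + 1` lines -/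
theorem card_lines (h : Crit G k a) : Fintype.card (Ln G) = 2 * a + 1 := by
  classical
  have hk := h.hk
  -- there is a line
  obtain ⟨l⟩ : Nonempty (Ln G) := by
    have hpos : 0 < Fintype.card V := by rw [h.card]; omega
    obtain ⟨v⟩ := Fintype.card_pos_iff.1 hpos
    obtain ⟨l, _⟩ := h.two_lines v
    exact ⟨l⟩
  obtain ⟨I, hI, hIc, hd⟩ := h.miss l.1 (line_nonempty l) (h.line_card l)
  have h1 := h.hit_card hI
  have h2 : (hit G I)ᶜ = {l} := by
    ext m
    rw [Finset.mem_compl, Finset.mem_singleton, mem_hit]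
    constructor
    · intro hno
      push Not at hno
      rcases h.rel_all m l with h3 | h3
      · exact h3
      · exact absurd ⟨Finset.disjoint_left.2 (fun x hx => hno x hx), hd⟩ (h3 I hI hIc)
    · rintro rfl ⟨x, hx, hxl⟩
      exact Finset.disjoint_left.1 hd hx hxl
  have h3 := Finset.card_compl_add_card (hit G I)
  rw [h2, Finset.card_singleton, h1, hIc] at h3
  omega

/-- double counting -/
lemma sum_lines (h : Crit G k a) : ∑ l : Ln G, l.1.card = 2 * Fintype.card V := by
  classical
  have h1 : ∀ l : Ln G, l.1.card = ∑ v : V, if v ∈ l.1 then 1 else 0 := by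
    intro l
    rw [Finset.sum_ite_mem, Finset.univ_inter, Finset.card_eq_sum_ones]
  simp_rw [h1]
  rw [Finset.sum_comm]
  have h2 : ∀ v : V, (∑ l : Ln G, if v ∈ l.1 then 1 else 0) = 2 := by
    intro v
    rw [← h.thr_card v, thr, Finset.card_filter]
  rw [Finset.sum_congr rfl (fun v _ => h2 v), Finset.sum_const, Finset.card_univ, smul_eq_mul,
    mul_comm]

/-- the total deficiency is `k - 3` -/
lemma sum_def (h : Crit G k a) : ∑ l : Ln G, (k - 1 - l.1.card) = k - 3 := by
  have hk := h.hk
  have h1 : ∑ l : Ln G, ((k - 1 - l.1.card) + l.1.card) = (2 * a + 1) * (k - 1) := by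
    rw [Finset.sum_congr rfl (fun l _ => Nat.sub_add_cancel (h.line_card l)), Finset.sum_const,
      Finset.card_univ, h.card_lines, smul_eq_mul]
  rw [Finset.sum_add_distrib, h.sum_lines, h.card] at h1
  have h2 : (2 * a + 1) * (k - 1) = 2 * ((k - 1) * a) + (k - 1) := by ring
  rw [h2] at h1
  omega

end Crit

end Pool.Agent.H82.Cyc
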