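import Mathlib

/-!
# A finite group of norm one elements of a quaternion algebra over a ring with involution
-/

set_option autoImplicit false

namespace Pool.Agent.H82.Cyc

variable {R : Type*} [CommRing R]

/-- the elements `a + j b` of norm one, with `x ∣ a - 1`; here `j² = x` and `j r = s(r) j` -/
@[ext] structure Qn (s : R →+* R) (x : R) where
  /-- first coordinate -/
  a : R
  /-- second coordinate -/
  b : R
  nrm : a * s a - x * b * s b = 1
  one : x ∣ a - 1

/-- `s` is an involution fixing `x` -/
class Invo (s : R →+* R) (x : R) : Prop where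
  hs : ∀ a, s (s a) = a
  hx : s x = x

variable {s : R →+* R} {x : R} [Invo s x]

lemma hs (a : R) (x : R) [Invo s x] : s (s a) = a := Invo.hs (s := s) (x := x) a

instance : Mul (Qn s x) where
  mul g h :=
    { a := g.a * h.a + x * s g.b * h.b
      b := g.b * h.a + s g.a * h.b
      nrm := by
        simp only [map_add, map_mul, hs _ x, Invo.hx (s := s) (x := x)]
        linear_combination (h.a * s h.a - x * h.b * s h.b) * g.nrm + h.nrm
      one := by
        obtain ⟨c, hc⟩ := g.one
        obtain ⟨d, hd⟩ := h.one
        refine ⟨c * h.a + d + s g.b * h.b, ?_⟩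
        linear_combination h.a * hc + hd }

instance : One (Qn s x) where
  one := { a := 1, b := 0, nrm := by simp, one := by simp }

instance : Inv (Qn s x) where
  inv g :=
    { a := s g.a
      b := -g.b
      nrm := by
        rw [hs _ x, map_neg]
        linear_combination g.nrm
      one := by
        obtain ⟨c, hc⟩ := g.one
        refine ⟨s c, ?_⟩
        have := congrArg s hc
        rw [map_mul, Invo.hx (s := s) (x := x), map_sub, map_one] at this
        exact this }

lemma mul_a (g h : Qn s x) : (g * h).a = g.a * h.a + x * s g.b * h.b := rfl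
lemma mul_b (g h : Qn s x) : (g * h).b = g.b * h.a + s g.a * h.b := rfl
omit [Invo s x] in
lemma one_a : (1 : Qn s x).a = 1 := rfl
omit [Invo s x] in
lemma one_b : (1 : Qn s x).b = 0 := rfl
lemma inv_a (g : Qn s x) : (g⁻¹).a = s g.a := rfl
lemma inv_b (g : Qn s x) : (g⁻¹).b = -g.b := rfl

instance : Group (Qn s x) :=
  Group.ofLeftAxioms
    (by
      intro g h k
      ext
      · simp only [mul_a, mul_b, map_add, map_mul, hs _ x]
        ring
      · simp only [mul_a, mul_b, map_add, map_mul, hs _ x, Invo.hx (s := s) (x := x)]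
        ring)
    (by
      intro g
      ext
      · simp only [mul_a, one_a, one_b, map_zero]; ring
      · simp only [mul_b, one_a, one_b, map_one]; ring)
    (by
      intro g
      ext
      · simp only [mul_a, inv_a, inv_b, one_a, map_neg]
        linear_combination g.nrm
      · simp only [mul_b, inv_a, inv_b, one_b, hs _ x]
        ring)

/-- the cardinality of the group: `|P|² ≤ |R|³` -/
lemma Qn_card [Finite R] (h2 : IsUnit (2 : R))
    (hnil : IsNilpotent x) (i : R) (hi : IsUnit i) (hsi : s i = -i) :
    Nat.card (Qn s x) ^ 2 ≤ Nat.card R ^ 3 := by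
  classical
  have hx : s x = x := Invo.hx
  -- the anti-invariant elements
  let A := {r : R // s r = -r}
  have hA : Nat.card A ^ 2 ≤ Nat.card R := by
    rw [sq, ← Nat.card_prod]
    refine Nat.card_le_card_of_injective (fun z : A × A => z.1.1 + i * z.2.1) ?_
    rintro ⟨⟨a, ha⟩, ⟨b, hb⟩⟩ ⟨⟨c, hc⟩, ⟨d, hd⟩⟩ h
    simp only at h
    have h' := congrArg s h
    simp only [map_add, map_mul, hsi, ha, hb, hc, hd] at h'
    have h3 : 2 * a = 2 * c := by linear_combination h - h'
    have h4 : 2 * (i * b) = 2 * (i * d) := by linear_combination h + h'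
    have h5 := h2.mul_left_cancel h3
    have h6 := hi.mul_left_cancel (h2.mul_left_cancel h4)
    subst h5; subst h6; rfl
  have hP : Nat.card (Qn s x) ≤ Nat.card A * Nat.card R := by
    rw [← Nat.card_prod]
    refine Nat.card_le_card_of_injective
      (fun g : Qn s x => ((⟨g.a - s g.a, by
        rw [map_sub, hs _ x]; ring⟩ : A), g.b)) ?_
    intro g h hgh
    simp only [Prod.mk.injEq] at hgh
    obtain ⟨e1', e2⟩ := hgh
    have e1 : g.a - s g.a = h.a - s h.a := congrArg Subtype.val e1'
    obtain ⟨a, g3⟩ := g.one
    obtain ⟨b, h3⟩ := h.one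
    have dg := g.nrm
    have dh := h.nrm
    -- the traces agree
    obtain ⟨S, hS⟩ : ∃ S, S = g.a + s g.a := ⟨_, rfl⟩
    obtain ⟨T, hT⟩ : ∃ T, T = h.a + s h.a := ⟨_, rfl⟩
    have hST : (S - T) * (S + T) = 0 := by
      have q1 : S ^ 2 - (g.a - s g.a) ^ 2 = 4 * (g.a * s g.a) := by
        rw [hS]; ring
      have q2 : T ^ 2 - (h.a - s h.a) ^ 2 = 4 * (h.a * s h.a) := by
        rw [hT]; ring
      rw [e1] at q1
      rw [e2] at dg
      linear_combination q1 - q2 + 4 * dg - 4 * dh
    have hu : IsUnit (S + T) := by
      have : S + T = 2 * (2 * 1) + x * (a + s a + b + s b) := by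
        have q3 : g.a = 1 + x * a := by linear_combination g3
        have q4 : h.a = 1 + x * b := by linear_combination h3
        rw [hS, hT, q3, q4]
        simp only [map_add, map_mul, map_one, hx]
        ring
      rw [this]
      have hu4 : IsUnit (2 * (2 * 1) : R) := h2.mul (h2.mul isUnit_one)
      obtain ⟨u, hu⟩ := hu4
      rw [← hu]
      have : (u : R) + x * (a + s a + b + s b) =
          u * (1 + (x * ((↑u⁻¹ : R) * (a + s a + b + s b)))) := by
        have := u.mul_inv
        linear_combination (-(x * (a + s a + b + s b))) * this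
      rw [this]
      refine u.isUnit.mul ?_
      exact IsNilpotent.isUnit_one_add ((Commute.all _ _).isNilpotent_mul_right hnil)
    have hSeq : S = T := by
      have := hu.mul_left_eq_zero.1 hST
      linear_combination this
    have e4 : g.a = h.a := by
      refine h2.mul_left_cancel ?_
      rw [hS, hT] at hSeq
      linear_combination hSeq + e1
    ext
    · exact e4
    · exact e2
  calc Nat.card (Qn s x) ^ 2 ≤ (Nat.card A * Nat.card R) ^ 2 := Nat.pow_le_pow_left hP 2
    _ = Nat.card A ^ 2 * Nat.card R ^ 2 := by ring
    _ ≤ Nat.card R * Nat.card R ^ 2 := Nat.mul_le_mul_right _ hA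
    _ = Nat.card R ^ 3 := by ring

instance [Finite R] : Finite (Qn s x) := by
  refine Finite.of_injective (fun g : Qn s x => (g.a, g.b)) ?_
  intro g h hgh
  simp only [Prod.mk.injEq] at hgh
  ext
  · exact hgh.1
  · exact hgh.2

end Pool.Agent.H82.Cyc
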