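import Pool.Agent.H82.Cyc.Alg
import Pool.Agent.H82.Cyc.Grp
import Pool.Agent.H82.Cyc.Cay

/-!
# The finite quotients `K[j; σ]/(X^m)` and their generators
-/

set_option autoImplicit false

open Polynomial

namespace Pool.Agent.H82.Cyc

variable {K : Type*} [Field K] (σ : K →+* K) (m : ℕ)

/-- `K[X]/(X^m)` -/
abbrev Rm (K : Type*) [Field K] (m : ℕ) : Type _ := AdjoinRoot (X ^ m : K[X])

/-- reduction modulo `X^m` -/
noncomputable def mk (K : Type*) [Field K] (m : ℕ) : K[X] →+* Rm K m := AdjoinRoot.mk (X ^ m)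

lemma mk_zero_iff (f : K[X]) : mk K m f = 0 ↔ X ^ m ∣ f := AdjoinRoot.mk_eq_zero

/-- the involution of `K[X]/(X^m)` -/
noncomputable def sm : Rm K m →+* Rm K m :=
  AdjoinRoot.map σ (X ^ m) (X ^ m) (by simp)

lemma sm_mk (f : K[X]) : sm σ m (mk K m f) = mk K m (f.map σ) := by
  have : (sm σ m).comp (mk K m) = (mk K m).comp (Polynomial.mapRingHom σ) := by
    apply Polynomial.ringHom_ext
    · intro a
      simp only [RingHom.comp_apply, coe_mapRingHom, Polynomial.map_C, sm, mk]
      rw [AdjoinRoot.mk_C, AdjoinRoot.mk_C, AdjoinRoot.map_of]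
    · simp only [RingHom.comp_apply, coe_mapRingHom, Polynomial.map_X, sm, mk]
      rw [AdjoinRoot.mk_X, AdjoinRoot.map_root]
  exact RingHom.congr_fun this f

lemma mk_surj : Function.Surjective (mk K m) := AdjoinRoot.mk_surjective

lemma invo (hσ : ∀ a, σ (σ a) = a) : Invo (sm σ m) (mk K m X) where
  hs a := by
    obtain ⟨f, rfl⟩ := mk_surj m a
    rw [sm_mk, sm_mk, Polynomial.map_map]
    have : σ.comp σ = RingHom.id K := by ext x; simp [hσ]
    rw [this, Polynomial.map_id]
  hx := by rw [sm_mk, Polynomial.map_X]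

/-- the elements of norm `-1` -/
abbrev Nm {K : Type*} [Field K] (σ : K →+* K) : Type _ := {c : K // c * σ c = -1}

/-- negation -/
def ngt (c : Nm σ) : Nm σ := ⟨-c.1, by rw [map_neg, neg_mul_neg]; exact c.2⟩

variable (p : ℕ)

/-- an inverse square root of `1 + X` modulo `X^m` in odd characteristic `p` -/
noncomputable def tau (K : Type*) [Field K] (m p : ℕ) : Rm K m := mk K m ((1 + X) ^ ((p ^ m - 1) / 2))

lemma tau_sq [Fact p.Prime] [CharP K p] (hp : p ≠ 2) :
    tau K m p * tau K m p * (1 + mk K m X) = 1 := by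
  have hodd : Odd (p ^ m) := ((Fact.out : p.Prime).odd_of_ne_two hp).pow
  obtain ⟨t, ht⟩ := hodd
  have h1 : mk K m (1 + X) = 1 + mk K m X := by rw [map_add, map_one]
  rw [tau, ← h1, ← map_mul, ← map_mul, ← pow_add, ← pow_succ]
  have h2 : (p ^ m - 1) / 2 + (p ^ m - 1) / 2 + 1 = p ^ m := by omega
  rw [h2, add_pow_char_pow, one_pow, map_add, map_one]
  have h3 : mk K m (X ^ p ^ m) = 0 := by
    rw [mk_zero_iff]
    exact pow_dvd_pow _ (Nat.lt_pow_self (Fact.out : p.Prime).one_lt).le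
  rw [h3, add_zero]

lemma sm_tau : sm σ m (tau K m p) = tau K m p := by
  rw [tau, sm_mk]; simp

lemma tau_one : mk K m X ∣ tau K m p - 1 := by
  rw [tau, ← map_one (mk K m), ← map_sub]
  apply _root_.map_dvd
  rw [X_dvd_iff, coeff_sub, coeff_zero_eq_eval_zero, coeff_zero_eq_eval_zero]
  simp

/-- the generators `τ (1 + jγ)` -/
noncomputable def gen [Fact p.Prime] [CharP K p] (hp : p ≠ 2) (c : Nm σ) :
    Qn (sm σ m) (mk K m X) where
  a := tau K m p
  b := tau K m p * mk K m (C c.1)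
  nrm := by
    rw [map_mul, sm_tau, sm_mk, Polynomial.map_C]
    have h1 := tau_sq (K := K) m p hp
    have h2 : mk K m (C c.1) * mk K m (C (σ c.1)) = -1 := by
      rw [← map_mul, ← C_mul, c.2]; simp
    linear_combination h1 - (mk K m X * tau K m p * tau K m p) * h2
  one := tau_one m p

variable [Fact p.Prime] [CharP K p] (hp : p ≠ 2) [Invo (sm σ m) (mk K m X)]

lemma gen_ngt (c : Nm σ) : gen σ m p hp (ngt σ c) = (gen σ m p hp c)⁻¹ := by
  ext
  · rw [inv_a]; exact (sm_tau σ m p).symm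
  · rw [inv_b]
    simp only [gen, ngt, map_neg, mul_neg]

lemma prodw_word (δ : ℕ → Nm σ) (n : ℕ) :
    (prodw (gen σ m p hp) δ n).a = tau K m p ^ n * mk K m (word σ (fun i => (δ i).1) n).1 ∧
    (prodw (gen σ m p hp) δ n).b = tau K m p ^ n * mk K m (word σ (fun i => (δ i).1) n).2 := by
  induction n with
  | zero => simp [prodw, word_zero, one_a, one_b]
  | succ n ih =>
    obtain ⟨h1, h2⟩ := ih
    rw [prodw, mul_a, mul_b, h1, h2, word_succ_fst, word_succ_snd]
    simp only [gen, map_mul, map_add, map_pow, sm_tau, sm_mk]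
    constructor <;> ring

lemma mk_C_inj (hm : 1 ≤ m) : Function.Injective (fun c : K => mk K m (C c)) := by
  intro a b h
  simp only at h
  rw [← sub_eq_zero, ← map_sub, ← C_sub, mk_zero_iff] at h
  have h1 : (X : K[X]) ∣ C (a - b) := (dvd_pow_self _ (by omega)).trans h
  rw [X_dvd_iff, coeff_C_zero] at h1
  exact sub_eq_zero.1 h1

omit [Invo (sm σ m) (mk K m X)] in
include hp in
lemma tau_unit : IsUnit (tau K m p) :=
  IsUnit.of_mul_eq_one (tau K m p * (1 + mk K m X)) (by rw [← mul_assoc]; exact tau_sq m p hp)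

omit [Invo (sm σ m) (mk K m X)] in
lemma gen_inj (hm : 1 ≤ m) : Function.Injective (gen σ m p hp) := by
  intro c d h
  have h1 := congrArg Qn.b h
  simp only [gen] at h1
  exact Subtype.ext (mk_C_inj m hm ((tau_unit m p hp).mul_left_cancel h1))

/-- no short relations between the generators -/
theorem gen_rel (hσ : ∀ a, σ (σ a) = a) (δ : ℕ → Nm σ) (r : ℕ) (hr : 1 ≤ r)
    (hrm : 2 * r ≤ 4 * m - 1) (hred : ∀ i, i + 1 < 2 * r → δ (i + 1) ≠ ngt σ (δ i)) :
    prodw (gen σ m p hp) δ (2 * r) ≠ 1 := by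
  intro h
  obtain ⟨h1, h2⟩ := prodw_word σ m p hp δ (2 * r)
  rw [h, one_a] at h1
  rw [h, one_b] at h2
  have hu : IsUnit (tau K m p ^ (2 * r)) := (tau_unit m p hp).pow _
  have h3 : mk K m (word σ (fun i => (δ i).1) (2 * r)).2 = 0 := by
    rw [eq_comm] at h2
    exact hu.mul_right_eq_zero.1 h2
  have h4 : mk K m (word σ (fun i => (δ i).1) (2 * r)).1 =
      mk K m ((word σ (fun i => (δ i).1) (2 * r)).1.map σ) := by
    have h5 := congrArg (sm σ m) h1
    rw [map_one, map_mul, map_pow, sm_tau, sm_mk] at h5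
    exact hu.mul_left_cancel (h1.symm.trans h5)
  have h2K : (2 : K) ≠ 0 := by
    intro h0
    have h6 : ((2 : ℕ) : K) = 0 := by exact_mod_cast h0
    rw [CharP.cast_eq_zero_iff K p] at h6
    exact hp ((Nat.prime_dvd_prime_iff_eq (Fact.out) Nat.prime_two).1 h6)
  refine no_relation σ hσ h2K m r hr (by omega) (fun i => (δ i).1) (fun i _ => (δ i).2) ?_
    ((mk_zero_iff m _).1 h3) ((mk_zero_iff m _).1 ?_)
  · intro i hi hEq
    exact hred i hi (Subtype.ext hEq)
  · rw [map_sub, h4, sub_self]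

/-- cardinality of `K[X]/(X^m)` -/
lemma card_Rm [Finite K] : Nat.card (Rm K m) = Nat.card K ^ m := by
  have hmon : (X ^ m : K[X]).Monic := monic_X_pow m
  let pb := AdjoinRoot.powerBasis' hmon
  have hfin : Module.finrank K (Rm K m) = m := by
    rw [pb.finrank, AdjoinRoot.powerBasis'_dim, natDegree_X_pow]
  have : Module.Finite K (Rm K m) := .of_basis pb.basis
  rw [Module.natCard_eq_pow_finrank (K := K) (V := Rm K m), hfin]

lemma finite_Rm [Finite K] : Finite (Rm K m) := by
  have hmon : (X ^ m : K[X]).Monic := monic_X_pow m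
  let pb := AdjoinRoot.powerBasis' hmon
  have : Module.Finite K (Rm K m) := .of_basis pb.basis
  exact Module.finite_of_finite K

end Pool.Agent.H82.Cyc
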