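import Pool.Agent.H82.Cyc.Cay

/-!
# Line graphs of graphs of large girth
-/

set_option autoImplicit false

open SimpleGraph

namespace Pool.Agent.H82.Cyc

/-- a periodic sequence of vertices running around a cycle of length `k` -/
lemma cyc_seq {V : Type*} {G : SimpleGraph V} {k : ℕ} (hk : 3 ≤ k) (h : cycleGraph k ⊑ G) :
    ∃ c : ℕ → V, (∀ i, G.Adj (c i) (c (i + 1))) ∧ (∀ i, c (i + k) = c i) ∧
      (∀ i j, c i = c j → i % k = j % k) := by
  rw [cycleGraph_isContained_iff (by omega)] at h
  obtain ⟨v, w, hw, hl⟩ := h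
  have hmod : ∀ i, w.getVert ((i + 1) % k) = w.getVert (i % k + 1) := by
    intro i
    rcases Nat.lt_or_ge (i % k + 1) k with h1 | h1
    · rw [← Nat.mod_add_mod, Nat.mod_eq_of_lt h1]
    · have h2 : i % k < k := Nat.mod_lt _ (by omega)
      have h3 : i % k + 1 = k := by omega
      rw [← Nat.mod_add_mod, h3, Nat.mod_self, w.getVert_zero, ← hl, w.getVert_length]
  refine ⟨fun i => w.getVert (i % k), ?_, ?_, ?_⟩
  · intro i
    simp only
    rw [hmod]
    apply w.adj_getVert_succ
    rw [hl]
    exact Nat.mod_lt _ (by omega)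
  · intro i
    simp
  · intro i j hij
    simp only at hij
    have h1 : i % k < k := Nat.mod_lt _ (by omega)
    have h2 : j % k < k := Nat.mod_lt _ (by omega)
    exact hw.getVert_injOn' (by simp only [Set.mem_ofPred_eq]; omega)
      (by simp only [Set.mem_ofPred_eq]; omega) hij

/-- a lazy walk gives a walk -/
lemma lazy_walk {V : Type*} (G : SimpleGraph V) (z : ℕ → V) (n : ℕ)
    (h : ∀ j < n, z j = z (j + 1) ∨ G.Adj (z j) (z (j + 1))) :
    ∃ p : G.Walk (z 0) (z n), p.length ≤ n := by
  induction n with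
  | zero => exact ⟨Walk.nil, by simp⟩
  | succ n ih =>
    obtain ⟨p, hp⟩ := ih (fun j hj => h j (by omega))
    rcases h n (by omega) with h1 | h1
    · exact ⟨p.copy rfl h1, by rw [Walk.length_copy]; omega⟩
    · exact ⟨p.concat h1, by rw [Walk.length_concat]; omega⟩

/-- the line graph of a graph of girth more than `k` and maximum degree less than `k` has no
cycle of length `k` -/
theorem lineGraph_no_cycle {V : Type*} (H : SimpleGraph V) (k : ℕ) (hk : 3 ≤ k)
    (hdeg : ∀ (v : V) (f : Fin k → V), Function.Injective f → ¬ ∀ i, H.Adj v (f i))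
    (hg : LargeGirth H k) : ¬ (cycleGraph k ⊑ H.lineGraph) := by
  classical
  intro hc
  obtain ⟨c, hadj, hper, hinj⟩ := cyc_seq hk hc
  have hsh : ∀ i, ∃ v : V, v ∈ (c i : Sym2 V) ∧ v ∈ (c (i + 1) : Sym2 V) := fun i =>
    (lineGraph_adj_iff_exists.1 (hadj i)).2
  choose y hy1 hy2 using hsh
  -- a periodic choice of common vertices
  let x : ℕ → V := fun i => y (i % k)
  have hcm : ∀ i, c (i % k) = c i := by
    intro i
    conv_rhs => rw [← Nat.mod_add_div i k]
    generalize i / k = q
    induction q with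
    | zero => simp
    | succ q ih => rw [Nat.mul_succ, ← Nat.add_assoc, hper, ih]
  have hcm1 : ∀ i, c (i % k + 1) = c (i + 1) := by
    intro i
    rw [← hcm (i % k + 1), ← hcm (i + 1), Nat.mod_add_mod]
  have hx1 : ∀ i, x i ∈ (c i : Sym2 V) := fun i => by
    have := hy1 (i % k)
    rwa [hcm] at this
  have hx2 : ∀ i, x i ∈ (c (i + 1) : Sym2 V) := fun i => by
    have := hy2 (i % k)
    rwa [hcm1] at this
  by_cases hall : ∀ i, x i = x (i + 1)
  · -- a star
    have hconst : ∀ i, x i = x 0 := by
      intro i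
      induction i with
      | zero => rfl
      | succ i ih => rw [← hall i, ih]
    have hmem : ∀ i, x 0 ∈ (c i : Sym2 V) := fun i => hconst i ▸ hx1 i
    refine hdeg (x 0) (fun i : Fin k => Sym2.Mem.other (hmem i)) ?_ ?_
    · intro i j hij
      simp only at hij
      have h1 : (c i : Sym2 V) = c j := by
        rw [← Sym2.other_spec (hmem i), ← Sym2.other_spec (hmem j), hij]
      have h2 := hinj i j (Subtype.ext h1)
      rw [Nat.mod_eq_of_lt i.2, Nat.mod_eq_of_lt j.2] at h2
      exact Fin.ext h2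
    · intro i
      rw [← mem_edgeSet, Sym2.other_spec (hmem i)]
      exact (c i).2
  · push Not at hall
    obtain ⟨i, hi⟩ := hall
    -- the edge `c (i+1)` joins `x i` and `x (i+1)`
    have he : (c (i + 1) : Sym2 V) = s(x i, x (i + 1)) :=
      (Sym2.mem_and_mem_iff hi).1 ⟨hx2 i, hx1 (i + 1)⟩
    have hadj' : H.Adj (x i) (x (i + 1)) := by
      rw [← mem_edgeSet, ← he]; exact (c (i + 1)).2
    have hlazy : ∀ j < k - 1, x (i + 1 + j) = x (i + 1 + (j + 1)) ∨
        (H.deleteEdges {s(x i, x (i + 1))}).Adj (x (i + 1 + j)) (x (i + 1 + (j + 1))) := by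
      intro j hj
      by_cases hEq : x (i + 1 + j) = x (i + 1 + (j + 1))
      · exact Or.inl hEq
      · right
        have he' : (c (i + 1 + (j + 1)) : Sym2 V) = s(x (i + 1 + j), x (i + 1 + (j + 1))) :=
          (Sym2.mem_and_mem_iff hEq).1 ⟨hx2 (i + 1 + j), hx1 (i + 1 + (j + 1))⟩
        rw [deleteEdges_adj]
        refine ⟨?_, ?_⟩
        · rw [← mem_edgeSet, ← he']; exact (c _).2
        · rw [Set.mem_singleton_iff, ← he', ← he]
          intro h
          have h2 := hinj _ _ (Subtype.ext h)
          have h3 : (i + 1 + (j + 1)) ≡ (i + 1 + 0) [MOD k] := h2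
          have h4 := Nat.ModEq.add_left_cancel' (i + 1) h3
          have h5 := Nat.ModEq.eq_of_lt_of_lt h4 (by omega) (by omega)
          omega
    obtain ⟨p, hp⟩ := lazy_walk _ (fun j => x (i + 1 + j)) (k - 1) hlazy
    have hend : x (i + 1 + (k - 1)) = x i := by
      rw [show i + 1 + (k - 1) = i + k by omega]
      simp only [x, Nat.add_mod_right]
    have := hg _ _ hadj' (p.copy rfl hend)
    rw [Walk.length_copy] at this
    omega

/-- the line graph of a graph on `2M + 1` vertices has no `M + 1` independent vertices -/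
theorem lineGraph_indep {V : Type*} [Fintype V] (H : SimpleGraph V) (M : ℕ)
    (hV : Fintype.card V = 2 * M + 1) :
    ¬ ((⊤ : SimpleGraph (Fin (M + 1))) ⊑ (H.lineGraph)ᶜ) := by
  classical
  rintro ⟨f⟩
  have hf : ∀ i j, i ≠ j → ∀ v, v ∈ (f i : Sym2 V) → v ∉ (f j : Sym2 V) := by
    intro i j hij v hv hv'
    have h1 : (H.lineGraph)ᶜ.Adj (f i) (f j) := f.toHom.map_adj (by simpa using hij)
    rw [compl_adj, lineGraph_adj_iff_exists] at h1
    exact h1.2 ⟨h1.1, v, hv, hv'⟩
  have hex : ∀ i, ∃ a b : V, a ≠ b ∧ (f i : Sym2 V) = s(a, b) := by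
    intro i
    obtain ⟨⟨a, b⟩, hab⟩ := Quot.exists_rep (f i : Sym2 V)
    have hab' : (f i : Sym2 V) = s(a, b) := hab.symm
    refine ⟨a, b, ?_, hab'⟩
    have := (f i).2
    rw [hab'] at this
    exact (mem_edgeSet H |>.1 this).ne
  choose a b hne hab using hex
  let g : Fin (M + 1) × Bool → V := fun z => if z.2 then a z.1 else b z.1
  have hgm : ∀ z, g z ∈ (f z.1 : Sym2 V) := by
    rintro ⟨i, c⟩
    cases c
    · simp only [g]; rw [hab]; simp
    · simp only [g]; rw [hab]; simp
  have hg : Function.Injective g := by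
    rintro ⟨i, c⟩ ⟨j, d⟩ h
    have hij : i = j := by
      by_contra hij
      have h1 := hgm (i, c)
      have h2 := hgm (j, d)
      rw [h] at h1
      exact hf i j hij _ h1 h2
    subst hij
    have hcd : c = d := by
      cases c <;> cases d
      · rfl
      · simp only [g] at h
        exact absurd h.symm (hne i)
      · simp only [g] at h
        exact absurd h (hne i)
      · rfl
    rw [hcd]
  have := Fintype.card_le_of_injective g hg
  rw [Fintype.card_prod, Fintype.card_fin, Fintype.card_bool, hV] at this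
  omega

end Pool.Agent.H82.Cyc
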