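import Pool.Agent.H82.Cyc.Gallai

/-!
# The graph of lines: maximum degree at most `k - 1`, girth more than `k`
-/

set_option autoImplicit false
set_option linter.unusedSectionVars false

open SimpleGraph Finset

namespace Pool.Agent.H82.Cyc

variable {V : Type*} [Fintype V] [DecidableEq V] {G : SimpleGraph V} {k a : ℕ}

/-- the intersection graph of the lines -/
def HL (G : SimpleGraph V) : SimpleGraph (Ln G) where
  Adj l m := l ≠ m ∧ ∃ v, v ∈ l.1 ∧ v ∈ m.1
  symm := ⟨fun _ _ h => ⟨h.1.symm, by obtain ⟨v, h1, h2⟩ := h.2; exact ⟨v, h2, h1⟩⟩⟩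
  loopless := ⟨fun _ h => h.1 rfl⟩

lemma HL_adj {l m : Ln G} : (HL G).Adj l m ↔ l ≠ m ∧ ∃ v, v ∈ l.1 ∧ v ∈ m.1 := Iff.rfl

namespace Crit

/-- three different lines have no common point -/
lemma not_three (h : Crit G k a) {l m n : Ln G} {v : V} (hl : v ∈ l.1) (hm : v ∈ m.1)
    (hn : v ∈ n.1) : l = m ∨ l = n ∨ m = n := by
  obtain ⟨p, q, _, _, _, hall⟩ := h.two_lines v
  rcases hall l hl with rfl | rfl <;> rcases hall m hm with rfl | rfl <;>
    rcases hall n hn with rfl | rfl <;> simp

lemma HL_deg (h : Crit G k a) (l : Ln G) (f : Fin k → Ln G) (hf : Function.Injective f) :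
    ¬ ∀ i, (HL G).Adj l (f i) := by
  classical
  intro hadj
  have hk := h.hk
  choose hne v hv1 hv2 using hadj
  have hinj : Function.Injective v := by
    intro i j hij
    by_contra hne'
    have h1 := hv2 j
    rw [← hij] at h1
    rcases h.not_three (hv1 i) (hv2 i) h1 with h2 | h2 | h2
    · exact hne i h2
    · exact hne j h2
    · exact hne' (hf h2)
  have h2 : (Finset.univ : Finset (Fin k)).card ≤ l.1.card :=
    Finset.card_le_card_of_injOn v (fun i _ => hv1 i) hinj.injOn
  rw [Finset.card_univ, Fintype.card_fin] at h2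
  have h3 := h.line_card l
  omega

/-- the points of `G` give edges of the graph of lines -/
lemma HL_edges (h : Crit G k a) : ∃ e : V → (HL G).edgeSet, Function.Injective e := by
  classical
  have hex := fun v => h.two_lines v
  choose l m hlm hl hm hall using hex
  refine ⟨fun v => ⟨s(l v, m v), by rw [mem_edgeSet]; exact ⟨hlm v, v, hl v, hm v⟩⟩, ?_⟩
  intro v w hvw
  have h1 := congrArg Subtype.val hvw
  simp only [Sym2.eq_iff] at h1
  by_contra hne
  rcases h1 with ⟨h1, h2⟩ | ⟨h1, h2⟩
  · exact hlm v (h.line_eq hne (hl v) (by rw [h1]; exact hl w) (hm v) (by rw [h2]; exact hm w))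
  · exact hlm v (h.line_eq hne (hl v) (by rw [h1]; exact hm w) (hm v) (by rw [h2]; exact hl w))

/-- growing a cycle inside a union of lines -/
lemma grow (h : Crit G k a) (s : ℕ) (l : ℕ → Ln G) (t : ℕ)
    (hU : s + t ≤ ((Finset.range s).biUnion (fun i => (l i).1)).card)
    (u : V) (L₀ : List V) (hL₀ : CycL G u L₀) (hlen : L₀.length = s)
    (hsub : ∀ x ∈ L₀, x ∈ (Finset.range s).biUnion (fun i => (l i).1))
    (hpair : ∀ i < s, ∃ M₁ M₂ a b, u :: L₀ = M₁ ++ a :: b :: M₂ ∧ a ∈ (l i).1 ∧ b ∈ (l i).1) :
    ∃ L : List V, CycL G u L ∧ L.length = s + t ∧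
      (∀ x ∈ L, x ∈ (Finset.range s).biUnion (fun i => (l i).1)) ∧
      (∀ i < s, ∃ M₁ M₂ a b, u :: L = M₁ ++ a :: b :: M₂ ∧ a ∈ (l i).1 ∧ b ∈ (l i).1) := by
  classical
  induction t with
  | zero => exact ⟨L₀, hL₀, hlen, hsub, hpair⟩
  | succ t ih =>
    obtain ⟨L, hL, hlen', hsub', hpair'⟩ := ih (by omega)
    -- a new point
    obtain ⟨y, hyU, hyL⟩ : ∃ y ∈ (Finset.range s).biUnion (fun i => (l i).1), y ∉ L := by
      by_contra hno
      push Not at hno
      have h1 : (Finset.range s).biUnion (fun i => (l i).1) ⊆ L.toFinset :=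
        fun y hy => List.mem_toFinset.2 (hno y hy)
      have h2 := Finset.card_le_card h1
      have h3 := L.toFinset_card_le
      omega
    rw [Finset.mem_biUnion] at hyU
    obtain ⟨i, hi, hyi⟩ := hyU
    rw [Finset.mem_range] at hi
    obtain ⟨M₁, M₂, p, q, hM, hp, hq⟩ := hpair' i hi
    -- consecutive points are adjacent, and different from `y`
    have hpq : G.Adj p q := by
      have h1 := hL.1
      rw [hM, List.isChain_append, List.isChain_cons_cons] at h1
      exact h1.2.1.1
    have huL : u ∈ L := List.mem_of_getLast? hL.2.2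
    have hpL : p ∈ L := by
      have : p ∈ u :: L := by rw [hM]; simp
      rcases List.mem_cons.1 this with h1 | h1
      · rw [h1]; exact huL
      · exact h1
    have hqL : q ∈ L := by
      have : q ∈ u :: L := by rw [hM]; simp
      rcases List.mem_cons.1 this with h1 | h1
      · rw [h1]; exact huL
      · exact h1
    have hpy : p ≠ y := fun hh => hyL (hh ▸ hpL)
    have hqy : y ≠ q := fun hh => hyL (hh ▸ hqL)
    have hpy' := h.line_clique (l i) hp hyi hpy
    have hyq' := h.line_clique (l i) hyi hq hqy
    obtain ⟨L', hL', hlen'', hM'⟩ := hL.insert hM hyL hpy' hyq'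
    refine ⟨L', hL', by omega, ?_, ?_⟩
    · intro x hx
      have h1 : x ∈ u :: L' := List.mem_cons_of_mem _ hx
      rw [hM'] at h1
      have h2 : x = y ∨ x ∈ u :: L := by
        rw [hM]
        simp only [List.mem_append, List.mem_cons] at h1 ⊢
        tauto
      rcases h2 with rfl | h2
      · exact Finset.mem_biUnion.2 ⟨i, Finset.mem_range.2 hi, hyi⟩
      · rcases List.mem_cons.1 h2 with rfl | h2
        · exact hsub' x huL
        · exact hsub' x h2
    · intro j hj
      obtain ⟨N₁, N₂, c, d, hN, hc, hd⟩ := hpair' j hj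
      by_cases hEq : l j = l i
      · exact ⟨M₁, q :: M₂, p, y, hM', by rw [hEq]; exact hp, by rw [hEq]; exact hyi⟩
      · -- the pair `c d` is still consecutive
        have hcd : G.Adj c d := by
          have h1 := hL.1
          rw [hN, List.isChain_append, List.isChain_cons_cons] at h1
          exact h1.2.1.1
        rw [hM'] at *
        -- compare the two decompositions
        have hdec : M₁ ++ p :: q :: M₂ = N₁ ++ c :: d :: N₂ := hM.symm.trans hN
        rw [List.append_eq_append_iff] at hdec
        rcases hdec with ⟨A, hA1, hA2⟩ | ⟨A, hA1, hA2⟩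
        · -- `N₁ = M₁ ++ A`, `p :: q :: M₂ = A ++ c :: d :: N₂`
          match A, hA1, hA2 with
          | [], hA1, hA2 =>
            simp only [List.nil_append, List.cons.injEq] at hA2
            obtain ⟨rfl, rfl, rfl⟩ := hA2
            exact absurd (h.line_eq hcd.ne hc hd hp hq) hEq
          | [z], hA1, hA2 =>
            simp only [List.cons_append, List.nil_append, List.cons.injEq] at hA2
            obtain ⟨rfl, rfl, rfl⟩ := hA2
            exact ⟨M₁ ++ [p, y], N₂, q, d, by simp, hc, hd⟩
          | z :: w :: A', hA1, hA2 =>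
            simp only [List.cons_append, List.cons.injEq] at hA2
            obtain ⟨rfl, rfl, rfl⟩ := hA2
            exact ⟨M₁ ++ p :: y :: q :: A', N₂, c, d, by simp, hc, hd⟩
        · -- `M₁ = N₁ ++ A`, `c :: d :: N₂ = A ++ p :: q :: M₂`
          match A, hA1, hA2 with
          | [], hA1, hA2 =>
            simp only [List.nil_append, List.cons.injEq] at hA2
            obtain ⟨rfl, rfl, rfl⟩ := hA2
            exact absurd (h.line_eq hcd.ne hc hd hp hq) hEq
          | [z], hA1, hA2 =>
            simp only [List.cons_append, List.nil_append, List.cons.injEq] at hA2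
            obtain ⟨rfl, rfl, rfl⟩ := hA2
            exact ⟨N₁, y :: q :: M₂, c, d, by rw [hA1]; simp, hc, hd⟩
          | z :: w :: A', hA1, hA2 =>
            simp only [List.cons_append, List.cons.injEq] at hA2
            obtain ⟨rfl, rfl, rfl⟩ := hA2
            exact ⟨N₁, A' ++ p :: y :: q :: M₂, c, d, by rw [hA1]; simp, hc, hd⟩

/-- the union of `s ≥ 3` different lines has at least `k` points -/
lemma union_card (h : Crit G k a) (s : ℕ) (hs : 3 ≤ s) (l : ℕ → Ln G)
    (hinj : ∀ i j, i < s → j < s → l i = l j → i = j) :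
    k ≤ ((Finset.range s).biUnion (fun i => (l i).1)).card := by
  classical
  have hk := h.hk
  set U := (Finset.range s).biUnion (fun i => (l i).1) with hU
  have hinj' : Set.InjOn l (Finset.range s : Set ℕ) := by
    intro i hi j hj hij
    rw [Finset.coe_range, Set.mem_Iio] at hi hj
    exact hinj i j hi hj hij
  -- deficiency
  have h1 : ∑ i ∈ Finset.range s, (k - 1 - (l i).1.card) ≤ k - 3 := by
    rw [← h.sum_def, ← Finset.sum_image (f := fun m : Ln G => k - 1 - m.1.card) hinj']
    exact Finset.sum_le_sum_of_subset (Finset.subset_univ _)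
  have h2 : s * (k - 1) ≤ (k - 3) + ∑ i ∈ Finset.range s, (l i).1.card := by
    have h3 : ∑ i ∈ Finset.range s, ((k - 1 - (l i).1.card) + (l i).1.card) = s * (k - 1) := by
      rw [Finset.sum_congr rfl (fun i _ => Nat.sub_add_cancel (h.line_card (l i))),
        Finset.sum_const, Finset.card_range, smul_eq_mul]
    rw [Finset.sum_add_distrib] at h3
    omega
  -- every point is on at most two lines
  have h4 : ∑ i ∈ Finset.range s, (l i).1.card ≤ 2 * U.card := by
    have e1 : ∀ i ∈ Finset.range s, (l i).1.card = ∑ v ∈ U, if v ∈ (l i).1 then 1 else 0 := by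
      intro i hi
      have : (l i).1 ⊆ U := fun x hx => Finset.mem_biUnion.2 ⟨i, hi, hx⟩
      rw [Finset.sum_ite_mem, Finset.inter_eq_right.2 this, Finset.card_eq_sum_ones]
    rw [Finset.sum_congr rfl e1, Finset.sum_comm, mul_comm, ← smul_eq_mul, ← Finset.sum_const]
    apply Finset.sum_le_sum
    intro v _
    rw [← Finset.card_filter, ← h.thr_card v]
    refine Finset.card_le_card_of_injOn l ?_ ?_
    · intro i hi
      rw [Finset.coe_filter, Set.mem_ofPred_eq] at hi
      exact mem_thr.2 hi.2
    · intro i hi j hj hij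
      rw [Finset.coe_filter, Set.mem_ofPred_eq, Finset.mem_range] at hi hj
      exact hinj i j hi.1 hj.1 hij
  have h5 : 3 * (k - 1) ≤ s * (k - 1) := Nat.mul_le_mul_right _ hs
  omega

/-- the graph of lines has girth more than `k` -/
theorem HL_girth (h : Crit G k a) (m : Ln G) (w : (HL G).Walk m m) (hw : w.IsCycle) :
    k < w.length := by
  classical
  have hk := h.hk
  by_contra hlt
  push Not at hlt
  set s := w.length with hs
  have hs3 : 3 ≤ s := hw.three_le_length
  have hcont : cycleGraph s ⊑ HL G := (cycleGraph_isContained_iff (by omega)).2 ⟨m, w, hw, hs.symm⟩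
  obtain ⟨c, hadj, hper, hinj⟩ := cyc_seq hs3 hcont
  -- common points
  have hex : ∀ i, ∃ v, v ∈ (c i).1 ∧ v ∈ (c (i + 1)).1 := fun i => (hadj i).2
  choose y hy1 hy2 using hex
  let x : ℕ → V := fun i => y (i % s)
  have hcm : ∀ i, c (i % s) = c i := by
    intro i
    conv_rhs => rw [← Nat.mod_add_div i s]
    generalize i / s = q
    induction q with
    | zero => simp
    | succ q ih => rw [Nat.mul_succ, ← Nat.add_assoc, hper, ih]
  have hcm1 : ∀ i, c (i % s + 1) = c (i + 1) := by
    intro i
    rw [← hcm (i % s + 1), ← hcm (i + 1), Nat.mod_add_mod]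
  have hx1 : ∀ i, x i ∈ (c i).1 := fun i => by
    have := hy1 (i % s)
    rwa [hcm] at this
  have hx2 : ∀ i, x i ∈ (c (i + 1)).1 := fun i => by
    have := hy2 (i % s)
    rwa [hcm1] at this
  have hxper : x s = x 0 := by simp only [x, Nat.mod_self, Nat.zero_mod]
  -- the points are different
  have hxinj : ∀ i j, x i = x j → i % s = j % s := by
    intro i j hij
    by_contra hne
    have p1 := hx1 i
    have p2 := hx2 i
    have p3 := hx1 j
    have p4 := hx2 j
    rw [← hij] at p3 p4
    have e1 : (i + 1) % s ≠ i % s := by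
      intro hh
      have h1 : (i + 1) ≡ (i + 0) [MOD s] := hh
      have h2 := Nat.ModEq.add_left_cancel' i h1
      have h3 := Nat.ModEq.eq_of_lt_of_lt h2 (by omega) (by omega)
      omega
    -- `c i`, `c (i+1)`, `c j` : so `c j = c (i+1)`, and `c (j+1) = c i`
    have q1 : c j = c (i + 1) := by
      rcases h.not_three p1 p2 p3 with h1 | h1 | h1
      · exact absurd (hinj _ _ h1).symm e1
      · exact absurd (hinj _ _ h1) hne
      · exact h1.symm
    have q2 : c (j + 1) = c i := by
      rcases h.not_three p1 p2 p4 with h1 | h1 | h1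
      · exact absurd (hinj _ _ h1).symm e1
      · exact h1.symm
      · have h2 := hinj _ _ h1
        have h3 : (i + 1) ≡ (j + 1) [MOD s] := h2
        exact absurd (Nat.ModEq.add_right_cancel' 1 h3) hne
    have r1 : j ≡ i + 1 [MOD s] := hinj _ _ q1
    have r2 : j + 1 ≡ i [MOD s] := hinj _ _ q2
    have r3 : i + 1 + 1 ≡ i + 0 [MOD s] := (r1.symm.add_right 1).trans r2
    have r4 : 2 ≡ 0 [MOD s] := by
      have := Nat.ModEq.add_left_cancel' i (show i + 2 ≡ i + 0 [MOD s] from r3)
      exact this
    have r5 := Nat.ModEq.eq_of_lt_of_lt r4 (by omega) (by omega)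
    omega
  have hxadj : ∀ i, G.Adj (x i) (x (i + 1)) := by
    intro i
    refine h.line_clique (c (i + 1)) (hx2 i) (hx1 (i + 1)) ?_
    intro hh
    have h1 : i + 0 ≡ i + 1 [MOD s] := hxinj i (i + 1) hh
    have h2 := Nat.ModEq.add_left_cancel' i h1
    have h3 := Nat.ModEq.eq_of_lt_of_lt h2 (by omega) (by omega)
    omega
  -- the initial closed walk
  let L₀ : List V := (List.range s).map (fun i => x (i + 1))
  have hcons : x 0 :: L₀ = (List.range (s + 1)).map x := by
    rw [List.range_succ_eq_map, List.map_cons, List.map_map]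
    rfl
  have hL₀ : CycL G (x 0) L₀ := by
    refine ⟨?_, ?_, ?_⟩
    · rw [hcons, List.isChain_iff_getElem]
      intro i hi
      simp only [List.getElem_map, List.getElem_range]
      exact hxadj i
    · refine List.Nodup.map_on ?_ List.nodup_range
      intro i hi j hj hij
      rw [List.mem_range] at hi hj
      have h1 : i + 1 ≡ j + 1 [MOD s] := hxinj _ _ hij
      exact Nat.ModEq.eq_of_lt_of_lt (Nat.ModEq.add_right_cancel' 1 h1) hi hj
    · rw [List.getLast?_eq_getElem?, List.length_map, List.length_range, List.getElem?_map,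
        List.getElem?_range (by omega), Option.map_some, Nat.sub_add_cancel (by omega), hxper]
  obtain ⟨L, hL, hlen, -, -⟩ := h.grow s (fun i => c (i + 1)) (k - s) (by
      refine le_trans (le_of_eq (by omega)) (h.union_card s hs3 _ ?_)
      intro i j hi hj hij
      have h1 : i + 1 ≡ j + 1 [MOD s] := hinj _ _ hij
      exact Nat.ModEq.eq_of_lt_of_lt (Nat.ModEq.add_right_cancel' 1 h1) hi hj)
    (x 0) L₀ hL₀ (by simp [L₀]) (by
      intro z hz
      simp only [L₀, List.mem_map, List.mem_range] at hz
      obtain ⟨i, hi, rfl⟩ := hz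
      exact Finset.mem_biUnion.2 ⟨i, Finset.mem_range.2 hi, hx1 (i + 1)⟩)
    (by
      intro i hi
      refine ⟨(List.range i).map x, (List.range (s - 1 - i)).map (fun j => x (i + 2 + j)), x i,
        x (i + 1), ?_, hx2 i, hx1 (i + 1)⟩
      rw [hcons]
      apply List.ext_getElem
      · simp only [List.length_map, List.length_range, List.length_append, List.length_cons]
        omega
      · intro j hj1 hj2
        simp only [List.getElem_map, List.getElem_range]
        rcases Nat.lt_trichotomy j i with hji | hji | hji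
        · rw [List.getElem_append_left (by simpa using hji)]
          simp
        · subst hji
          rw [List.getElem_append_right (by simp)]
          simp
        · rw [List.getElem_append_right (by simp; omega)]
          simp only [List.length_map, List.length_range]
          obtain ⟨d, rfl⟩ : ∃ d, j = i + 1 + d := ⟨j - i - 1, by omega⟩
          match d with
          | 0 => simp [show i + 1 + 0 - i = 1 by omega]
          | d + 1 =>
            simp only [show i + 1 + (d + 1) - i = d + 1 + 1 by omega, List.getElem_cons_succ,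
              List.getElem_map, List.getElem_range]
            congr 1
            omega)
  exact h.cyc (hL.copy hk (by omega))

end Crit

end Pool.Agent.H82.Cyc
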