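import Pool.Agent.H82.Cyc.Gen
import Pool.Agent.H82.Cyc.Fld
import Pool.Agent.H82.Cyc.Ram

/-!
# The lower bound
-/

set_option autoImplicit false

open SimpleGraph Polynomial

namespace Pool.Agent.H82.Cyc

lemma LargeGirth.mono {V : Type*} {H : SimpleGraph V} {L L' : ℕ} (h : LargeGirth H L)
    (hL : L' ≤ L) : LargeGirth H L' := fun u v huv p => hL.trans (h u v huv p)

/-- **The construction.** -/
theorem graph_main (p k m : ℕ) [Fact p.Prime] (hp : p ≠ 2) (hk : 3 ≤ k) (hkp : k ≤ p + 2)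
    (hm : 1 ≤ m) (hkm : k ≤ 4 * m - 1) :
    ∃ M, M ≤ p ^ (3 * m) ∧ ∃ (W : Type) (_ : Fintype W) (H : SimpleGraph W),
      Fintype.card W = 2 * M + 1 ∧
      (∀ (v : W) (f : Fin k → W), Function.Injective f → ¬ ∀ i, H.Adj v (f i)) ∧
      LargeGirth H k ∧ (k - 1) * M + 1 ≤ Nat.card H.edgeSet := by
  classical
  have hchar : CharP (K2 p) p := inferInstance
  have hinv : Invo (sm (fr p) m) (mk (K2 p) m X) := invo (fr p) m (fr_fr p)
  have hfinR : Finite (Rm (K2 p) m) := finite_Rm m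
  let G := Qn (sm (fr p) m) (mk (K2 p) m X)
  have : Fintype G := Fintype.ofFinite _
  have hcardR : Nat.card (Rm (K2 p) m) = p ^ (2 * m) := by
    rw [card_Rm, GaloisField.card p 2 (by norm_num), ← pow_mul]
  -- size of `G`
  have hp0 : 0 < p := (Fact.out : p.Prime).pos
  have hGcard : Nat.card G ≤ p ^ (3 * m) := by
    obtain ⟨i, hi0, hi⟩ := exists_anti p
    have hK2 : (2 : K2 p) ≠ 0 := by
      intro h0
      have h6 : ((2 : ℕ) : K2 p) = 0 := by exact_mod_cast h0
      rw [CharP.cast_eq_zero_iff (K2 p) p] at h6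
      exact hp ((Nat.prime_dvd_prime_iff_eq (Fact.out) Nat.prime_two).1 h6)
    have h2 : IsUnit (2 : Rm (K2 p) m) := by
      have h3 : (2 : Rm (K2 p) m) = mk (K2 p) m (C 2) := by
        rw [show (C (2 : K2 p) : (K2 p)[X]) = 2 from map_ofNat C 2]
        exact (map_ofNat (mk (K2 p) m) 2).symm
      rw [h3]
      exact ((isUnit_iff_ne_zero.2 hK2).map C).map (mk (K2 p) m)
    have hnil : IsNilpotent (mk (K2 p) m X) := ⟨m, by
      rw [← map_pow, mk_zero_iff]⟩
    have h1 := Qn_card (s := sm (fr p) m) (x := mk (K2 p) m X) h2 hnil (mk (K2 p) m (C i))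
      (((isUnit_iff_ne_zero.2 hi0).map C).map (mk (K2 p) m)) (by
        rw [sm_mk, Polynomial.map_C, hi, C_neg, map_neg])
    rw [hcardR] at h1
    have h4 : Nat.card G ^ 2 ≤ (p ^ (3 * m)) ^ 2 := by
      calc Nat.card G ^ 2 ≤ (p ^ (2 * m)) ^ 3 := h1
        _ = (p ^ (3 * m)) ^ 2 := by rw [← pow_mul, ← pow_mul]; congr 1; ring
    exact (Nat.pow_le_pow_iff_left (by norm_num)).1 h4
  -- the generators
  have hcN := card_norm p hp
  have : Fintype (Nm (fr p)) := Fintype.ofFinite _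
  have hcN' : k - 1 ≤ (Finset.univ : Finset (Nm (fr p))).card := by
    rw [Finset.card_univ, ← Nat.card_eq_fintype_card]
    exact le_trans (by omega) hcN
  obtain ⟨Γ, -, hΓ⟩ := Finset.exists_subset_card_eq hcN'
  let g : Nm (fr p) → G := gen (fr p) m p hp
  have hginj : Function.Injective g := gen_inj (fr p) m p hp hm
  let H : SimpleGraph (G × Bool) := cay g (Γ : Set (Nm (fr p)))
  have hgirth : LargeGirth H k := by
    refine LargeGirth.mono (cay_girth (ngt (fr p)) g (gen_ngt (fr p) m p hp) _ (4 * m - 1) ?_) hkm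
    intro δ r hr hrm hred
    exact gen_rel (fr p) m p hp (fr_fr p) δ r hr hrm hred
  have hdeg : ∀ (v : G × Bool) (f : Fin k → G × Bool), Function.Injective f →
      ¬ ∀ i, H.Adj v (f i) := by
    intro v f hf hadj
    have hex : ∀ i, ∃ c ∈ Γ, (f i).2 = !v.2 ∧
        (f i).1 = (if v.2 = false then v.1 * g c else v.1 * (g c)⁻¹) := by
      intro i
      rcases (show cayAdj g (Γ : Set (Nm (fr p))) v (f i) from hadj i) with
        ⟨h1, h2, c, hc, h3⟩ | ⟨h1, h2, c, hc, h3⟩
      · exact ⟨c, hc, by rw [h1, h2]; rfl, by rw [if_pos h1, h3]⟩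
      · refine ⟨c, hc, by rw [h1, h2]; rfl, ?_⟩
        rw [if_neg (by rw [h2]; decide), h3, mul_assoc, mul_inv_cancel, mul_one]
    choose c hc h1 h2 using hex
    have hcinj : Function.Injective c := by
      intro i j hij
      apply hf
      apply Prod.ext
      · rw [h2, h2, hij]
      · rw [h1, h1]
    have h3 : (Finset.univ : Finset (Fin k)).card ≤ Γ.card :=
      Finset.card_le_card_of_injOn c (fun i _ => hc i) hcinj.injOn
    rw [Finset.card_univ, Fintype.card_fin, hΓ] at h3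
    omega
  -- edges
  have hΓne : Γ.Nonempty := Finset.card_pos.1 (by omega)
  obtain ⟨c₀, hc₀⟩ := hΓne
  let ι := G × Γ
  let e : ι → Sym2 (G × Bool) := fun z => s((z.1, false), (z.1 * g z.2.1, true))
  have he : Function.Injective e := by
    rintro ⟨x, c⟩ ⟨y, d⟩ h
    simp only [e, Sym2.eq_iff, Prod.mk.injEq, Bool.false_eq_true, and_false, and_true,
      or_false, reduceCtorEq] at h
    obtain ⟨h1, h2⟩ := h
    subst h1
    have h3 := hginj (mul_left_cancel h2)
    rw [Subtype.ext h3]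
  have heH : ∀ z, e z ∈ H.edgeSet := by
    rintro ⟨x, c⟩
    rw [mem_edgeSet]
    exact Or.inl ⟨rfl, rfl, c.1, c.2, rfl⟩
  let i₀ : ι := (1, ⟨c₀, hc₀⟩)
  let l : G × Bool := (1, false)
  let r : G × Bool := (1 * g c₀, true)
  have hi₀ : e i₀ = s(l, r) := rfl
  have hlr : H.Adj l r := by
    have := heH i₀
    rwa [hi₀, mem_edgeSet] at this
  obtain ⟨e', he'⟩ := subd_edges H e he heH i₀ l r hi₀
  refine ⟨Fintype.card G, by rw [← Nat.card_eq_fintype_card]; exact hGcard,
    Option (G × Bool), inferInstance, subd H l r, ?_, subd_deg H l r hlr k hk hdeg,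
    subd_girth H l r hlr k hgirth, ?_⟩
  · rw [Fintype.card_option, Fintype.card_prod, Fintype.card_bool]
    ring
  · have h1 : Nat.card (Option ι) ≤ Nat.card (subd H l r).edgeSet :=
      Nat.card_le_card_of_injective e' he'
    rw [Nat.card_eq_fintype_card, Fintype.card_option, Fintype.card_prod, Fintype.card_coe,
      hΓ] at h1
    rw [mul_comm]
    exact h1

/-- the line graph -/
theorem bad_main (p k m : ℕ) [Fact p.Prime] (hp : p ≠ 2) (hk : 3 ≤ k) (hkp : k ≤ p + 2)
    (hm : 1 ≤ m) (hkm : k ≤ 4 * m - 1) :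
    ∃ M, M ≤ p ^ (3 * m) ∧ Bad k M ((k - 1) * M + 1) := by
  classical
  obtain ⟨M, hM, W, _, H, hW, hdeg, hg, hE⟩ := graph_main p k m hp hk hkp hm hkm
  have : Fintype H.edgeSet := Fintype.ofFinite _
  refine ⟨M, hM, H.edgeSet, this, H.lineGraph, ?_,
    lineGraph_no_cycle _ k hk hdeg hg, lineGraph_indep H M hW⟩
  have h1 : Nat.card H.edgeSet = @Fintype.card _ this := @Nat.card_eq_fintype_card _ this
  omega

/-- explicit form -/
theorem explicit (k n : ℕ) (hk : 3 ≤ k) (hn : (2 * k) ^ (3 * (k / 4 + 1)) < n) :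
    (k - 1) * (n - 1) + 1 < ramseyCK k n := by
  obtain ⟨p, hp, hkp, hp2⟩ := Nat.exists_prime_lt_and_le_two_mul k (by omega)
  have : Fact p.Prime := ⟨hp⟩
  obtain ⟨M, hM, hbad⟩ := bad_main p k (k / 4 + 1) (by omega) hk (by omega) (by omega) (by omega)
  have h1 : M ≤ (2 * k) ^ (3 * (k / 4 + 1)) := hM.trans (Nat.pow_le_pow_left hp2 _)
  obtain ⟨t, rfl⟩ : ∃ t, n = M + t + 1 := ⟨n - M - 1, by omega⟩
  have h2 := (hbad.add hk t).not_arrow
  have h3 := lt_ramseyCK h2
  rw [show (k - 1) * (M + t + 1 - 1) + 1 = (k - 1) * M + 1 + t * (k - 1) by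
    rw [Nat.add_sub_cancel]; ring]
  exact h3

end Pool.Agent.H82.Cyc
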