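import Pool.Agent.H82.Cyc.Cay

/-!
# A Moore bound for nearly regular graphs of large girth
-/

set_option autoImplicit false
set_option linter.unusedSectionVars false

open SimpleGraph Finset

namespace Pool.Agent.H82.Cyc

variable {V : Type*} [Fintype V] [DecidableEq V] (H : SimpleGraph V)

open Classical in
/-- vertices at distance at most `j` from `v₀` -/
noncomputable def bal (v₀ : V) (j : ℕ) : Finset V :=
  univ.filter (fun u => ∃ p : H.Walk v₀ u, p.length ≤ j)

variable {H}

lemma mem_bal {v₀ u : V} {j : ℕ} : u ∈ bal H v₀ j ↔ ∃ p : H.Walk v₀ u, p.length ≤ j := by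
  simp [bal]

lemma bal_mono {v₀ : V} {i j : ℕ} (hij : i ≤ j) : bal H v₀ i ⊆ bal H v₀ j := by
  intro u hu
  rw [mem_bal] at hu ⊢
  obtain ⟨p, hp⟩ := hu
  exact ⟨p, hp.trans hij⟩

lemma bal_adj {v₀ u w : V} {j : ℕ} (hu : u ∈ bal H v₀ j) (huw : H.Adj u w) :
    w ∈ bal H v₀ (j + 1) := by
  rw [mem_bal] at hu ⊢
  obtain ⟨p, hp⟩ := hu
  exact ⟨p.concat huw, by rw [Walk.length_concat]; omega⟩

/-- a walk avoiding the vertex `u` lifts to the graph without the edge `uw` -/
lemma lift_walk {u w x y : V} (p : H.Walk x y) (hp : u ∉ p.support) :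
    ∃ q : (H.deleteEdges {s(u, w)}).Walk x y, q.length = p.length := by
  refine ⟨p.toDeleteEdges _ ?_, by simp⟩
  intro e he
  rw [Set.mem_singleton_iff]
  rintro rfl
  exact hp (p.fst_mem_support_of_mem_edges he)

/-- **uniqueness of the parent** -/
lemma unique_parent {k : ℕ} (hg : LargeGirth H k) {v₀ u w w' : V} {j : ℕ} (hj : 1 ≤ j)
    (hu : u ∉ bal H v₀ (j - 1)) (hw : w ∈ bal H v₀ j) (hw' : w' ∈ bal H v₀ j)
    (huw : H.Adj u w) (huw' : H.Adj u w') (hne : w ≠ w') : k ≤ 2 * j + 1 := by
  classical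
  rw [mem_bal] at hw hw'
  obtain ⟨p, hp⟩ := hw
  obtain ⟨p', hp'⟩ := hw'
  have avoid : ∀ {z : V} (q : H.Walk v₀ z), q.length ≤ j → z ≠ u → u ∉ q.support := by
    intro z q hq hzu hmem
    apply hu
    rw [mem_bal]
    refine ⟨q.takeUntil u hmem, ?_⟩
    have := q.length_takeUntil_lt_length hmem hzu.symm
    omega
  have h1 := avoid p hp huw.ne.symm
  have h2 := avoid p' hp' huw'.ne.symm
  obtain ⟨q, hq⟩ := lift_walk (w := w) p.reverse (by rwa [Walk.support_reverse, List.mem_reverse])
  obtain ⟨q', hq'⟩ := lift_walk (w := w) p' h2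
  have hlast : (H.deleteEdges {s(u, w)}).Adj w' u := by
    rw [deleteEdges_adj, Set.mem_singleton_iff]
    refine ⟨huw'.symm, ?_⟩
    rw [Sym2.eq_swap]
    intro h
    rw [Sym2.eq_iff] at h
    rcases h with ⟨_, h⟩ | ⟨h, _⟩
    · exact hne h.symm
    · exact huw.ne h
  have := hg u w huw ((q.append q').concat hlast)
  rw [Walk.length_concat, Walk.length_append, hq, hq', Walk.length_reverse] at this
  omega

theorem moore [DecidableRel H.Adj] (k M : ℕ) (hk : 3 ≤ k) (hV : Fintype.card V = 2 * M + 1)
    (hdeg : ∀ v, H.degree v ≤ k - 1) (hE : (k - 1) * M + 1 ≤ H.edgeFinset.card)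
    (hg : LargeGirth H k) : (k - 2) ^ (k / 2) + 1 ≤ 2 * M + 1 := by
  classical
  -- total deficiency
  have hsum := H.sum_degrees_eq_twice_card_edges
  have hdef : ∑ u : V, (k - 1 - H.degree u) ≤ k - 3 := by
    have h1 : ∑ u : V, ((k - 1 - H.degree u) + H.degree u) = (2 * M + 1) * (k - 1) := by
      rw [Finset.sum_congr rfl (fun u _ => Nat.sub_add_cancel (hdeg u)), Finset.sum_const,
        Finset.card_univ, hV, smul_eq_mul]
    rw [Finset.sum_add_distrib, hsum] at h1
    have h2 : (2 * M + 1) * (k - 1) = 2 * ((k - 1) * M) + (k - 1) := by ring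
    omega
  -- a vertex of full degree
  obtain ⟨v₀, hv₀⟩ : ∃ v₀, H.degree v₀ = k - 1 := by
    by_contra hno
    push Not at hno
    have h1 : ∀ u ∈ (univ : Finset V), 1 ≤ k - 1 - H.degree u := by
      intro u _
      have := hdeg u
      have := hno u
      omega
    have h2 : (2 * M + 1) ≤ k - 3 := by
      refine le_trans ?_ hdef
      calc 2 * M + 1 = ∑ _u : V, 1 := by rw [Finset.sum_const, Finset.card_univ, hV]; simp
        _ ≤ _ := Finset.sum_le_sum h1
    have h3 : H.edgeFinset.card ≤ (Fintype.card V).choose 2 := H.card_edgeFinset_le_card_choose_two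
    rw [hV, Nat.choose_two_right, Nat.add_sub_cancel] at h3
    have h4 : (2 * M + 1) * (2 * M) / 2 = (2 * M + 1) * M := by
      rw [show (2 * M + 1) * (2 * M) = 2 * ((2 * M + 1) * M) by ring]
      exact Nat.mul_div_cancel_left _ (by norm_num)
    rw [h4] at h3
    have h5 : (2 * M + 1) * M ≤ (k - 1) * M := Nat.mul_le_mul_right _ (by omega)
    omega
  -- spheres
  let S : ℕ → Finset V := fun i => bal H v₀ i \ bal H v₀ (i - 1)
  have hb0 : bal H v₀ 0 = {v₀} := by
    ext u
    rw [mem_bal, Finset.mem_singleton]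
    constructor
    · rintro ⟨p, hp⟩
      exact (Walk.eq_of_length_eq_zero (p := p) (by omega)).symm
    · rintro rfl
      exact ⟨Walk.nil, by simp⟩
  have hS1 : (S 1).card = k - 1 := by
    have : S 1 = H.neighborFinset v₀ := by
      ext u
      simp only [S, Nat.sub_self, Finset.mem_sdiff, hb0, Finset.mem_singleton,
        mem_neighborFinset]
      constructor
      · rintro ⟨h1, h2⟩
        rw [mem_bal] at h1
        obtain ⟨p, hp⟩ := h1
        match p, hp with
        | Walk.nil, _ => exact absurd rfl h2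
        | Walk.cons hadj q, hp =>
          rw [Walk.length_cons] at hp
          have := Walk.eq_of_length_eq_zero (p := q) (by omega)
          rw [← this]
          exact hadj
      · intro h
        refine ⟨?_, h.ne.symm⟩
        rw [mem_bal]
        exact ⟨Walk.cons h Walk.nil, by simp⟩
    rw [this, card_neighborFinset_eq_degree, hv₀]
  have hstep : ∀ i, 1 ≤ i → 2 * i + 1 < k →
      (k - 2) * (S i).card ≤ (S (i + 1)).card + ∑ u ∈ S i, (k - 1 - H.degree u) := by
    intro i hi hik
    -- edges between the spheres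
    have e1 : ∀ u ∈ S i, H.degree u - 1 ≤ (H.neighborFinset u ∩ S (i + 1)).card := by
      intro u hu
      rw [Finset.mem_sdiff] at hu
      have h1 : (H.neighborFinset u ∩ bal H v₀ i).card ≤ 1 := by
        rw [Finset.card_le_one]
        intro w hw w' hw'
        by_contra hne
        rw [Finset.mem_inter, mem_neighborFinset] at hw hw'
        have := unique_parent hg hi hu.2 hw.2 hw'.2 hw.1 hw'.1 hne
        omega
      have h2 : H.neighborFinset u \ bal H v₀ i ⊆ H.neighborFinset u ∩ S (i + 1) := by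
        intro w hw
        rw [Finset.mem_sdiff, mem_neighborFinset] at hw
        rw [Finset.mem_inter, mem_neighborFinset, Finset.mem_sdiff]
        exact ⟨hw.1, bal_adj hu.1 hw.1, by simpa using hw.2⟩
      have h3 := Finset.card_sdiff_add_card_inter (H.neighborFinset u) (bal H v₀ i)
      rw [card_neighborFinset_eq_degree] at h3
      have h4 := Finset.card_le_card h2
      omega
    have e2 : ∀ w ∈ S (i + 1), (H.neighborFinset w ∩ S i).card ≤ 1 := by
      intro w hw
      rw [Finset.mem_sdiff, Nat.add_sub_cancel] at hw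
      rw [Finset.card_le_one]
      intro x hx x' hx'
      by_contra hne
      rw [Finset.mem_inter, mem_neighborFinset, Finset.mem_sdiff] at hx hx'
      have := unique_parent hg hi (fun h => hw.2 (bal_mono (by omega) h)) hx.2.1 hx'.2.1 hx.1
        hx'.1 hne
      omega
    have e3 : ∑ u ∈ S i, (H.neighborFinset u ∩ S (i + 1)).card =
        ∑ w ∈ S (i + 1), (H.neighborFinset w ∩ S i).card := by
      have f1 : ∀ (A B : Finset V), ∑ u ∈ A, (H.neighborFinset u ∩ B).card =
          ∑ u ∈ A, ∑ w ∈ B, if H.Adj u w then 1 else 0 := by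
        intro A B
        apply Finset.sum_congr rfl
        intro u _
        rw [← Finset.card_filter]
        congr 1
        ext w
        rw [Finset.mem_inter, mem_neighborFinset, Finset.mem_filter, and_comm]
      rw [f1, f1, Finset.sum_comm]
      simp only [H.adj_comm]
    have e4 : ∑ w ∈ S (i + 1), (H.neighborFinset w ∩ S i).card ≤ (S (i + 1)).card := by
      calc _ ≤ ∑ w ∈ S (i + 1), 1 := Finset.sum_le_sum e2
        _ = (S (i + 1)).card := by simp
    have e5 : ∑ u ∈ S i, (H.degree u - 1) ≤ (S (i + 1)).card := by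
      calc _ ≤ ∑ u ∈ S i, (H.neighborFinset u ∩ S (i + 1)).card := Finset.sum_le_sum e1
        _ = _ := e3
        _ ≤ _ := e4
    calc (k - 2) * (S i).card = ∑ u ∈ S i, (k - 2) := by
          rw [Finset.sum_const, smul_eq_mul, mul_comm]
      _ ≤ ∑ u ∈ S i, ((H.degree u - 1) + (k - 1 - H.degree u)) := by
          apply Finset.sum_le_sum
          intro u _
          omega
      _ = ∑ u ∈ S i, (H.degree u - 1) + ∑ u ∈ S i, (k - 1 - H.degree u) :=
          Finset.sum_add_distrib
      _ ≤ _ := Nat.add_le_add_right e5 _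
  -- deficiencies of balls
  have hD : ∀ i, ∑ u ∈ bal H v₀ i, (k - 1 - H.degree u) ≤ k - 3 := fun i =>
    (Finset.sum_le_sum_of_subset (Finset.subset_univ _)).trans hdef
  have hDs : ∀ i, 1 ≤ i → ∑ u ∈ bal H v₀ i, (k - 1 - H.degree u) =
      ∑ u ∈ bal H v₀ (i - 1), (k - 1 - H.degree u) + ∑ u ∈ S i, (k - 1 - H.degree u) := by
    intro i _
    rw [add_comm]
    exact (Finset.sum_sdiff (bal_mono (by omega))).symm
  -- growth
  have hgrow : ∀ i, 2 ≤ i → 2 * i ≤ k →
      (k - 2) ^ i + 1 + (k - 3) ≤ (S i).card + ∑ u ∈ bal H v₀ (i - 1), (k - 1 - H.degree u) := by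
    intro i hi
    induction i, hi using Nat.le_induction with
    | base =>
      intro hik
      have h1 := hstep 1 le_rfl (by omega)
      rw [hS1] at h1
      have h2 := hDs 1 le_rfl
      rw [Nat.sub_self, hb0, Finset.sum_singleton, hv₀, Nat.sub_self, zero_add] at h2
      rw [show 2 - 1 = 1 from rfl, h2]
      obtain ⟨c, rfl⟩ : ∃ c, k = c + 3 := ⟨k - 3, by omega⟩
      simp only [show c + 3 - 2 = c + 1 by omega, show c + 3 - 1 = c + 2 by omega,
        show c + 3 - 3 = c by omega] at h1 ⊢
      nlinarith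
    | succ i hi ih =>
      intro hik
      have h0 := ih (by omega)
      have h1 := hstep i (by omega) (by omega)
      have h2 := hDs i (by omega)
      have h3 := hD (i - 1)
      rw [Nat.add_sub_cancel, h2]
      obtain ⟨c, rfl⟩ : ∃ c, k = c + 3 := ⟨k - 3, by omega⟩
      simp only [show c + 3 - 2 = c + 1 by omega, show c + 3 - 1 = c + 2 by omega,
        show c + 3 - 3 = c by omega] at h0 h1 h3 ⊢
      rw [pow_succ]
      -- `s_i ≥ (c+1)^i + 1`
      generalize (∑ u ∈ bal H v₀ (i - 1), (c + 2 - H.degree u)) = D at *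
      generalize (∑ u ∈ S i, (c + 2 - H.degree u)) = E at *
      generalize (S i).card = s at *
      generalize (S (i + 1)).card = s' at *
      generalize (c + 1) ^ i = P at *
      nlinarith [Nat.mul_le_mul_left c h0, Nat.mul_le_mul_left c h3]
  have hcard : ∀ i, (S i).card ≤ 2 * M + 1 := fun i => by
    rw [← hV]; exact Finset.card_le_univ _
  rcases Nat.lt_or_ge (k / 2) 2 with h | h
  · have : k / 2 = 1 := by omega
    rw [this, pow_one]
    have := hcard 1
    omega
  · have h1 := hgrow (k / 2) h (by omega)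
    have h2 := hcard (k / 2)
    have h3 := hD (k / 2 - 1)
    omega

end Pool.Agent.H82.Cyc
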