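import Pool.Agent.H82.Cyc.LineH
import Pool.Agent.H82.Cyc.Moore

/-!
# From claw-free graphs to overfull graphs of large girth and back
-/

set_option autoImplicit false
set_option linter.unusedSectionVars false

open SimpleGraph Finset

namespace Pool.Agent.H82.Cyc

/-- all cycles longer than `k`, in terms of walks -/
lemma largeGirth_of_cycles {V : Type*} {H : SimpleGraph V} {k : ℕ}
    (h : ∀ (v : V) (w : H.Walk v v), w.IsCycle → k < w.length) : LargeGirth H k := by
  classical
  intro u v huv p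
  obtain ⟨q, hq1, hq2⟩ : ∃ q : (H.deleteEdges {s(u, v)}).Walk v u,
      q.IsPath ∧ q.length ≤ p.length := ⟨p.bypass, p.bypass_isPath, p.length_bypass_le_length⟩
  let q' : H.Walk v u := q.mapLe (deleteEdges_le _)
  have hq'p : q'.IsPath := (Walk.isPath_mapLe _).2 hq1
  have hne : s(u, v) ∉ q'.edges := by
    intro hmem
    rw [Walk.edges_mapLe_eq_edges] at hmem
    have := q.edges_subset_edgeSet hmem
    rw [edgeSet_deleteEdges] at this
    exact this.2 rfl
  have hcyc : (Walk.cons huv q').IsCycle := (Walk.cons_isCycle_iff _ _).2 ⟨hq'p, hne⟩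
  have := h u _ hcyc
  rw [Walk.length_cons] at this
  have h2 : q'.length = q.length := by simp [q']
  omega

/-- the subgraph induced on a subtype of a claw-free graph is claw-free -/
lemma ClawFree.comap {V W : Type*} {G : SimpleGraph V} (h : ClawFree G) (f : W ↪ V) :
    ClawFree (G.comap f) := fun v a b c h1 h2 h3 h4 h5 h6 =>
  h (f v) (f a) (f b) (f c) h1 h2 h3 (fun hh => h4 (f.injective hh)) (fun hh => h5 (f.injective hh))
    (fun hh => h6 (f.injective hh))

lemma ind_of_contained {V : Type*} {G : SimpleGraph V} {n : ℕ}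
    (h : ¬ ((⊤ : SimpleGraph (Fin n)) ⊑ Gᶜ)) (I : Finset V) (hI : Ind G I) : I.card < n := by
  classical
  by_contra hlt
  push Not at hlt
  obtain ⟨J, hJI, hJ⟩ := Finset.exists_subset_card_eq hlt
  apply h
  let e := (Finset.equivFinOfCardEq hJ).symm
  refine ⟨⟨⟨fun i => (e i).1, ?_⟩, ?_⟩⟩
  · intro i j hij
    rw [top_adj] at hij
    rw [compl_adj]
    exact ⟨fun hh => hij (e.injective (Subtype.ext hh)), hI _ (hJI (e i).2) _ (hJI (e j).2)⟩
  · intro i j hij
    exact e.injective (Subtype.ext hij)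

/-- a claw-free counterexample contains a critical one -/
lemma exists_crit {V : Type} [Fintype V] [DecidableEq V] {G : SimpleGraph V} {k n : ℕ} (hk : 3 ≤ k)
    (hcl : ClawFree G) (hcyc : ¬ (cycleGraph k ⊑ G)) (hind : ∀ I, Ind G I → I.card < n)
    (hcard : (k - 1) * (n - 1) + 1 ≤ Fintype.card V) :
    ∃ (W : Type) (_ : Fintype W) (_ : DecidableEq W) (G' : SimpleGraph W) (a : ℕ),
      a < n ∧ Crit G' k a := by
  classical
  -- bad sets
  let F : Finset (Finset V) := univ.filter (fun W => ∀ I, I ⊆ W → Ind G I → (k - 1) * I.card < W.card)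
  have hF : F.Nonempty := by
    refine ⟨univ, Finset.mem_filter.2 ⟨Finset.mem_univ _, fun I _ hI => ?_⟩⟩
    have h1 := hind I hI
    rw [Finset.card_univ]
    have h2 : (k - 1) * I.card ≤ (k - 1) * (n - 1) := Nat.mul_le_mul_left _ (by omega)
    omega
  obtain ⟨W, hWF, hmin⟩ := Finset.exists_min_image F Finset.card hF
  have hW := (Finset.mem_filter.1 hWF).2
  have hsmall : ∀ W' : Finset V, W'.card < W.card →
      ∃ I, I ⊆ W' ∧ Ind G I ∧ W'.card ≤ (k - 1) * I.card := by
    intro W' hlt
    by_contra hno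
    push Not at hno
    have : W' ∈ F := Finset.mem_filter.2 ⟨Finset.mem_univ _, fun I hI hInd => hno I hI hInd⟩
    have := hmin W' this
    omega
  have hWne : W.Nonempty := by
    have := hW ∅ (Finset.empty_subset _) (fun x hx => absurd hx (Finset.notMem_empty _))
    rw [Finset.card_empty, mul_zero] at this
    exact Finset.card_pos.1 this
  obtain ⟨w₀, hw₀⟩ := hWne
  obtain ⟨I₀, hI₀, hI₀ind, hI₀c⟩ := hsmall (W.erase w₀) (Finset.card_erase_lt_of_mem hw₀)
  rw [Finset.card_erase_of_mem hw₀] at hI₀c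
  have hI₀lt := hW I₀ (hI₀.trans (Finset.erase_subset _ _)) hI₀ind
  set a := I₀.card with ha
  have hWc : W.card = (k - 1) * a + 1 := by omega
  let f : W ↪ V := Function.Embedding.subtype _
  refine ⟨W, inferInstance, inferInstance, G.comap f, a, ?_, ?_⟩
  · have := hind I₀ hI₀ind
    omega
  have hmap : ∀ I : Finset W, Ind (G.comap f) I → Ind G (I.map f) := by
    intro I hI x hx y hy
    rw [Finset.mem_map] at hx hy
    obtain ⟨x', hx', rfl⟩ := hx
    obtain ⟨y', hy', rfl⟩ := hy
    exact hI x' hx' y' hy'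
  have hmapW : ∀ I : Finset W, I.map f ⊆ W := by
    intro I x hx
    rw [Finset.mem_map] at hx
    obtain ⟨x', _, rfl⟩ := hx
    exact x'.2
  refine { hk := hk, claw := hcl.comap f, cyc := fun h => hcyc (h.trans (comap_contained G f)),
           card := by rw [Fintype.card_coe]; exact hWc, ind := ?_, prop := ?_ }
  · intro I hI
    have h1 := hW _ (hmapW I) (hmap I hI)
    rw [Finset.card_map, hWc] at h1
    have h2 : (k - 1) * I.card ≤ (k - 1) * a := by omega
    exact Nat.le_of_mul_le_mul_left h2 (by omega)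
  · intro W' hW'
    have hlt : (W'.map f).card < W.card := by
      rw [Finset.card_map, ← Fintype.card_coe W]
      obtain ⟨x, hx⟩ : ∃ x, x ∉ W' := by
        by_contra hno
        push Not at hno
        exact hW' (Finset.eq_univ_of_forall hno)
      exact Finset.card_lt_univ_of_notMem hx
    obtain ⟨I, hI, hInd, hc⟩ := hsmall _ hlt
    refine ⟨I.subtype (fun x => x ∈ W), ?_, ?_, ?_⟩
    · intro x hx
      rw [Finset.mem_subtype] at hx
      have := hI hx
      rw [Finset.mem_map] at this
      obtain ⟨y, hy, hyx⟩ := this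
      have : y = x := Subtype.ext hyx
      rwa [← this]
    · intro x hx y hy
      rw [Finset.mem_subtype] at hx hy
      exact hInd x.1 hx y.1 hy
    · rw [Finset.card_map] at hc
      rw [Finset.card_subtype, Finset.filter_true_of_mem (fun x hx => hmapW W' (hI hx))]
      exact hc

/-- from a critical graph to an overfull graph -/
lemma Crit.overfull {V : Type} [Fintype V] [DecidableEq V] {G : SimpleGraph V} {k a : ℕ}
    (h : Crit G k a) : Overfull k a := by
  classical
  have hk := h.hk
  let e : Ln G ≃ Fin (2 * a + 1) := Fintype.equivFinOfCardEq h.card_lines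
  let H : SimpleGraph (Fin (2 * a + 1)) := (HL G).comap e.symm
  let iso : H ≃g HL G := Iso.comap e.symm (HL G)
  refine ⟨H, ?_, ?_, ?_⟩
  · intro v
    by_contra hlt
    push Not at hlt
    rw [← card_neighborFinset_eq_degree] at hlt
    have hlt' := Nat.succ_le_of_lt hlt
    rw [Nat.succ_eq_add_one, Nat.sub_add_cancel (by omega)] at hlt'
    obtain ⟨T, hT, hTc⟩ := Finset.exists_subset_card_eq hlt'
    let g := (Finset.equivFinOfCardEq hTc).symm
    refine h.HL_deg (e.symm v) (fun i => e.symm (g i).1) ?_ ?_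
    · intro i j hij
      exact g.injective (Subtype.ext (e.symm.injective hij))
    · intro i
      have := hT (g i).2
      rw [mem_neighborFinset] at this
      exact this
  · obtain ⟨f, hf⟩ := h.HL_edges
    have h1 : Fintype.card V ≤ Nat.card (HL G).edgeSet := by
      rw [← Nat.card_eq_fintype_card]
      exact Nat.card_le_card_of_injective f hf
    have h2 : Nat.card (HL G).edgeSet = Nat.card H.edgeSet := (Nat.card_congr iso.mapEdgeSet).symm
    rw [h.card, h2, Nat.card_eq_fintype_card, ← edgeFinset_card] at h1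
    exact h1
  · intro v w hw
    have h1 : (w.map iso.toHom).IsCycle := hw.map iso.injective
    have := h.HL_girth _ _ h1
    rwa [Walk.length_map] at this

/-- the Moore bound for overfull graphs -/
lemma Overfull.moore {k M : ℕ} (hk : 3 ≤ k) (h : Overfull k M) : (k - 2) ^ (k / 2) ≤ 2 * M := by
  classical
  obtain ⟨H, h1, h2, h3⟩ := h
  have := Pool.Agent.H82.Cyc.moore (H := H) k M hk (by simp) h1 h2 (largeGirth_of_cycles h3)
  omega

/-- the class version of `Bad` -/
def BadCF (k a N : ℕ) : Prop :=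
  ∃ (V : Type) (_ : Fintype V) (G : SimpleGraph V), N ≤ Fintype.card V ∧ ClawFree G ∧
    ¬ (cycleGraph k ⊑ G) ∧ ¬ ((⊤ : SimpleGraph (Fin (a + 1))) ⊑ Gᶜ)

lemma lineGraph_clawFree {V : Type*} (H : SimpleGraph V) : ClawFree H.lineGraph := by
  classical
  intro v a b c ha hb hc hab hac hbc
  rw [lineGraph_adj_iff_exists] at ha hb hc
  obtain ⟨_, x, hx1, hx2⟩ := ha
  obtain ⟨_, y, hy1, hy2⟩ := hb
  obtain ⟨_, z, hz1, hz2⟩ := hc
  simp only [lineGraph_adj_iff_exists]
  by_cases hxy : x = y
  · exact Or.inl ⟨hab, x, hx2, by rw [hxy]; exact hy2⟩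
  by_cases hxz : x = z
  · exact Or.inr (Or.inl ⟨hac, x, hx2, by rw [hxz]; exact hz2⟩)
  have hv : (v : Sym2 V) = s(x, y) := (Sym2.mem_and_mem_iff hxy).1 ⟨hx1, hy1⟩
  rw [hv, Sym2.mem_iff] at hz1
  rcases hz1 with rfl | rfl
  · exact absurd rfl hxz
  · exact Or.inr (Or.inr ⟨hbc, z, hy2, hz2⟩)

lemma sum_clawFree {V W : Type*} {G : SimpleGraph V} {H : SimpleGraph W} (hG : ClawFree G)
    (hH : ClawFree H) : ClawFree (G ⊕g H) := by
  intro v a b c ha hb hc hab hac hbc
  match v, a, b, c, ha, hb, hc, hab, hac, hbc with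
  | Sum.inl v, Sum.inl a, Sum.inl b, Sum.inl c, ha, hb, hc, hab, hac, hbc =>
    simp only [sum_adj_inl, ne_eq, Sum.inl.injEq] at *
    exact hG v a b c ha hb hc hab hac hbc
  | Sum.inr v, Sum.inr a, Sum.inr b, Sum.inr c, ha, hb, hc, hab, hac, hbc =>
    simp only [sum_adj_inr, ne_eq, Sum.inr.injEq] at *
    exact hH v a b c ha hb hc hab hac hbc
  | Sum.inl v, Sum.inr a, _, _, ha, _, _, _, _, _ => simp at ha
  | Sum.inl v, Sum.inl a, Sum.inr b, _, _, hb, _, _, _, _ => simp at hb
  | Sum.inl v, Sum.inl a, Sum.inl b, Sum.inr c, _, _, hc, _, _, _ => simp at hc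
  | Sum.inr v, Sum.inl a, _, _, ha, _, _, _, _, _ => simp at ha
  | Sum.inr v, Sum.inr a, Sum.inl b, _, _, hb, _, _, _, _ => simp at hb
  | Sum.inr v, Sum.inr a, Sum.inr b, Sum.inl c, _, _, hc, _, _, _ => simp at hc

lemma top_clawFree {V : Type*} : ClawFree (⊤ : SimpleGraph V) :=
  fun _ _ _ _ _ _ _ h _ _ => Or.inl h

end Pool.Agent.H82.Cyc
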