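import Pool.Agent.H82.Cyc.Line

/-!
# Subdividing an edge; adding disjoint cliques; Ramsey numbers
-/

set_option autoImplicit false

open SimpleGraph

namespace Pool.Agent.H82.Cyc

variable {V : Type*}

/-- adjacency after subdividing the edge `lr` by the new vertex `none` -/
def subAdj (H : SimpleGraph V) (l r : V) : Option V → Option V → Prop
  | some u, some v => H.Adj u v ∧ s(u, v) ≠ s(l, r)
  | some u, none => u = l ∨ u = r
  | none, some v => v = l ∨ v = r
  | none, none => False

/-- the graph obtained from `H` by subdividing the edge `lr` -/
def subd (H : SimpleGraph V) (l r : V) : SimpleGraph (Option V) where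
  Adj := subAdj H l r
  symm := ⟨by
    rintro (_ | u) (_ | v) h
    · exact h
    · exact h
    · exact h
    · exact ⟨h.1.symm, by rw [Sym2.eq_swap]; exact h.2⟩⟩
  loopless := ⟨by
    rintro (_ | u) h
    · exact h
    · exact H.loopless.irrefl u h.1⟩

lemma subd_some_some (H : SimpleGraph V) (l r u v : V) :
    (subd H l r).Adj (some u) (some v) ↔ H.Adj u v ∧ s(u, v) ≠ s(l, r) := Iff.rfl
lemma subd_some_none (H : SimpleGraph V) (l r u : V) :
    (subd H l r).Adj (some u) none ↔ (u = l ∨ u = r) := Iff.rfl
lemma subd_none_some (H : SimpleGraph V) (l r u : V) :
    (subd H l r).Adj none (some u) ↔ (u = l ∨ u = r) := Iff.rfl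
lemma subd_none_none (H : SimpleGraph V) (l r : V) :
    ¬ (subd H l r).Adj none none := fun h => h

/-- contraction of walks: a walk of the subdivided graph avoiding an edge set gives a walk in `H` -/
lemma contract {H₂ : SimpleGraph V} {G : SimpleGraph (Option V)} (w : V)
    (hG : ∀ a b, G.Adj a b → a.getD w = b.getD w ∨ H₂.Adj (a.getD w) (b.getD w))
    {a b : Option V} (p : G.Walk a b) : ∃ q : H₂.Walk (a.getD w) (b.getD w), q.length ≤ p.length := by
  induction p with
  | nil => exact ⟨Walk.nil, by simp⟩
  | cons h p ih =>
    obtain ⟨q, hq⟩ := ih
    rcases hG _ _ h with h1 | h1
    · exact ⟨q.copy h1.symm rfl, by rw [Walk.length_copy, Walk.length_cons]; omega⟩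
    · exact ⟨Walk.cons h1 q, by rw [Walk.length_cons, Walk.length_cons]; omega⟩

lemma subd_girth (H : SimpleGraph V) (l r : V) (hlr : H.Adj l r) (L : ℕ) (hg : LargeGirth H L) :
    LargeGirth (subd H l r) L := by
  classical
  intro u v huv p
  have hne : l ≠ r := hlr.ne
  match u, v, huv, p with
  | none, none, huv, _ => exact absurd huv (subd_none_none H l r)
  | some u, some v, huv, p =>
    rw [subd_some_some] at huv
    obtain ⟨q, hq⟩ := contract (H₂ := H.deleteEdges {s(u, v)}) l (by
      intro a b hab
      rw [deleteEdges_adj, Set.mem_singleton_iff] at hab
      obtain ⟨hab, hab2⟩ := hab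
      match a, b, hab, hab2 with
      | none, none, hab, _ => exact absurd hab (subd_none_none H l r)
      | some a, some b, hab, hab2 =>
        right
        rw [subd_some_some] at hab
        simp only [Option.getD_some, deleteEdges_adj, Set.mem_singleton_iff]
        refine ⟨hab.1, fun h => hab2 ?_⟩
        have := congrArg (Sym2.map some) h
        simpa using this
      | some a, none, hab, _ =>
        rw [subd_some_none] at hab
        simp only [Option.getD_some, Option.getD_none]
        rcases hab with rfl | rfl
        · exact Or.inl rfl
        · right
          rw [deleteEdges_adj, Set.mem_singleton_iff]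
          exact ⟨hlr.symm, fun h => huv.2 (by rw [← h, Sym2.eq_swap])⟩
      | none, some b, hab, _ =>
        rw [subd_none_some] at hab
        simp only [Option.getD_some, Option.getD_none]
        rcases hab with rfl | rfl
        · exact Or.inl rfl
        · right
          rw [deleteEdges_adj, Set.mem_singleton_iff]
          exact ⟨hlr, fun h => huv.2 h.symm⟩) p
    exact (hg u v huv.1 q).trans hq
  | some u, none, huv, p =>
    rw [subd_some_none] at huv
    rcases huv with rfl | rfl
    · -- contract to `r`; walk from `r` to `l = u`
      obtain ⟨q, hq⟩ := contract (H₂ := H.deleteEdges {s(u, r)}) r (by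
        intro a b hab
        rw [deleteEdges_adj, Set.mem_singleton_iff] at hab
        obtain ⟨hab, hab2⟩ := hab
        match a, b, hab, hab2 with
        | none, none, hab, _ => exact absurd hab (subd_none_none H _ r)
        | some a, some b, hab, hab2 =>
          right
          rw [subd_some_some] at hab
          simp only [Option.getD_some, deleteEdges_adj, Set.mem_singleton_iff]
          exact hab
        | some a, none, hab, hab2 =>
          rw [subd_some_none] at hab
          simp only [Option.getD_some, Option.getD_none]
          rcases hab with rfl | rfl
          · exact absurd rfl hab2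
          · exact Or.inl rfl
        | none, some b, hab, hab2 =>
          rw [subd_none_some] at hab
          simp only [Option.getD_some, Option.getD_none]
          rcases hab with rfl | rfl
          · exact absurd Sym2.eq_swap hab2
          · exact Or.inl rfl) p
      exact (hg u r hlr q).trans hq
    · obtain ⟨q, hq⟩ := contract (H₂ := H.deleteEdges {s(u, l)}) l (by
        intro a b hab
        rw [deleteEdges_adj, Set.mem_singleton_iff] at hab
        obtain ⟨hab, hab2⟩ := hab
        match a, b, hab, hab2 with
        | none, none, hab, _ => exact absurd hab (subd_none_none H l _)
        | some a, some b, hab, hab2 =>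
          right
          rw [subd_some_some] at hab
          simp only [Option.getD_some, deleteEdges_adj, Set.mem_singleton_iff]
          exact ⟨hab.1, by rw [Sym2.eq_swap (a := u)]; exact hab.2⟩
        | some a, none, hab, hab2 =>
          rw [subd_some_none] at hab
          simp only [Option.getD_some, Option.getD_none]
          rcases hab with rfl | rfl
          · exact Or.inl rfl
          · exact absurd rfl hab2
        | none, some b, hab, hab2 =>
          rw [subd_none_some] at hab
          simp only [Option.getD_some, Option.getD_none]
          rcases hab with rfl | rfl
          · exact Or.inl rfl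
          · exact absurd Sym2.eq_swap hab2) p
      exact (hg u l hlr.symm q).trans hq
  | none, some v, huv, p =>
    rw [subd_none_some] at huv
    rcases huv with rfl | rfl
    · obtain ⟨q, hq⟩ := contract (H₂ := H.deleteEdges {s(r, v)}) r (by
        intro a b hab
        rw [deleteEdges_adj, Set.mem_singleton_iff] at hab
        obtain ⟨hab, hab2⟩ := hab
        match a, b, hab, hab2 with
        | none, none, hab, _ => exact absurd hab (subd_none_none H _ r)
        | some a, some b, hab, hab2 =>
          right
          rw [subd_some_some] at hab
          simp only [Option.getD_some, deleteEdges_adj, Set.mem_singleton_iff]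
          exact ⟨hab.1, by rw [Sym2.eq_swap (a := r)]; exact hab.2⟩
        | some a, none, hab, hab2 =>
          rw [subd_some_none] at hab
          simp only [Option.getD_some, Option.getD_none]
          rcases hab with rfl | rfl
          · exact absurd Sym2.eq_swap hab2
          · exact Or.inl rfl
        | none, some b, hab, hab2 =>
          rw [subd_none_some] at hab
          simp only [Option.getD_some, Option.getD_none]
          rcases hab with rfl | rfl
          · exact absurd rfl hab2
          · exact Or.inl rfl) p
      exact (hg r v hlr.symm q).trans hq
    · obtain ⟨q, hq⟩ := contract (H₂ := H.deleteEdges {s(l, v)}) l (by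
        intro a b hab
        rw [deleteEdges_adj, Set.mem_singleton_iff] at hab
        obtain ⟨hab, hab2⟩ := hab
        match a, b, hab, hab2 with
        | none, none, hab, _ => exact absurd hab (subd_none_none H l _)
        | some a, some b, hab, hab2 =>
          right
          rw [subd_some_some] at hab
          simp only [Option.getD_some, deleteEdges_adj, Set.mem_singleton_iff]
          exact hab
        | some a, none, hab, hab2 =>
          rw [subd_some_none] at hab
          simp only [Option.getD_some, Option.getD_none]
          rcases hab with rfl | rfl
          · exact Or.inl rfl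
          · exact absurd Sym2.eq_swap hab2
        | none, some b, hab, hab2 =>
          rw [subd_none_some] at hab
          simp only [Option.getD_some, Option.getD_none]
          rcases hab with rfl | rfl
          · exact Or.inl rfl
          · exact absurd rfl hab2) p
      exact (hg l v hlr q).trans hq

/-- degrees in the subdivided graph -/
lemma subd_deg (H : SimpleGraph V) (l r : V) (hlr : H.Adj l r) (k : ℕ) (hk : 3 ≤ k)
    (hdeg : ∀ (v : V) (f : Fin k → V), Function.Injective f → ¬ ∀ i, H.Adj v (f i))
    (v : Option V) (f : Fin k → Option V) (hf : Function.Injective f) :
    ¬ ∀ i, (subd H l r).Adj v (f i) := by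
  classical
  intro hadj
  match v, hadj with
  | none, hadj =>
    have hsub : ∀ i, f i = some l ∨ f i = some r := by
      intro i
      have := hadj i
      match hfi : f i with
      | none => rw [hfi] at this; exact absurd this (subd_none_none H l r)
      | some w =>
        rw [hfi, subd_none_some] at this
        rcases this with rfl | rfl
        · exact Or.inl rfl
        · exact Or.inr rfl
    have hmaps : ∀ i ∈ (Finset.univ : Finset (Fin k)), f i ∈ ({some l, some r} : Finset (Option V)) := by
      intro i _
      simpa using hsub i
    have h1 := Finset.card_le_card_of_injOn f hmaps hf.injOn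
    rw [Finset.card_univ, Fintype.card_fin] at h1
    have h2 := Finset.card_le_two (a := some l) (b := some r)
    omega
  | some v, hadj =>
    -- the neighbour through the new vertex
    refine hdeg v (fun i => (f i).getD (if v = l then r else l)) ?_ ?_
    · have key : ∀ i j, f i = none → ∀ w, f j = some w → (if v = l then r else l) ≠ w := by
        intro i j hi w hj hEq
        have h1 := hadj i
        have h2 := hadj j
        rw [hi, subd_some_none] at h1
        rw [hj, subd_some_some] at h2
        rcases h1 with rfl | rfl
        · rw [if_pos rfl] at hEq
          subst hEq
          exact h2.2 rfl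
        · rw [if_neg hlr.ne.symm] at hEq
          subst hEq
          exact h2.2 Sym2.eq_swap
      intro i j hij
      simp only at hij
      apply hf
      match hfi : f i, hfj : f j with
      | none, none => rfl
      | none, some w =>
        rw [hfi, hfj] at hij
        exact absurd hij (key i j hfi w hfj)
      | some w, none =>
        rw [hfi, hfj] at hij
        exact absurd hij.symm (key j i hfj w hfi)
      | some w, some w' =>
        rw [hfi, hfj] at hij
        simp only [Option.getD_some] at hij
        rw [hij]
    · intro i
      have h1 := hadj i
      match hfi : f i with
      | none =>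
        rw [hfi, subd_some_none] at h1
        simp only [Option.getD_none]
        rcases h1 with rfl | rfl
        · rw [if_pos rfl]; exact hlr
        · rw [if_neg hlr.ne.symm]; exact hlr.symm
      | some w =>
        rw [hfi, subd_some_some] at h1
        simp only [Option.getD_some]
        exact h1.1

/-- edges of the subdivided graph -/
lemma subd_edges {ι : Type*} (H : SimpleGraph V) (e : ι → Sym2 V) (he : Function.Injective e)
    (hH : ∀ i, e i ∈ H.edgeSet) (i₀ : ι) (l r : V) (hi₀ : e i₀ = s(l, r)) :
    ∃ e' : Option ι → (subd H l r).edgeSet, Function.Injective e' := by
  classical
  have hlr : H.Adj l r := by rw [← mem_edgeSet, ← hi₀]; exact hH i₀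
  have hne := hlr.ne
  have hmem : ∀ z : Option ι, (match z with
      | none => s((none : Option V), some r)
      | some i => if i = i₀ then s((none : Option V), some l) else (e i).map some) ∈
        (subd H l r).edgeSet := by
    intro z
    match z with
    | none => rw [mem_edgeSet, subd_none_some]; exact Or.inr rfl
    | some i =>
      by_cases hi : i = i₀
      · simp only [hi, if_true]
        rw [mem_edgeSet, subd_none_some]; exact Or.inl rfl
      · simp only [hi, if_false]
        have h1 := hH i
        have h2 : e i ≠ s(l, r) := fun h => hi (he (h.trans hi₀.symm))
        revert h1 h2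
        refine Sym2.ind (fun a b => ?_) (e i)
        intro h1 h2
        rw [Sym2.map_mk, mem_edgeSet, subd_some_some]
        exact ⟨h1, h2⟩
  refine ⟨fun z => ⟨_, hmem z⟩, ?_⟩
  have hnone : ∀ (z : Sym2 V) (w : Option V), s((none : Option V), w) ≠ z.map some := by
    intro z w h
    have : (none : Option V) ∈ z.map some := by rw [← h]; simp
    rw [Sym2.mem_map] at this
    obtain ⟨a, _, ha⟩ := this
    exact absurd ha (by simp)
  have hrl : s((none : Option V), some r) ≠ s((none : Option V), some l) := by
    intro h
    rw [Sym2.eq_iff] at h
    rcases h with ⟨_, h⟩ | ⟨h, _⟩
    · exact hne (Option.some.inj h).symm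
    · exact absurd h (by simp)
  intro z z' hzz
  have hval := congrArg Subtype.val hzz
  simp only at hval
  match z, z' with
  | none, none => rfl
  | none, some i =>
    by_cases hi : i = i₀
    · simp only [hi, if_true] at hval
      exact absurd hval hrl
    · simp only [hi, if_false] at hval
      exact absurd hval (hnone _ _)
  | some i, none =>
    by_cases hi : i = i₀
    · simp only [hi, if_true] at hval
      exact absurd hval.symm hrl
    · simp only [hi, if_false] at hval
      exact absurd hval.symm (hnone _ _)
  | some i, some j =>
    by_cases hi : i = i₀ <;> by_cases hj : j = i₀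
    · rw [hi, hj]
    · simp only [hi, hj, if_true, if_false] at hval
      exact absurd hval (hnone _ _)
    · simp only [hi, hj, if_true, if_false] at hval
      exact absurd hval.symm (hnone _ _)
    · simp only [hi, hj, if_false] at hval
      have := Sym2.map.injective (Option.some_injective V) hval
      rw [he this]

end Pool.Agent.H82.Cyc
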